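import Pool.Agent.OddZetaL.Data
import Pool.Agent.OddZetaG.TabSound

/-!
Exponent bounds for `n / p < 1 / 63` (closed form).  Seat: helper75.
-/

open Finset

namespace Pool.Agent.OddZetaL

open Pool.Agent.OddZetaG

namespace CellE

theorem D45_card_count_le {n : ℕ} (hn : 0 < n) (y : ℕ) :
    ∑ i ∈ range 47, (if i * n ≤ y then (1 : ℤ) else 0) ≤ ((y / n : ℕ) : ℤ) + 1 := by
  rw [← Finset.sum_filter, Finset.sum_const, nsmul_eq_mul, mul_one]
  have h : (range 47).filter (fun i => i * n ≤ y) ⊆ range (y / n + 1) := by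
    intro i hi
    rw [Finset.mem_filter] at hi
    rw [Finset.mem_range]
    have := (Nat.le_div_iff_mul_le hn).2 hi.2
    omega
  have := Finset.card_le_card h
  rw [Finset.card_range] at this
  exact_mod_cast this

theorem D45_card_count_ge {n : ℕ} (hn : 0 < n) (y : ℕ) (hy : y < 47 * n) :
    ((y / n : ℕ) : ℤ) + 1 ≤ ∑ i ∈ range 47, (if i * n ≤ y then (1 : ℤ) else 0) := by
  rw [← Finset.sum_filter, Finset.sum_const, nsmul_eq_mul, mul_one]
  have h : range (y / n + 1) ⊆ (range 47).filter (fun i => i * n ≤ y) := by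
    intro i hi
    rw [Finset.mem_range] at hi
    rw [Finset.mem_filter, Finset.mem_range]
    have h1 : i ≤ y / n := by omega
    have h2 := (Nat.le_div_iff_mul_le hn).1 h1
    refine ⟨?_, h2⟩
    by_contra h3
    have h4 : 47 * n ≤ i * n := Nat.mul_le_mul_right n (by omega)
    omega
  have := Finset.card_le_card h
  rw [Finset.card_range] at this
  exact_mod_cast this

/-- floor values, `0 ≤ a < 2 p` -/
theorem ediv_ge_ite {a p : ℤ} (hp : 0 < p) (h0 : 0 ≤ a) (h1 : a < 2 * p) :
    a / p = if p ≤ a then 1 else 0 := by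
  split_ifs with h
  · rw [Int.ediv_eq_iff_of_pos hp]; constructor <;> linarith
  · exact Int.ediv_eq_zero_of_lt h0 (by omega)

theorem ediv_neg_ite {a p : ℤ} (hp : 0 < p) (h0 : -p ≤ a) (h1 : a < p) :
    a / p = if 0 ≤ a then 0 else -1 := by
  split_ifs with h
  · exact Int.ediv_eq_zero_of_lt h (by omega)
  · rw [Int.ediv_eq_iff_of_pos hp]; constructor <;> linarith

/-- the sum of the two floors, `|u| ≤ W`, `δ ≤ W < p` -/
theorem two_floor {u d W p : ℤ} (hp : 0 < p) (hd : 0 ≤ d) (hdW : d ≤ W) (hW : W < p)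
    (hu : |u| ≤ W) :
    (u + d) / p + (d - u) / p + 1 =
      (if |u| ≤ d then (1 : ℤ) else 0) + if p ≤ d + |u| then (1 : ℤ) else 0 := by
  rcases abs_cases u with ⟨h1, h2⟩ | ⟨h1, h2⟩
  · rw [h1] at hu ⊢
    rw [ediv_ge_ite hp (a := u + d) (by linarith) (by linarith),
      ediv_neg_ite hp (a := d - u) (by linarith) (by linarith)]
    split_ifs <;> omega
  · rw [h1] at hu ⊢
    rw [ediv_ge_ite hp (a := d - u) (by linarith) (by linarith),
      ediv_neg_ite hp (a := u + d) (by linarith) (by linarith)]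
    split_ifs <;> omega

theorem cnt_eq (n l p i : ℕ) (hi : i < 47) (hn : 0 < n) (hp : 63 * n < p)
    (hl : l ∈ poles D45 n) :
    cnt D45 n l p (360 + i) =
      if (p : ℤ) ≤ (63 - i) * n + |(l : ℤ) - 423 * n| then 1 else 0 := by
  have hl' : 360 * n ≤ l ∧ l ≤ 486 * n := by
    have := Finset.mem_Icc.1 hl
    exact this
  unfold cnt fA fB
  have hblk : l ∈ blk D45 n (360 + i) ↔ |(l : ℤ) - 423 * n| ≤ (63 - i) * n := by
    unfold blk
    rw [Finset.mem_Icc]
    have hC : D45.C - (360 + i) = 486 - i := by show 846 - (360 + i) = _; omega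
    rw [hC, abs_le]
    constructor
    · rintro ⟨h1, h2⟩
      zify [show i ≤ 486 by omega] at h1 h2
      constructor <;> linarith
    · rintro ⟨h1, h2⟩
      zify [show i ≤ 486 by omega]
      constructor <;> linarith
  have hC : ((D45.C : ℤ) - ((360 + i : ℕ) : ℤ)) * n - l = (63 - i) * n - ((l : ℤ) - 423 * n) := by
    show ((846 : ℤ) - ((360 + i : ℕ) : ℤ)) * n - l = _
    push_cast; ring
  have hC2 : (l : ℤ) - ((360 + i : ℕ) : ℤ) * n = ((l : ℤ) - 423 * n) + (63 - i) * n := by
    push_cast; ring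
  have hi' : (i : ℤ) < 47 := by exact_mod_cast hi
  have hn' : (0 : ℤ) < n := by exact_mod_cast hn
  have h2 := two_floor (u := (l : ℤ) - 423 * n) (d := (63 - i) * n) (W := 63 * n) (p := p)
    (by omega) (by nlinarith) (by nlinarith) (by omega) (by rw [abs_le]; constructor <;> omega)
  rw [hC, hC2]
  by_cases hb : l ∈ blk D45 n (360 + i)
  · rw [if_pos hb]
    rw [if_pos (hblk.1 hb)] at h2
    linarith
  · rw [if_neg hb]
    rw [if_neg (fun h => hb (hblk.2 h))] at h2
    linarith

theorem Nl_val (n i : ℕ) (hi : i < 47) : Nl D45 n (360 + i) = (126 - 2 * i) * n := by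
  unfold Nl
  show (846 - 2 * (360 + i)) * n = _
  congr 1
  omega

theorem E0_eq (n p : ℕ) : - E0 D45 n p =
    ((846 * n / p : ℕ) : ℤ) - ∑ i ∈ range 47, (((126 - 2 * i) * n / p : ℕ) : ℤ) := by
  unfold E0
  have h1 : ∑ i ∈ D45.P, ((Nl D45 n (D45.h i) / p : ℕ) : ℤ) =
      ∑ i ∈ range 47, (((126 - 2 * i) * n / p : ℕ) : ℤ) := by
    show ∑ i ∈ range 47, _ = _
    refine Finset.sum_congr rfl (fun i hi => ?_)
    rw [D45_h i hi, Nl_val n i (Finset.mem_range.1 hi)]
  have h2 : ∑ i ∈ D45.M, ((Nl D45 n (D45.h i) / p : ℕ) : ℤ) = ((846 * n / p : ℕ) : ℤ) := by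
    show ∑ i ∈ {47}, _ = _
    rw [Finset.sum_singleton]
    rfl
  rw [h1, h2]; ring

/-- the exponent of a pole at `l`, `63 n < p` -/
theorem S_eq (n l p : ℕ) (hn : 0 < n) (hp : 63 * n < p) (hl : l ∈ poles D45 n) :
    ord D45 n l - V D45 n l p =
      ∑ i ∈ range 47, ((if |(l : ℤ) - 423 * n| ≤ (63 - i) * n then (1 : ℤ) else 0) +
        (if (p : ℤ) ≤ (63 - i) * n + |(l : ℤ) - 423 * n| then (1 : ℤ) else 0) -
          (((126 - 2 * i) * n / p : ℕ) : ℤ)) -
      (1 + (l / p : ℕ) + ((846 * n - l) / p : ℕ) - ((846 * n / p : ℕ) : ℤ)) := by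
  have hl' : 360 * n ≤ l ∧ l ≤ 486 * n := by
    have := Finset.mem_Icc.1 hl
    exact this
  rw [Tab.ord_sub_V]
  congr 1
  · show ∑ i ∈ range 47, _ = _
    refine Finset.sum_congr rfl (fun i hi => ?_)
    rw [D45_h i hi, Nl_val n i (Finset.mem_range.1 hi)]
    have hi' : (i : ℤ) < 47 := by exact_mod_cast Finset.mem_range.1 hi
    have hn' : (0 : ℤ) < n := by exact_mod_cast hn
    have h2 := two_floor (u := (l : ℤ) - 423 * n) (d := (63 - i) * n) (W := 63 * n) (p := p)
      (by omega) (by nlinarith) (by nlinarith) (by omega) (by rw [abs_le]; constructor <;> omega)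
    unfold fA fB
    have hC : ((D45.C : ℤ) - ((360 + i : ℕ) : ℤ)) * n - l =
        (63 - i) * n - ((l : ℤ) - 423 * n) := by
      show ((846 : ℤ) - ((360 + i : ℕ) : ℤ)) * n - l = _
      push_cast; ring
    have hC2 : (l : ℤ) - ((360 + i : ℕ) : ℤ) * n = ((l : ℤ) - 423 * n) + (63 - i) * n := by
      push_cast; ring
    rw [hC, hC2, h2]
  · show ∑ i ∈ {47}, _ = _
    rw [Finset.sum_singleton]
    have h47 : D45.h 47 = 0 := rfl
    rw [h47]
    have hN : Nl D45 n 0 = 846 * n := rfl
    rw [hN]
    unfold fA fB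
    have h3 : ((D45.C : ℤ) - ((0 : ℕ) : ℤ)) * n - l = ((846 * n - l : ℕ) : ℤ) := by
      show ((846 : ℤ) - ((0 : ℕ) : ℤ)) * n - l = _
      rw [Nat.cast_sub (by omega)]; push_cast; ring
    have h4 : (l : ℤ) - ((0 : ℕ) : ℤ) * n = (l : ℤ) := by push_cast; ring
    rw [h3, h4]
    push_cast
    ring

/-- lower bound of the correction from the zero block -/
theorem cM_nonneg {n l p : ℕ} (hp : 0 < p) (hl : l ≤ 846 * n) :
    0 ≤ (1 : ℤ) + (l / p : ℕ) + ((846 * n - l) / p : ℕ) - ((846 * n / p : ℕ) : ℤ) := by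
  have h1 : 846 * n / p ≤ l / p + (846 * n - l) / p + 1 := by
    have e1 := Nat.div_add_mod l p
    have e2 := Nat.div_add_mod (846 * n - l) p
    have l1 := Nat.mod_lt l hp
    have l2 := Nat.mod_lt (846 * n - l) hp
    have h3 : 846 * n < p * (l / p + (846 * n - l) / p + 2) := by
      rw [Nat.mul_add, Nat.mul_add]
      omega
    have h4 : 846 * n < (l / p + (846 * n - l) / p + 2) * p := by
      rw [Nat.mul_comm _ p]; exact h3
    have := (Nat.div_lt_iff_lt_mul hp).2 h4
    omega
  omega

theorem cM_ge_one {n l p j : ℕ} (hp : 0 < p) (hl0 : 360 * n ≤ l) (hl : l ≤ 486 * n)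
    (hK : 846 * n / p = 2 * j + 1) (hj : j * p ≤ 360 * n)
    (hu : (p : ℤ) ≤ 63 * n + |(l : ℤ) - 423 * n|) :
    1 ≤ (1 : ℤ) + (l / p : ℕ) + ((846 * n - l) / p : ℕ) - ((846 * n / p : ℕ) : ℤ) := by
  rw [hK]
  rcases abs_cases ((l : ℤ) - 423 * n) with ⟨h1, h2⟩ | ⟨h1, h2⟩
  · rw [h1] at hu
    have a1 : j + 1 ≤ l / p := by
      rw [Nat.le_div_iff_mul_le hp]
      have : p ≤ l - 360 * n := by omega
      calc (j + 1) * p = j * p + p := by ring
        _ ≤ 360 * n + (l - 360 * n) := by omega
        _ = l := by omega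
    have a2 : j ≤ (846 * n - l) / p := by
      rw [Nat.le_div_iff_mul_le hp]
      omega
    push_cast
    omega
  · rw [h1] at hu
    have a1 : j + 1 ≤ (846 * n - l) / p := by
      rw [Nat.le_div_iff_mul_le hp]
      have : p ≤ 486 * n - l := by omega
      calc (j + 1) * p = j * p + p := by ring
        _ ≤ 360 * n + (486 * n - l) := by omega
        _ = 846 * n - l := by omega
    have a2 : j ≤ l / p := by
      rw [Nat.le_div_iff_mul_le hp]
      omega
    push_cast
    omega

theorem sum_floor_ge {n p : ℕ} (hn : 0 < n) (hp : 63 * n < p) (hp2 : p ≤ 126 * n) :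
    (((126 * n - p) / (2 * n) : ℕ) : ℤ) + 1 ≤
      ∑ i ∈ range 47, (((126 - 2 * i) * n / p : ℕ) : ℤ) := by
  refine (D45_card_count_ge (n := 2 * n) (by omega) (126 * n - p) (by omega)).trans ?_
  refine Finset.sum_le_sum (fun i hi => ?_)
  rw [Finset.mem_range] at hi
  split_ifs with h
  · have h1 : 1 ≤ (126 - 2 * i) * n / p := by
      rw [Nat.le_div_iff_mul_le (by omega), one_mul]
      have h2 : (126 - 2 * i) * n + i * (2 * n) = 126 * n := by
        have : 126 - 2 * i + 2 * i = 126 := by omega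
        calc (126 - 2 * i) * n + i * (2 * n) = (126 - 2 * i + 2 * i) * n := by ring
          _ = 126 * n := by rw [this]
      omega
    exact_mod_cast h1
  · positivity

theorem S_le {n l p : ℕ} (hn : 0 < n) (hp : 63 * n < p) (hl : l ∈ poles D45 n)
    (hu : (p : ℤ) ≤ 63 * n + |(l : ℤ) - 423 * n|) :
    ord D45 n l - V D45 n l p ≤ (((126 * n - p) / n : ℕ) : ℤ) + 2 -
        ((((126 * n - p) / n / 2 : ℕ) : ℤ) + 1) -
      (1 + (l / p : ℕ) + ((846 * n - l) / p : ℕ) - ((846 * n / p : ℕ) : ℤ)) := by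
  have hl' : 360 * n ≤ l ∧ l ≤ 486 * n := by
    have := Finset.mem_Icc.1 hl
    exact this
  rw [S_eq n l p hn hp hl, Finset.sum_sub_distrib, Finset.sum_add_distrib]
  obtain ⟨w, hw⟩ : ∃ w : ℕ, (w : ℤ) = |(l : ℤ) - 423 * n| := ⟨((l : ℤ) - 423 * n).natAbs, by simp⟩
  rw [← hw] at hu ⊢
  have hw63 : w ≤ 63 * n := by
    have : |(l : ℤ) - 423 * n| ≤ 63 * n := by rw [abs_le]; constructor <;> omega
    omega
  have s1 : ∑ i ∈ range 47, (if (w : ℤ) ≤ (63 - i) * n then (1 : ℤ) else 0) ≤
      (((63 * n - w) / n : ℕ) : ℤ) + 1 := by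
    refine le_trans (le_of_eq ?_) (D45_card_count_le hn (63 * n - w))
    refine Finset.sum_congr rfl (fun i hi => ?_)
    rw [Finset.mem_range] at hi
    congr 1
    rw [eq_iff_iff]
    constructor
    · intro h
      zify [hw63]
      linarith
    · intro h
      zify [hw63] at h
      linarith
  have s2 : ∑ i ∈ range 47, (if (p : ℤ) ≤ (63 - i) * n + w then (1 : ℤ) else 0) ≤
      (((63 * n + w - p) / n : ℕ) : ℤ) + 1 := by
    refine le_trans (le_of_eq ?_) (D45_card_count_le hn (63 * n + w - p))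
    have hpw : p ≤ 63 * n + w := by omega
    refine Finset.sum_congr rfl (fun i hi => ?_)
    rw [Finset.mem_range] at hi
    congr 1
    rw [eq_iff_iff]
    constructor
    · intro h
      zify [hpw]
      linarith
    · intro h
      zify [hpw] at h
      linarith
  have s3 := sum_floor_ge hn hp (by omega)
  have s4 : (63 * n - w) / n + (63 * n + w - p) / n ≤ (126 * n - p) / n := by
    have : (63 * n - w) / n + (63 * n + w - p) / n ≤ (63 * n - w + (63 * n + w - p)) / n :=
      Nat.div_add_div_le_add_div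
    have h2 : 63 * n - w + (63 * n + w - p) = 126 * n - p := by omega
    rwa [h2] at this
  have s5 : (126 * n - p) / (2 * n) = (126 * n - p) / n / 2 := by
    rw [Nat.div_div_eq_div_mul, Nat.mul_comm n 2]
  rw [s5] at s3
  have s4' : (((63 * n - w) / n : ℕ) : ℤ) + (((63 * n + w - p) / n : ℕ) : ℤ) ≤
      (((126 * n - p) / n : ℕ) : ℤ) := by exact_mod_cast s4
  linarith

theorem noP_case {n l p : ℕ} (hn : 0 < n) (hp : 63 * n < p) (hl : l ∈ poles D45 n)
    (hu : 63 * (n : ℤ) + |(l : ℤ) - 423 * n| < p) :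
    bnd D45 n l p ≤ - E0 D45 n p ∧ bndR D45 n l p ≤ - E0 D45 n p := by
  have hl' : 360 * n ≤ l ∧ l ≤ 486 * n := by
    have := Finset.mem_Icc.1 hl
    exact this
  have hno : noP D45 n l p := by
    intro i hi
    have hi' : i < 47 := Finset.mem_range.1 hi
    rw [D45_h i hi, cnt_eq n l p i hi' hn hp hl, if_neg]
    have : (0 : ℤ) ≤ i * n := by positivity
    intro h
    linarith
  have hs : ¬ p ≤ l - D45.s * n := by
    show ¬ p ≤ l - 360 * n
    have := le_abs_self ((l : ℤ) - 423 * n)
    omega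
  unfold bnd bndR
  rw [if_neg hs, if_pos hno, if_pos hno]
  exact ⟨min_le_right _ _, min_le_right _ _⟩

theorem P_case {n l p : ℕ} (hn : 0 < n) (hp : 63 * n < p) (hl : l ∈ poles D45 n)
    (hu : (p : ℤ) ≤ 63 * n + |(l : ℤ) - 423 * n|) :
    bnd D45 n l p ≤ ord D45 n l - V D45 n l p ∧
      bndR D45 n l p ≤ ord D45 n l - V D45 n l p - 3 := by
  have hno : ¬ noP D45 n l p := by
    intro h
    have h0 : (0 : ℕ) ∈ D45.P := Finset.mem_range.2 (by norm_num)
    have := h 0 h0
    rw [D45_h 0 h0, cnt_eq n l p 0 (by norm_num) hn hp hl, if_pos] at this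
    · norm_num at this
    · push_cast; linarith
  have hk : (D45.k : ℤ) = 0 := rfl
  unfold bnd bndR
  rw [if_neg hno, if_neg hno, hk]
  constructor
  · split_ifs <;> linarith
  · exact le_rfl

end CellE

open CellE

/-- L5b -/
theorem okE_sound (e : ℕ × ℕ × ℕ × ℕ × ℕ × ℕ) (h : okE e = true) :
    Good e.1 e.2.1 e.2.2.1 e.2.2.2.1 e.2.2.2.2.1 e.2.2.2.2.2 := by
  obtain ⟨a1, b1, a2, b2, e0, e1⟩ := e
  intro n p l hn hp hpn hpp h1 h2 hl
  simp only at h1 h2 ⊢
  unfold okE at h
  simp only [Bool.and_eq_true, Nat.blt_eq] at h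
  obtain ⟨ha1, hb1, ha2, hb2, h⟩ := h
  have hp0 : 0 < p := hp.pos
  have hl' : 360 * n ≤ l ∧ l ≤ 486 * n := by
    have := Finset.mem_Icc.1 hl
    exact this
  -- the upper bound of K
  have hK2 : 846 * n / p ≤ (846 * a2 - 1) / b2 := by
    rw [Nat.le_div_iff_mul_le hb2]
    have e1 : 846 * n / p * p ≤ 846 * n := Nat.div_mul_le_self _ _
    have e2 : 846 * n / p * b2 < 846 * a2 := by
      have : (846 * n / p * b2) * p < (846 * a2) * p := by
        calc (846 * n / p * b2) * p = (846 * n / p * p) * b2 := by ring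
          _ ≤ (846 * n) * b2 := Nat.mul_le_mul_right _ e1
          _ = 846 * (n * b2) := by ring
          _ < 846 * (a2 * p) := by omega
          _ = (846 * a2) * p := by ring
      exact lt_of_mul_lt_mul_right this (Nat.zero_le _)
    omega
  have hsum0 : (0 : ℤ) ≤ ∑ i ∈ range 47, (((126 - 2 * i) * n / p : ℕ) : ℤ) :=
    Finset.sum_nonneg (fun _ _ => by positivity)
  cases hc : Nat.ble (126 * a2) b2 with
  | true =>
    rw [hc] at h
    simp only [cond_true, Bool.and_eq_true, Nat.ble_eq] at h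
    rw [Nat.ble_eq] at hc
    have hp126 : 126 * n < p := by
      have : (126 * n) * a2 < p * a2 := by
        calc (126 * n) * a2 = n * (126 * a2) := by ring
          _ ≤ n * b2 := Nat.mul_le_mul_left _ hc
          _ < a2 * p := h2
          _ = p * a2 := by ring
      exact lt_of_mul_lt_mul_right this (Nat.zero_le _)
    have hu : 63 * (n : ℤ) + |(l : ℤ) - 423 * n| < p := by
      have : |(l : ℤ) - 423 * n| ≤ 63 * n := by rw [abs_le]; constructor <;> omega
      omega
    obtain ⟨g1, g2⟩ := noP_case hn (by omega) hl hu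
    rw [E0_eq] at g1 g2
    constructor <;> omega
  | false =>
    rw [hc] at h
    simp only [cond_false, Bool.and_eq_true, Nat.ble_eq] at h
    obtain ⟨hb126, hb63, c1, c2, c3, c4⟩ := h
    have hp63 : 63 * n < p := by
      have : (63 * n) * a2 < p * a2 := by
        calc (63 * n) * a2 = n * (63 * a2) := by ring
          _ ≤ n * b2 := Nat.mul_le_mul_left _ hb63
          _ < a2 * p := h2
          _ = p * a2 := by ring
      exact lt_of_mul_lt_mul_right this (Nat.zero_le _)
    have hp126 : p ≤ 126 * n := by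
      have : a1 * p ≤ a1 * (126 * n) := by
        calc a1 * p ≤ n * b1 := h1
          _ ≤ n * (126 * a1) := Nat.mul_le_mul_left _ hb126
          _ = a1 * (126 * n) := by ring
      exact le_of_mul_le_mul_left this ha1
    by_cases hu : 63 * (n : ℤ) + |(l : ℤ) - 423 * n| < p
    · obtain ⟨g1, g2⟩ := noP_case hn hp63 hl hu
      rw [E0_eq] at g1 g2
      have s3 := sum_floor_ge hn hp63 hp126
      -- lower bound of the floor
      have hG : 63 ≤ (126 * n - p) / (2 * n) + (b1 + 2 * a1 - 1) / (2 * a1) := by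
        set G := (b1 + 2 * a1 - 1) / (2 * a1) with hGdef
        have e1 : b1 ≤ 2 * a1 * G := by
          have := Nat.div_add_mod (b1 + 2 * a1 - 1) (2 * a1)
          have := Nat.mod_lt (b1 + 2 * a1 - 1) (show 0 < 2 * a1 by omega)
          rw [← hGdef] at *
          omega
        have e2 : p ≤ 2 * G * n := by
          have : a1 * p ≤ a1 * (2 * G * n) := by
            calc a1 * p ≤ n * b1 := h1
              _ ≤ n * (2 * a1 * G) := Nat.mul_le_mul_left _ e1
              _ = a1 * (2 * G * n) := by ring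
          exact le_of_mul_le_mul_left this ha1
        by_cases hG63 : G ≤ 63
        · have e3 : 63 - G ≤ (126 * n - p) / (2 * n) := by
            rw [Nat.le_div_iff_mul_le (by omega)]
            have e4 : (63 - G) * (2 * n) + 2 * G * n = 126 * n := by
              have : 63 - G + G = 63 := by omega
              calc (63 - G) * (2 * n) + 2 * G * n = (63 - G + G) * (2 * n) := by ring
                _ = 126 * n := by rw [this]; ring
            omega
          omega
        · exact le_trans (by omega : 63 ≤ G) (Nat.le_add_left _ _)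
      have hG' : (63 : ℤ) ≤ (((126 * n - p) / (2 * n) : ℕ) : ℤ) +
        (((b1 + 2 * a1 - 1) / (2 * a1) : ℕ) : ℤ) := by exact_mod_cast hG
      constructor <;> omega
    · rw [not_lt] at hu
      obtain ⟨g1, g2⟩ := P_case hn hp63 hl hu
      have s := S_le hn hp63 hl hu
      -- f ≤ 125 - g
      have hf : (126 * n - p) / n + b2 / a2 ≤ 125 := by
        have e1 : b2 / a2 * n < p := by
          have : (b2 / a2 * n) * a2 < p * a2 := by
            calc (b2 / a2 * n) * a2 = n * (b2 / a2 * a2) := by ring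
              _ ≤ n * b2 := Nat.mul_le_mul_left _ (Nat.div_mul_le_self _ _)
              _ < a2 * p := h2
              _ = p * a2 := by ring
          exact lt_of_mul_lt_mul_right this (Nat.zero_le _)
        by_contra hcon
        rw [not_le] at hcon
        have e2 : (126 * n - p) / n * n ≤ 126 * n - p := Nat.div_mul_le_self _ _
        have e3 : 126 * n ≤ ((126 * n - p) / n + b2 / a2) * n := Nat.mul_le_mul_right n (by omega)
        rw [Nat.add_mul] at e3
        omega
      have hcM0 := cM_nonneg (n := n) (l := l) hp0 (by omega)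
      set cM : ℤ := (1 : ℤ) + (l / p : ℕ) + ((846 * n - l) / p : ℕ) - ((846 * n / p : ℕ) : ℤ)
        with hcM
      have key : (cond (Nat.beq (846 * a1 / b1) ((846 * a2 - 1) / b2) &&
          (Nat.beq ((846 * a1 / b1) % 2) 1 &&
            Nat.ble ((846 * a1 / b1 - 1) * b1) (720 * a1))) 1 0 : ℕ) ≤ cM := by
        cases hcc : (Nat.beq (846 * a1 / b1) ((846 * a2 - 1) / b2) &&
          (Nat.beq ((846 * a1 / b1) % 2) 1 &&
            Nat.ble ((846 * a1 / b1 - 1) * b1) (720 * a1))) with
        | false => rw [cond_false]; exact_mod_cast hcM0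
        | true =>
          rw [cond_true]
          simp only [Bool.and_eq_true, Nat.beq_eq, Nat.ble_eq] at hcc
          obtain ⟨q1, q2, q3⟩ := hcc
          have hK1 : 846 * a1 / b1 ≤ 846 * n / p := by
            rw [Nat.le_div_iff_mul_le hp0]
            have e1 : 846 * a1 / b1 * b1 ≤ 846 * a1 := Nat.div_mul_le_self _ _
            have : b1 * (846 * a1 / b1 * p) ≤ b1 * (846 * n) := by
              calc b1 * (846 * a1 / b1 * p) = (846 * a1 / b1 * b1) * p := by ring
                _ ≤ (846 * a1) * p := Nat.mul_le_mul_right _ e1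
                _ = 846 * (a1 * p) := by ring
                _ ≤ 846 * (n * b1) := Nat.mul_le_mul_left _ h1
                _ = b1 * (846 * n) := by ring
            exact le_of_mul_le_mul_left this hb1
          have hKK : 846 * n / p = 846 * a1 / b1 := by omega
          obtain ⟨j, hj⟩ : ∃ j, 846 * n / p = 2 * j + 1 := ⟨846 * n / p / 2, by omega⟩
          have hjp : j * p ≤ 360 * n := by
            have e1 : 846 * a1 / b1 - 1 = 2 * j := by omega
            rw [e1] at q3
            have : a1 * (j * p) ≤ a1 * (360 * n) := by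
              have e2 : j * b1 ≤ 360 * a1 := by
                have : 2 * (j * b1) ≤ 2 * (360 * a1) := by
                  calc 2 * (j * b1) = 2 * j * b1 := by ring
                    _ ≤ 720 * a1 := q3
                    _ = 2 * (360 * a1) := by ring
                omega
              calc a1 * (j * p) = j * (a1 * p) := by ring
                _ ≤ j * (n * b1) := Nat.mul_le_mul_left _ h1
                _ = n * (j * b1) := by ring
                _ ≤ n * (360 * a1) := Nat.mul_le_mul_left _ e2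
                _ = a1 * (360 * n) := by ring
            exact le_of_mul_le_mul_left this ha1
          have h9 := cM_ge_one hp0 hl'.1 hl'.2 hj hjp hu
          calc ((1 : ℕ) : ℤ) = 1 := by norm_num
            _ ≤ _ := h9
      constructor <;> omega

end Pool.Agent.OddZetaL
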