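import Pool.Agent.OddZetaL.Data
import Pool.Agent.OddZetaG.TabFull

/-!
The periodic part of the table: pole blocks only, Farey cells of order `126`.  Seat: helper8.
-/

open Finset

namespace Pool.Agent.OddZetaL

open Pool.Agent.OddZetaG Pool.Agent.OddZetaG.Tab

/-- the pole blocks, shifted by `360 n` -/
def D47 : Dat where
  C := 126
  P := Finset.range 47
  M := ∅
  h := fun i => i
  k := 0
  A := 46
  s := 0
  lo := 0

def PL47 : List ℕ :=
  [0, 1, 2, 3, 4, 5, 6, 7, 8, 9, 10, 11, 12, 13, 14, 15, 16, 17, 18, 19, 20, 21, 22, 23, 24, 25, 26,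
   27, 28, 29, 30, 31, 32, 33, 34, 35, 36, 37, 38, 39, 40, 41, 42, 43, 44, 45, 46]

theorem L47 : Lists D47 PL47 [] where
  P_eq := by decide
  M_eq := by decide
  lt := by decide
  Cpos := by decide

/-! ### the fast Boolean check -/

def accP (a b B : ℕ) (l : List ℕ) : ℕ :=
  l.foldr (fun h s => Nat.add (Nat.add (Nat.pow 256 (Nat.mod (Nat.mul h a) b))
    (cond (Nat.blt (Nat.mod (Nat.mul (Nat.sub 126 h) a) b) (Nat.mod (Nat.mul h a) b)) 0 B)) s) 0

def accQ (a b : ℕ) (l : List ℕ) : ℕ :=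
  l.foldr (fun h s => Nat.add (Nat.pow 256 (Nat.mod (Nat.mul (Nat.sub 126 h) a) b)) s) 0

def fastX (a b B d : ℕ) : ℕ :=
  Nat.div (Nat.sub (Nat.add (Nat.mul (Nat.add 81 d) B) (accP a b B PL47)) (accQ a b PL47)) 255

def fmask (X M : ℕ) : Bool := Nat.beq (Nat.land X M) M

/-- check of one cell `(a1, b1, a2, b2, d)` -/
def okP (e : ℕ × ℕ × ℕ × ℕ × ℕ) : Bool :=
  cond (Nat.ble 47 e.2.2.2.2) true
   (cond (Nat.beq (Nat.mul e.2.2.1 e.2.1) (Nat.succ (Nat.mul e.1 e.2.2.2.1)))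
   (cond (Nat.blt 126 (Nat.add e.2.1 e.2.2.2.1))
    (fmask (fastX (Nat.add e.1 e.2.2.1) (Nat.add e.2.1 e.2.2.2.1)
      (Nat.sub (Nat.pow 256 (Nat.add e.2.1 e.2.2.2.1)) 1) e.2.2.2.2)
      (Nat.mul 128 (Nat.div (Nat.sub (Nat.pow 256 (Nat.add e.2.1 e.2.2.2.1)) 1) 255))) false) false)

theorem accQ_eq (a b : ℕ) (l : List ℕ) :
    accQ a b l = spw (l.map fun h => ((126 - h) * a) % b) := by
  induction l with
  | nil => rfl
  | cons h l ih =>
    have h1 : accQ a b (h :: l) = 256 ^ (((126 - h) * a) % b) + accQ a b l := rfl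
    rw [h1, ih]
    rfl

theorem accP_eq (a b B : ℕ) (l : List ℕ) :
    accP a b B l + kabS 126 a b l * B = spw (l.map fun h => (h * a) % b) + l.length * B := by
  induction l with
  | nil => simp [accP, kabS, spw]
  | cons h l ih =>
    have h1 : accP a b B (h :: l) = 256 ^ ((h * a) % b) +
        (cond (Nat.blt (((126 - h) * a) % b) ((h * a) % b)) 0 B) + accP a b B l := rfl
    have h2 : kabS 126 a b (h :: l) = kab 126 a b h + kabS 126 a b l := rfl
    have h3 : kab 126 a b h = cond (Nat.blt (((126 - h) * a) % b) ((h * a) % b)) 1 0 := rfl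
    have h4 : spw ((h :: l).map fun h => (h * a) % b) = 256 ^ ((h * a) % b) +
        spw (l.map fun h => (h * a) % b) := rfl
    rw [h1, h2, h3, h4, List.length_cons]
    cases Nat.blt (((126 - h) * a) % b) ((h * a) % b) <;> simp only [cond_true, cond_false] <;>
      linarith

theorem fastX_def (a b B d : ℕ) : fastX a b B d =
    ((81 + d) * B + accP a b B PL47 - accQ a b PL47) / 255 := by
  unfold fastX
  simp only [Nat.add_eq, Nat.mul_eq, Nat.sub_eq]
  rfl

theorem arith_aux {d k Z U W Pp : ℕ} (h1 : Pp + k * (Z - 1) = U + 47 * (Z - 1)) :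
    (81 + d) * (Z - 1) + Pp - W = (128 + d) * (Z - 1) + 47 * Z + U - (k * (Z - 1) + 47 * Z + W) := by
  have e3 : (128 + d) * (Z - 1) + 47 * Z + U = (81 + d) * (Z - 1) + Pp + (k * (Z - 1) + 47 * Z) := by
    have : (128 + d) * (Z - 1) = (81 + d) * (Z - 1) + 47 * (Z - 1) := by ring
    omega
  rw [e3]
  omega

theorem XX_def (a b d : ℕ) : XX 126 0 PL47 [] a b d = ((128 + d) * (256 ^ b - 1) + 47 * 256 ^ b +
    spw (List.map (fun h => (h * a) % b) PL47) - (kabS 126 a b PL47 * (256 ^ b - 1) + 47 * 256 ^ b +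
    spw (List.map (fun h => ((126 - h) * a) % b) PL47))) / 255 := by
  have hk : kabS 126 a b [] = 0 := rfl
  have hl : PL47.length = 47 := rfl
  unfold XX Xb Ub Db
  simp only [hk, List.map_nil, List.append_nil, List.length_map, zero_add, add_zero, hl]

theorem fastX_eq (a b d : ℕ) : fastX a b (256 ^ b - 1) d = XX 126 0 PL47 [] a b d := by
  have h1 := accP_eq a b (256 ^ b - 1) PL47
  have hl : PL47.length = 47 := rfl
  rw [hl] at h1
  rw [fastX_def, accQ_eq a b PL47, XX_def, arith_aux h1]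

/-! ### digits -/

theorem mask_digit {b t : ℕ} (ht : t < b) : 128 * ((256 ^ b - 1) / 255) / 256 ^ t % 256 = 128 := by
  have h1 : 128 * ((256 ^ b - 1) / 255) = ∑ t ∈ Finset.range b, (fun _ => 128) t * 256 ^ t := by
    have h2 : 255 * ∑ t ∈ Finset.range b, 256 ^ t = 256 ^ b - 1 := by
      have := Nat.geomSum_eq (show 2 ≤ 256 by norm_num) b
      rw [this]
      have h3 : 255 ∣ 256 ^ b - 1 := by
        have := Nat.sub_one_dvd_pow_sub_one 256 b
        simpa using this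
      omega
    rw [← Finset.mul_sum, ← h2, Nat.mul_div_cancel_left _ (by norm_num)]
  rw [h1, digit (fun _ => 128) (fun _ => by norm_num) b t ht]

theorem fmask_digit {X b t : ℕ} (h : fmask X (128 * ((256 ^ b - 1) / 255)) = true) (ht : t < b) :
    128 ≤ X / 256 ^ t % 256 := by
  have h1 := Nat.eq_of_beq_eq_true h
  have h2 := mask_digit ht
  set M := 128 * ((256 ^ b - 1) / 255) with hM
  have e : (256 : ℕ) ^ t = 2 ^ (8 * t) := by
    rw [pow_mul]
    norm_num
  have h3 : M.testBit (8 * t + 7) = true := by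
    rw [Nat.testBit_eq_decide_div_mod_eq, decide_eq_true_eq, pow_add, ← Nat.div_div_eq_div_mul, ← e]
    omega
  have h4 : X.testBit (8 * t + 7) = true := by
    have h5 : (X &&& M).testBit (8 * t + 7) = true := by
      have : X &&& M = M := h1
      rw [this]
      exact h3
    rw [Nat.testBit_and, Bool.and_eq_true] at h5
    exact h5.1
  rw [Nat.testBit_eq_decide_div_mod_eq, decide_eq_true_eq, pow_add, ← Nat.div_div_eq_div_mul, ← e] at h4
  omega

theorem room_of {d : ℕ} (hd : d < 47) : room 0 PL47 [] d = true := by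
  unfold room
  rw [Bool.and_eq_true]
  constructor
  · decide
  · have : PL47.length = 47 := rfl
    rw [this, Nat.blt_eq]
    simp only [List.length_nil]
    omega

theorem okP_iff {e : ℕ × ℕ × ℕ × ℕ × ℕ} (h : okP e = true) (hd : e.2.2.2.2 < 47) :
    sameb 126 e.1 e.2.1 e.2.2.1 e.2.2.2.1 = true ∧
    ∀ t < e.2.1 + e.2.2.2.1, arcSum 126 PL47 [] (e.1 + e.2.2.1) (e.2.1 + e.2.2.2.1) t ≤
      (e.2.2.2.2 : ℤ) := by
  obtain ⟨a1, b1, a2, b2, d⟩ := e
  simp only at h hd ⊢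
  unfold okP at h
  simp only at h
  have h47 : Nat.ble 47 d = false := by
    rw [Bool.eq_false_iff]
    intro h'
    have := Nat.le_of_ble_eq_true h'
    omega
  rw [h47, cond_false] at h
  have h2 : Nat.beq (Nat.mul a2 b1) (Nat.succ (Nat.mul a1 b2)) = true := by
    by_contra hc
    rw [Bool.not_eq_true] at hc
    rw [hc, cond_false] at h
    exact Bool.noConfusion h
  rw [h2, cond_true] at h
  have h3 : Nat.blt 126 (Nat.add b1 b2) = true := by
    by_contra hc
    rw [Bool.not_eq_true] at hc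
    rw [hc, cond_false] at h
    exact Bool.noConfusion h
  rw [h3, cond_true] at h
  have h2' : a2 * b1 = a1 * b2 + 1 := Nat.eq_of_beq_eq_true h2
  have h3' : 126 < b1 + b2 := by
    rw [Nat.blt_eq] at h3
    exact h3
  have hb1 : 0 < b1 := by
    rcases Nat.eq_zero_or_pos b1 with rfl | h'
    · simp at h2'
    · exact h'
  have hb2 : 0 < b2 := by
    rcases Nat.eq_zero_or_pos b2 with rfl | h'
    · rw [mul_zero, zero_add] at h2'
      have := Nat.eq_one_of_mul_eq_one_left h2'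
      omega
    · exact h'
  refine ⟨?_, fun t ht => ?_⟩
  · unfold sameb
    simp only [Bool.and_eq_true, Nat.blt_eq]
    refine ⟨⟨⟨hb1, hb2⟩, ?_⟩, h3'⟩
    rw [h2']
    exact Nat.beq_refl _
  · have h4 : fmask (fastX (a1 + a2) (b1 + b2) (256 ^ (b1 + b2) - 1) d)
        (128 * ((256 ^ (b1 + b2) - 1) / 255)) = true := h
    have h5 := fmask_digit h4 ht
    rw [fastX_eq] at h5
    have h6 := XX_digit (C := 126) (k := 0) (a := a1 + a2) (room_of hd) ht
    have h5' : ((128 : ℕ) : ℤ) ≤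
        ((XX 126 0 PL47 [] (a1 + a2) (b1 + b2) d / 256 ^ t % 256 : ℕ) : ℤ) := Int.ofNat_le.2 h5
    rw [h6] at h5'
    omega

/-! ### soundness -/

theorem D45_ordV_le (n l p : ℕ) (hp : 0 < p) (hl : 360 * n ≤ l) :
    ord D45 n l - V D45 n l p ≤ ord D47 n (l - 360 * n) - V D47 n (l - 360 * n) p := by
  rw [ord_sub_V, ord_sub_V]
  have hM : 0 ≤ ∑ i ∈ D45.M, (fA n l p (D45.h i) + fB D45 n l p (D45.h i) + 1 -
      ((Nl D45 n (D45.h i) / p : ℕ) : ℤ)) := by
    apply Finset.sum_nonneg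
    intro i hi
    have hi' : i = 47 := Finset.mem_singleton.1 hi
    subst hi'
    have hh : D45.h 47 = 0 := rfl
    rw [hh]
    unfold fA fB Nl
    have hC : D45.C = 846 := rfl
    rw [hC]
    have hp' : (0 : ℤ) < p := by exact_mod_cast hp
    have e1 : ((l : ℤ) - (0 : ℕ) * n) / p = (l : ℤ) / p := by simp
    have e2 : (((846 : ℕ) : ℤ) - (0 : ℕ)) * (n : ℤ) - l = 846 * n - l := by push_cast; ring
    have e3 : (((846 - 2 * 0) * n / p : ℕ) : ℤ) = (846 * (n : ℤ)) / p := by push_cast; rfl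
    rw [e1, e2, e3]
    have h1 := Int.emod_add_mul_ediv (l : ℤ) p
    have h2 := Int.emod_add_mul_ediv (846 * (n : ℤ) - l) p
    have h3 := Int.emod_add_mul_ediv (846 * (n : ℤ)) p
    have g1 := Int.emod_lt_of_pos (l : ℤ) hp'
    have g2 := Int.emod_lt_of_pos (846 * (n : ℤ) - l) hp'
    have g3 := Int.emod_nonneg (846 * (n : ℤ)) hp'.ne'
    by_contra hcon
    rw [not_le] at hcon
    have h4 : (l : ℤ) / p + (846 * (n : ℤ) - l) / p + 2 ≤ (846 * (n : ℤ)) / p := by omega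
    have h5 := mul_le_mul_of_nonneg_left h4 hp'.le
    have h6 : (p : ℤ) * ((l : ℤ) / p + (846 * (n : ℤ) - l) / p + 2) =
        p * ((l : ℤ) / p) + p * ((846 * (n : ℤ) - l) / p) + 2 * p := by ring
    linarith
  have hM47 : D47.M = ∅ := rfl
  rw [hM47, Finset.sum_empty, sub_zero]
  have hP : ∑ i ∈ D45.P, (fA n l p (D45.h i) + fB D45 n l p (D45.h i) + 1 -
      ((Nl D45 n (D45.h i) / p : ℕ) : ℤ)) = ∑ i ∈ D47.P, (fA n (l - 360 * n) p (D47.h i) +
        fB D47 n (l - 360 * n) p (D47.h i) + 1 - ((Nl D47 n (D47.h i) / p : ℕ) : ℤ)) := by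
    apply Finset.sum_congr rfl
    intro i hi
    have hi47 : i < 47 := Finset.mem_range.1 hi
    rw [D45_h i hi]
    have hh : D47.h i = i := rfl
    rw [hh]
    unfold fA fB Nl
    have hC : D45.C = 846 := rfl
    have hC' : D47.C = 126 := rfl
    rw [hC, hC', Nat.cast_sub hl]
    have e1 : (l : ℤ) - ((360 + i : ℕ) : ℤ) * n = ((l : ℤ) - ((360 * n : ℕ) : ℤ)) - i * n := by
      push_cast; ring
    have e2 : (((846 : ℕ) : ℤ) - ((360 + i : ℕ) : ℤ)) * n - l =
        (((126 : ℕ) : ℤ) - i) * n - ((l : ℤ) - ((360 * n : ℕ) : ℤ)) := by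
      push_cast; ring
    have e3 : 846 - 2 * (360 + i) = 126 - 2 * i := by omega
    rw [e1, e2, e3]
  rw [hP]
  linarith

theorem poles_ge {n l : ℕ} (hl : l ∈ poles D45 n) : 360 * n ≤ l := (Finset.mem_Icc.1 hl).1

theorem not_dvd_mod {n p : ℕ} (hp : p.Prime) (hpn : ¬ p ∣ n) (h126 : 126 < p) :
    ∀ k, 0 < k → k ≤ 126 → (k * (n % p)) % p ≠ 0 := by
  intro k hk0 hk h0
  have hd : p ∣ k * (n % p) := Nat.dvd_of_mod_eq_zero h0
  rcases (Nat.Prime.dvd_mul hp).1 hd with h3 | h3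
  · have := Nat.le_of_dvd hk0 h3
    omega
  · rw [Nat.dvd_mod_iff dvd_rfl] at h3
    exact hpn h3

/-- the crude bound -/
theorem ordV_le_47 {n l p : ℕ} (hp : p.Prime) (hpn : ¬ p ∣ n) (h126 : 126 < p)
    (hl : l ∈ poles D45 n) : ord D45 n l - V D45 n l p ≤ 47 := by
  refine (D45_ordV_le n l p hp.pos (poles_ge hl)).trans ?_
  have hk := not_dvd_mod hp hpn h126
  have hS : Same D47.C (n % p) p (n % p) p := fun k h1 h2 => ⟨rfl, hk k h1 h2, hk k h1 h2⟩
  obtain ⟨o, -, H⟩ := key L47 (l - 360 * n) hp.pos hp.pos hS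
  rw [ord_sub_V_eq L47 H]
  exact (arcSum_le _ _ _ _ _ _).trans (le_of_eq rfl)

/-- a cell of the periodic table -/
theorem ordV_le_cell {e : ℕ × ℕ × ℕ × ℕ × ℕ} (he : okP e = true) {n l p : ℕ} (hp : p.Prime)
    (hpn : ¬ p ∣ n) (h126 : 126 < p) (h1 : e.1 * p ≤ (n % p) * e.2.1)
    (h2 : (n % p) * e.2.2.2.1 < e.2.2.1 * p) (hl : l ∈ poles D45 n) :
    ord D45 n l - V D45 n l p ≤ (e.2.2.2.2 : ℤ) := by
  rcases le_or_gt 47 e.2.2.2.2 with h47 | h47
  · exact (ordV_le_47 hp hpn h126 hl).trans (by exact_mod_cast h47)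
  · obtain ⟨hs, harc⟩ := okP_iff he h47
    have hk := not_dvd_mod hp hpn h126
    obtain ⟨hS, hb⟩ := same_of hs h1 h2 hk
    refine (D45_ordV_le n l p hp.pos (poles_ge hl)).trans ?_
    obtain ⟨o, -, H⟩ := key L47 (l - 360 * n) hp.pos hb hS
    rw [ord_sub_V_eq L47 H]
    exact harc _ (Nat.mod_lt _ hb)

theorem bnd_le_ordV (n l p : ℕ) : bnd D45 n l p ≤ ord D45 n l - V D45 n l p := by
  have hk : ((D45.k : ℕ) : ℤ) = 0 := rfl
  unfold bnd
  rw [hk]
  split_ifs <;> omega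

theorem bndR_le_ordV (n l p : ℕ) : bndR D45 n l p ≤ ord D45 n l - V D45 n l p - 3 := by
  unfold bndR
  split_ifs <;> omega

end Pool.Agent.OddZetaL
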