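import Mathlib
import Pool.Agent.OddZetaG.Crit

/-!
Abstract linear independence criterion: two consecutive small linear forms.
Seat: helper8.
-/

open Finset

namespace Pool.Agent.OddZetaL

open Pool.Agent.OddZetaG

/-- the primes for which the fine bounds are used -/
def good (C n p : ℕ) : Prop := ¬ p ∣ n ∧ ¬ p ∣ (n + 1) ∧ C * (n + 1) < p ^ 2

instance (C n p : ℕ) : Decidable (good C n p) := by unfold good; infer_instance

/-- exponent of `p` in the denominator -/
def eexp2 (C E : ℕ) (d : ℕ → ℕ → ℕ) (n p : ℕ) : ℕ :=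
  if good C n p then d n p else 2 * kexp C E (n + 1) p

/-- the denominator -/
def Dn2 (C E : ℕ) (d : ℕ → ℕ → ℕ) (n : ℕ) : ℕ := ∏ p ∈ Ps C (n + 1), p ^ eexp2 C E d n p

theorem Dn2_pos (C E : ℕ) (d : ℕ → ℕ → ℕ) (n : ℕ) : 0 < Dn2 C E d n := by
  unfold Dn2
  apply Finset.prod_pos
  intro p hp
  simp only [Ps, Finset.mem_filter] at hp
  exact pow_pos hp.2.pos _

theorem padicNorm_Dn2 (C E : ℕ) (d : ℕ → ℕ → ℕ) (n p : ℕ) [Fact p.Prime] (hp : p ∈ Ps C (n + 1)) :
    padicNorm p (Dn2 C E d n : ℚ) ≤ (p : ℚ) ^ (-(eexp2 C E d n p : ℤ)) := by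
  have h : p ^ eexp2 C E d n p ∣ Dn2 C E d n :=
    Finset.dvd_prod_of_mem (fun q => q ^ eexp2 C E d n q) hp
  have h2 : ((p ^ eexp2 C E d n p : ℕ) : ℤ) ∣ (Dn2 C E d n : ℤ) := by exact_mod_cast h
  have := (padicNorm.dvd_iff_norm_le (p := p)).1 h2
  exact_mod_cast this

/-- few prime divisors of `m` whose square exceeds `N`, when `m < N ^ 2`, `N ≥ 2` -/
theorem card_big_primes (N m : ℕ) (hN : 2 ≤ N) (hm0 : 0 < m) (hm : m < N ^ 2) (s : Finset ℕ)
    (hs : ∀ p ∈ s, p.Prime ∧ p ∣ m ∧ N < p ^ 2) : s.card ≤ 3 := by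
  by_contra hcon
  push Not at hcon
  have h1 : (∏ p ∈ s, p) ∣ m :=
    Finset.prod_primes_dvd m (fun p hp => (hs p hp).1.prime) (fun p hp => (hs p hp).2.1)
  have h2 : ∏ p ∈ s, p ≤ m := Nat.le_of_dvd hm0 h1
  have h3 : N ^ s.card ≤ (∏ p ∈ s, p) ^ 2 := by
    rw [← Finset.prod_pow, ← Finset.prod_const]
    exact Finset.prod_le_prod' (fun p hp => (hs p hp).2.2.le)
  have h4 : N ^ 4 ≤ N ^ s.card := Nat.pow_le_pow_right (by omega) hcon
  have h5 : (∏ p ∈ s, p) ^ 2 < (N ^ 2) ^ 2 := Nat.pow_lt_pow_left (by omega) (by norm_num)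
  rw [← pow_mul] at h5
  norm_num at h5
  omega

theorem log_Dn2_le (C E : ℕ) (hC : 0 < C) (d : ℕ → ℕ → ℕ) (n : ℕ) (hn : 0 < n) {be : ℝ}
    (hd : ∑ p ∈ (Finset.Icc 1 (C * (n + 1))).filter (fun p => p.Prime),
      (d n p : ℝ) * Real.log p ≤ be * n) :
    Real.log (Dn2 C E d n) ≤ be * n +
      ((Nat.sqrt (C * (n + 1)) : ℝ) + 3) * (4 * E * Real.log (C * (n + 1))) := by
  have h1 : Real.log (Dn2 C E d n) = ∑ p ∈ Ps C (n + 1), (eexp2 C E d n p : ℝ) * Real.log p := by
    unfold Dn2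
    push_cast
    rw [Real.log_prod]
    · apply Finset.sum_congr rfl
      intro p _
      rw [Real.log_pow]
    · intro p hp
      simp only [Ps, Finset.mem_filter] at hp
      have : (0 : ℝ) < p := by exact_mod_cast hp.2.pos
      positivity
  rw [h1, ← Finset.sum_filter_add_sum_filter_not (Ps C (n + 1)) (fun p => good C n p)]
  refine add_le_add ?_ ?_
  · refine le_trans ?_ hd
    have hset : (Ps C (n + 1)).filter (fun p => good C n p) ⊆
        (Finset.Icc 1 (C * (n + 1))).filter (fun p => p.Prime) := by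
      unfold Ps
      exact Finset.filter_subset _ _
    refine le_trans (le_of_eq (Finset.sum_congr rfl ?_))
      (Finset.sum_le_sum_of_subset_of_nonneg hset (fun p _ _ => ?_))
    · intro p hp
      simp only [Finset.mem_filter] at hp
      rw [eexp2, if_pos hp.2]
    · exact mul_nonneg (Nat.cast_nonneg _) (Real.log_natCast_nonneg p)
  · have hlog : 0 ≤ Real.log (C * (n + 1)) := by
      apply Real.log_nonneg
      have : (1 : ℝ) ≤ n := by exact_mod_cast hn
      have hCr : (1 : ℝ) ≤ C := by exact_mod_cast hC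
      nlinarith
    calc ∑ p ∈ (Ps C (n + 1)).filter (fun p => ¬ good C n p), (eexp2 C E d n p : ℝ) * Real.log p
        ≤ ∑ p ∈ (Ps C (n + 1)).filter (fun p => ¬ good C n p), 4 * E * Real.log (C * (n + 1)) := by
          apply Finset.sum_le_sum
          intro p hp
          simp only [Finset.mem_filter, Ps, Finset.mem_Icc] at hp
          rw [eexp2, if_neg hp.2]
          have := kexp_log C E (n + 1) p hC (by omega) hp.1.2.one_lt hp.1.1.2
          push_cast at this ⊢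
          nlinarith
      _ = (((Ps C (n + 1)).filter (fun p => ¬ good C n p)).card : ℝ) *
            (4 * E * Real.log (C * (n + 1))) := by
          rw [Finset.sum_const, nsmul_eq_mul]
      _ ≤ ((Nat.sqrt (C * (n + 1)) : ℝ) + 3) * (4 * E * Real.log (C * (n + 1))) := by
          apply mul_le_mul_of_nonneg_right _ (by positivity)
          have hsub : (Ps C (n + 1)).filter (fun p => ¬ good C n p) ⊆
              (Finset.Icc 1 (Nat.sqrt (C * (n + 1)))) ∪
              (Ps C (n + 1)).filter (fun p => p ∣ n * (n + 1) ∧ C * (n + 1) < p ^ 2) := by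
            intro p hp
            simp only [Finset.mem_filter, Ps, Finset.mem_Icc, Finset.mem_union] at hp ⊢
            by_cases h2 : C * (n + 1) < p ^ 2
            · right
              refine ⟨hp.1, ?_, h2⟩
              have h3 := hp.2
              unfold good at h3
              by_contra hcon
              apply h3
              refine ⟨fun h => hcon (Dvd.dvd.mul_right h _), fun h => hcon (Dvd.dvd.mul_left h _), h2⟩
            · left
              refine ⟨hp.1.1.1, ?_⟩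
              rw [Nat.le_sqrt]
              nlinarith
          have hc := (Finset.card_le_card hsub).trans (Finset.card_union_le _ _)
          rw [Nat.card_Icc] at hc
          have hc2 : ((Ps C (n + 1)).filter (fun p => p ∣ n * (n + 1) ∧ C * (n + 1) < p ^ 2)).card ≤ 3 := by
            apply card_big_primes (n + 1) (n * (n + 1)) (by omega) (by positivity) (by nlinarith)
            intro p hp
            simp only [Finset.mem_filter, Ps, Finset.mem_Icc] at hp
            refine ⟨hp.1.2, hp.2.1, lt_of_le_of_lt ?_ hp.2.2⟩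
            exact Nat.le_mul_of_pos_left _ hC
          have hc3 : ((Ps C (n + 1)).filter (fun p => ¬ good C n p)).card
              ≤ Nat.sqrt (C * (n + 1)) + 3 := by omega
          exact_mod_cast hc3

/-- the error terms are eventually small -/
theorem eventually_small2 (C : ℕ) (hC : 0 < C) (E : ℕ) (c : ℝ) {del : ℝ} (hdel : 0 < del) :
    ∃ N : ℕ, ∀ n ≥ N,
    c + ((Nat.sqrt (C * (n + 1)) : ℝ) + 3) * (4 * E * Real.log (C * (n + 1))) < del * n := by
  obtain ⟨N, hN⟩ := eventually_small C hC (6 * E) c (half_pos hdel)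
  refine ⟨N + 1, fun n hn => ?_⟩
  have h1 := hN (n + 1) (by omega)
  have hn1 : (1 : ℝ) ≤ n := by exact_mod_cast (by omega : 1 ≤ n)
  have hCr : (1 : ℝ) ≤ C := by exact_mod_cast hC
  push_cast at h1
  have hlog : 0 ≤ Real.log (C * ((n : ℝ) + 1)) := Real.log_nonneg (by nlinarith)
  have hE : (0 : ℝ) ≤ E := Nat.cast_nonneg E
  have hs : (0 : ℝ) ≤ (Nat.sqrt (C * (n + 1)) : ℝ) := Nat.cast_nonneg _
  have h2 : ((Nat.sqrt (C * (n + 1)) : ℝ) + 3) * (4 * E * Real.log (C * (n + 1)))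
      ≤ ((Nat.sqrt (C * (n + 1)) : ℝ) + 1) * (2 * (6 * E) * Real.log (C * (n + 1))) := by
    have : 0 ≤ (E : ℝ) * Real.log (C * ((n : ℝ) + 1)) := mul_nonneg hE hlog
    nlinarith [mul_nonneg this hs]
  have h3 : del / 2 * (n + 1) ≤ del * n := by nlinarith
  linarith

/-- integrality -/
theorem int_of (C E : ℕ) (d : ℕ → ℕ → ℕ) (n : ℕ) (y : ℚ)
    (h1 : ∀ (p : ℕ) [Fact p.Prime], p ≤ C * (n + 1) → padicNorm p y ≤ (p : ℚ) ^ eexp2 C E d n p)
    (h2 : ∀ (p : ℕ) [Fact p.Prime], C * (n + 1) < p → padicNorm p y ≤ 1) :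
    ∃ z : ℤ, (Dn2 C E d n : ℚ) * y = z := by
  apply exists_int_of_padicNorm_le_one
  intro p hp
  have hpf : Fact p.Prime := ⟨hp⟩
  rw [padicNorm.mul]
  have hxn : 0 ≤ padicNorm p y := padicNorm.nonneg _
  by_cases hpl : p ≤ C * (n + 1)
  · have hmem : p ∈ Ps C (n + 1) := by
      simp only [Ps, Finset.mem_filter, Finset.mem_Icc]
      exact ⟨⟨hp.pos, hpl⟩, hp⟩
    have h3 := padicNorm_Dn2 C E d n p hmem
    have h4 : padicNorm p y ≤ (p : ℚ) ^ (eexp2 C E d n p : ℤ) := by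
      rw [zpow_natCast]
      exact h1 p hpl
    have hp0 : (0 : ℚ) < p := by exact_mod_cast hp.pos
    calc padicNorm p (Dn2 C E d n) * padicNorm p y
        ≤ (p : ℚ) ^ (-(eexp2 C E d n p : ℤ)) * (p : ℚ) ^ (eexp2 C E d n p : ℤ) :=
          mul_le_mul h3 h4 hxn (by positivity)
      _ = 1 := by rw [← zpow_add₀ hp0.ne']; simp
  · have h3 : padicNorm p (Dn2 C E d n : ℚ) ≤ 1 := padicNorm.of_nat (p := p) (Dn2 C E d n)
    have h4 := h2 p (by omega)
    have h5 : 0 ≤ padicNorm p (Dn2 C E d n : ℚ) := padicNorm.nonneg _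
    nlinarith

/-- two consecutive small linear forms with rational coefficients in two numbers -/
theorem two_forms (C E : ℕ) (hC : 0 < C) (d : ℕ → ℕ → ℕ) (A B : ℕ → ℚ) (S : ℕ → ℝ) (x : ℝ)
    (hSeq : ∀ n, 0 < n → S n = (A n : ℝ) + (B n : ℝ) * x)
    (hpos : ∀ n, 0 < n → 0 < S n) {al bt be Y : ℝ} (hab : be + bt < al) (hbt : 0 ≤ bt) (hY : 0 < Y)
    (N : ℕ)
    (hS : ∀ n ≥ N, S n ≤ Y * Real.exp (-al * n))
    (hr : ∀ n ≥ N, |(B n : ℝ)| ≤ Y * Real.exp (bt * n))
    (hbe : ∀ n ≥ N, ∑ p ∈ (Finset.Icc 1 (C * (n + 1))).filter (fun p => p.Prime),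
      (d n p : ℝ) * Real.log p ≤ be * n)
    (hA1 : ∀ n ≥ N, ∀ (p : ℕ) [Fact p.Prime], p ≤ C * (n + 1) →
      padicNorm p (A n) ≤ (p : ℚ) ^ eexp2 C E d n p)
    (hA2 : ∀ n ≥ N, ∀ (p : ℕ) [Fact p.Prime], C * (n + 1) < p → padicNorm p (A n) ≤ 1)
    (hB1 : ∀ n ≥ N, ∀ (p : ℕ) [Fact p.Prime], p ≤ C * (n + 1) →
      padicNorm p (B n) ≤ (p : ℚ) ^ eexp2 C E d n p)
    (hB2 : ∀ n ≥ N, ∀ (p : ℕ) [Fact p.Prime], C * (n + 1) < p → padicNorm p (B n) ≤ 1)
    (hX1 : ∀ n ≥ N, ∀ (p : ℕ) [Fact p.Prime], p ≤ C * (n + 1) →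
      padicNorm p (A n * B (n + 1) - A (n + 1) * B n) ≤ (p : ℚ) ^ eexp2 C E d n p)
    (hX2 : ∀ n ≥ N, ∀ (p : ℕ) [Fact p.Prime], C * (n + 1) < p →
      padicNorm p (A n * B (n + 1) - A (n + 1) * B n) ≤ 1) : False := by
  have hbe0 : 0 ≤ be := by
    have h1 := hbe (N + 1) (by omega)
    have h2 : 0 ≤ ∑ p ∈ (Finset.Icc 1 (C * (N + 1 + 1))).filter (fun p => p.Prime),
        (d (N + 1) p : ℝ) * Real.log p :=
      Finset.sum_nonneg (fun p _ => mul_nonneg (Nat.cast_nonneg _) (Real.log_natCast_nonneg p))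
    have h3 : (0 : ℝ) < ((N + 1 : ℕ) : ℝ) := by positivity
    by_contra hcon
    push Not at hcon
    have := mul_neg_of_neg_of_pos hcon h3
    linarith
  have hal : 0 < al := by linarith
  -- determinants vanish
  obtain ⟨N1, hN1⟩ := eventually_small2 C hC E (Real.log (2 * Y ^ 2 * Real.exp bt)) (del := al - (be + bt))
    (by linarith)
  have hX0 : ∀ n ≥ N + N1 + 1, A n * B (n + 1) - A (n + 1) * B n = 0 := by
    intro n hn
    have hn0 : 0 < n := by omega
    obtain ⟨z, hz⟩ := int_of C E d n _ (hX1 n (by omega)) (hX2 n (by omega))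
    have hDpos : (0 : ℝ) < Dn2 C E d n := by exact_mod_cast Dn2_pos C E d n
    have e1 : ((A n * B (n + 1) - A (n + 1) * B n : ℚ) : ℝ) = S n * B (n + 1) - S (n + 1) * B n := by
      push_cast
      rw [hSeq n hn0, hSeq (n + 1) (by omega)]
      ring
    have h1 : |S n * B (n + 1) - S (n + 1) * B n| ≤ 2 * Y ^ 2 * Real.exp bt * Real.exp (-(al - bt) * n) := by
      have a1 := hS n (by omega)
      have a2 := hS (n + 1) (by omega)
      have b1 := hr n (by omega)
      have b2 := hr (n + 1) (by omega)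
      have p1 := hpos n hn0
      have p2 := hpos (n + 1) (by omega)
      have c1 : Real.exp (-al * ((n + 1 : ℕ) : ℝ)) ≤ Real.exp (-al * n) := by
        apply Real.exp_le_exp.2
        push_cast
        nlinarith
      have c2 : Real.exp (bt * ((n + 1 : ℕ) : ℝ)) = Real.exp bt * Real.exp (bt * n) := by
        rw [← Real.exp_add]; congr 1; push_cast; ring
      have c3 : Real.exp (bt * n) ≤ Real.exp bt * Real.exp (bt * n) := by
        have : 1 ≤ Real.exp bt := Real.one_le_exp hbt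
        nlinarith [Real.exp_pos (bt * n)]
      have c4 : Real.exp (-al * n) * Real.exp (bt * n) = Real.exp (-(al - bt) * n) := by
        rw [← Real.exp_add]; congr 1; ring
      calc |S n * B (n + 1) - S (n + 1) * B n| ≤ |S n * B (n + 1)| + |S (n + 1) * B n| := abs_sub _ _
        _ = S n * |(B (n + 1) : ℝ)| + S (n + 1) * |(B n : ℝ)| := by
            rw [abs_mul, abs_mul, abs_of_pos p1, abs_of_pos p2]
        _ ≤ (Y * Real.exp (-al * n)) * (Y * (Real.exp bt * Real.exp (bt * n))) +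
            (Y * Real.exp (-al * n)) * (Y * (Real.exp bt * Real.exp (bt * n))) := by
            apply add_le_add
            · rw [← c2]
              exact mul_le_mul a1 b2 (abs_nonneg _) (by positivity)
            · apply mul_le_mul (a2.trans (mul_le_mul_of_nonneg_left c1 hY.le))
                (b1.trans (mul_le_mul_of_nonneg_left c3 hY.le)) (abs_nonneg _) (by positivity)
        _ = 2 * Y ^ 2 * Real.exp bt * (Real.exp (-al * n) * Real.exp (bt * n)) := by ring
        _ = _ := by rw [c4]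
    have hsize : |(z : ℝ)| < 1 := by
      have e2 : (z : ℝ) = Dn2 C E d n * (S n * B (n + 1) - S (n + 1) * B n) := by
        rw [← e1]; exact_mod_cast hz.symm
      rw [e2, abs_mul, abs_of_pos hDpos]
      have hD := log_Dn2_le C E hC d n hn0 (hbe n (by omega))
      have hsm := hN1 n (by omega)
      have hDe : (Dn2 C E d n : ℝ) = Real.exp (Real.log (Dn2 C E d n)) := (Real.exp_log hDpos).symm
      have hKp : 0 < 2 * Y ^ 2 * Real.exp bt := by positivity
      have hKe : 2 * Y ^ 2 * Real.exp bt = Real.exp (Real.log (2 * Y ^ 2 * Real.exp bt)) :=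
        (Real.exp_log hKp).symm
      calc (Dn2 C E d n : ℝ) * |S n * B (n + 1) - S (n + 1) * B n|
          ≤ Real.exp (Real.log (Dn2 C E d n)) *
            (Real.exp (Real.log (2 * Y ^ 2 * Real.exp bt)) * Real.exp (-(al - bt) * n)) := by
            rw [← hDe, ← hKe]
            exact mul_le_mul_of_nonneg_left h1 hDpos.le
        _ = Real.exp (Real.log (Dn2 C E d n) + (Real.log (2 * Y ^ 2 * Real.exp bt) + -(al - bt) * n)) := by
            rw [Real.exp_add, Real.exp_add]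
        _ < 1 := by
            rw [Real.exp_lt_one_iff]
            linarith
    have hz0 : z = 0 := by
      have : |z| < 1 := by exact_mod_cast hsize
      exact Int.abs_lt_one_iff.1 this
    rw [hz0] at hz
    have hD0 : (Dn2 C E d n : ℚ) ≠ 0 := by exact_mod_cast (Dn2_pos C E d n).ne'
    simpa [hD0] using hz
  -- all forms are proportional
  set N0 := N + N1 + 1 with hN0
  have hne : ∀ n, 0 < n → ¬ (A n = 0 ∧ B n = 0) := by
    rintro n hn ⟨h1, h2⟩
    have h3 := hpos n hn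
    rw [hSeq n hn, h1, h2] at h3
    simp at h3
  have hpar : ∀ n ≥ N0, ∃ c : ℚ, A n = c * A N0 ∧ B n = c * B N0 := by
    intro n hn
    induction n, hn using Nat.le_induction with
    | base => exact ⟨1, by ring, by ring⟩
    | succ n hn ih =>
      obtain ⟨c, h1, h2⟩ := ih
      have hc : c ≠ 0 := by
        rintro rfl
        exact hne n (by omega) ⟨by rw [h1]; ring, by rw [h2]; ring⟩
      have h3 := hX0 n hn
      rw [h1, h2] at h3
      have h4 : A N0 * B (n + 1) = A (n + 1) * B N0 := by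
        have : c * (A N0 * B (n + 1) - A (n + 1) * B N0) = 0 := by linarith
        rcases mul_eq_zero.1 this with h | h
        · exact absurd h hc
        · linarith
      by_cases ha : A N0 = 0
      · have hb : B N0 ≠ 0 := fun h => hne N0 (by omega) ⟨ha, h⟩
        refine ⟨B (n + 1) / B N0, ?_, by field_simp⟩
        rw [ha, zero_mul] at h4
        rcases mul_eq_zero.1 h4.symm with h | h
        · rw [h, ha]; ring
        · exact absurd h hb
      · refine ⟨A (n + 1) / A N0, by field_simp, ?_⟩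
        field_simp
        linarith
  -- the final contradiction
  have hw : (A N0 : ℝ) + B N0 * x ≠ 0 := by
    have := hpos N0 (by omega)
    rw [hSeq N0 (by omega)] at this
    exact this.ne'
  set w : ℝ := (A N0 : ℝ) + B N0 * x with hwdef
  have hwp : 0 < |w| := abs_pos.2 hw
  set M : ℝ := (|(A N0 : ℝ)| + |(B N0 : ℝ)| + 1) / |w| * Y with hM
  have hMp : 0 < M := by positivity
  obtain ⟨N2, hN2⟩ := eventually_small2 C hC E (Real.log M) (del := al - be) (by linarith)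
  set n := N0 + N2 + 1 with hn
  have hn0 : 0 < n := by omega
  obtain ⟨c, hcA, hcB⟩ := hpar n (by omega)
  have hDpos : (0 : ℝ) < Dn2 C E d n := by exact_mod_cast Dn2_pos C E d n
  have hcS : S n = c * w := by
    rw [hSeq n hn0, hcA, hcB, hwdef]; push_cast; ring
  have hcabs : |(c : ℝ)| ≤ Y * Real.exp (-al * n) / |w| := by
    rw [le_div_iff₀ hwp, ← abs_mul, ← hcS, abs_of_pos (hpos n hn0)]
    exact hS n (by omega)
  have hsmall : ∀ y : ℚ, |(y : ℝ)| ≤ |(A N0 : ℝ)| + |(B N0 : ℝ)| →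
      (∃ z : ℤ, (Dn2 C E d n : ℚ) * (c * y) = z) → c * y = 0 := by
    rintro y hy ⟨z, hz⟩
    have hsize : |(z : ℝ)| < 1 := by
      have e2 : (z : ℝ) = Dn2 C E d n * (c * y) := by exact_mod_cast hz.symm
      rw [e2, abs_mul, abs_of_pos hDpos, abs_mul]
      have hD := log_Dn2_le C E hC d n hn0 (hbe n (by omega))
      have hsm := hN2 n (by omega)
      have hDe : (Dn2 C E d n : ℝ) = Real.exp (Real.log (Dn2 C E d n)) := (Real.exp_log hDpos).symm
      have hMe : M = Real.exp (Real.log M) := (Real.exp_log hMp).symm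
      have h5 : |(c : ℝ)| * |(y : ℝ)| ≤ M * Real.exp (-al * n) := by
        calc |(c : ℝ)| * |(y : ℝ)| ≤ (Y * Real.exp (-al * n) / |w|) * (|(A N0 : ℝ)| + |(B N0 : ℝ)| + 1) :=
              mul_le_mul hcabs (by linarith) (abs_nonneg _) (by positivity)
          _ = M * Real.exp (-al * n) := by rw [hM]; ring
      calc (Dn2 C E d n : ℝ) * (|(c : ℝ)| * |(y : ℝ)|)
          ≤ Real.exp (Real.log (Dn2 C E d n)) * (Real.exp (Real.log M) * Real.exp (-al * n)) := by
            rw [← hDe, ← hMe]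
            exact mul_le_mul_of_nonneg_left h5 hDpos.le
        _ = Real.exp (Real.log (Dn2 C E d n) + (Real.log M + -al * n)) := by
            rw [Real.exp_add, Real.exp_add]
        _ < 1 := by
            rw [Real.exp_lt_one_iff]
            linarith
    have hz0 : z = 0 := by
      have : |z| < 1 := by exact_mod_cast hsize
      exact Int.abs_lt_one_iff.1 this
    rw [hz0] at hz
    have hD0 : (Dn2 C E d n : ℚ) ≠ 0 := by exact_mod_cast (Dn2_pos C E d n).ne'
    simpa [hD0] using hz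
  have hA0 : A n = 0 := by
    rw [hcA]
    apply hsmall
    · linarith [abs_nonneg (B N0 : ℝ)]
    · rw [← hcA]
      exact int_of C E d n _ (hA1 n (by omega)) (hA2 n (by omega))
  have hB0 : B n = 0 := by
    rw [hcB]
    apply hsmall
    · linarith [abs_nonneg (A N0 : ℝ)]
    · rw [← hcB]
      exact int_of C E d n _ (hB1 n (by omega)) (hB2 n (by omega))
  exact hne n hn0 ⟨hA0, hB0⟩

/-- ultrametric bound for an integral combination -/
theorem norm_comb {ι : Type*} (p : ℕ) [Fact p.Prime] (J : Finset ι) (u : ι → ℚ) (m : ι → ℤ) {X : ℚ}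
    (hX : 0 ≤ X) (h : ∀ j ∈ J, padicNorm p (u j) ≤ X) :
    padicNorm p (∑ j ∈ J, u j * (m j : ℚ)) ≤ X := by
  apply padicNorm.sum_le' _ hX
  intro j hj
  rw [padicNorm.mul]
  have h1 := h j hj
  have h2 : padicNorm p (m j : ℚ) ≤ 1 := padicNorm.of_int (m j)
  have h3 : 0 ≤ padicNorm p (m j : ℚ) := padicNorm.nonneg _
  have h4 : 0 ≤ padicNorm p (u j) := padicNorm.nonneg _
  nlinarith

theorem norm_add_le' (p : ℕ) [Fact p.Prime] {a b X : ℚ} (ha : padicNorm p a ≤ X)
    (hb : padicNorm p b ≤ X) : padicNorm p (a + b) ≤ X :=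
  (padicNorm.nonarchimedean).trans (max_le ha hb)

theorem norm_sub_le' (p : ℕ) [Fact p.Prime] {a b X : ℚ} (ha : padicNorm p a ≤ X)
    (hb : padicNorm p b ≤ X) : padicNorm p (a - b) ≤ X :=
  (padicNorm.sub).trans (max_le ha hb)

/-- the abstract linear independence criterion -/
theorem crit2 {ι : Type*} (J : Finset ι) (C E : ℕ) (hC : 0 < C) (z : ι → ℝ)
    (r0 : ℕ → ℚ) (r : ℕ → ι → ℚ) (S : ℕ → ℝ)
    (hSeq : ∀ n, 0 < n → S n = (r0 n : ℝ) + ∑ j ∈ J, (r n j : ℝ) * z j)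
    (hpos : ∀ n, 0 < n → 0 < S n) {al bt be : ℝ} (hab : be + bt < al) (hbt : 0 ≤ bt)
    (hS : ∃ N : ℕ, ∀ n ≥ N, S n ≤ Real.exp (-al * n))
    (hr : ∃ N : ℕ, ∀ n ≥ N, ∀ j ∈ J, |(r n j : ℝ)| ≤ Real.exp (bt * n))
    (hcrude : ∀ (n p : ℕ) [Fact p.Prime], 0 < n → padicNorm p (r0 n) ≤ ((C : ℚ) * n) ^ E ∧
      ∀ j ∈ J, padicNorm p (r n j) ≤ ((C : ℚ) * n) ^ E)
    (hlarge : ∀ (n p : ℕ) [Fact p.Prime], 0 < n → C * n < p → padicNorm p (r0 n) ≤ 1 ∧
      ∀ j ∈ J, padicNorm p (r n j) ≤ 1)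
    (hmid : ∃ d : ℕ → ℕ → ℕ, ∃ N : ℕ, ∀ n ≥ N,
      (∀ (p : ℕ) [Fact p.Prime], ¬ p ∣ n → ¬ p ∣ (n + 1) → C * (n + 1) < p ^ 2 → p ≤ C * (n + 1) →
        ∃ e0 e1 : ℕ, e1 ≤ e0 ∧ e0 + e1 ≤ d n p ∧
          padicNorm p (r0 n) ≤ (p : ℚ) ^ e0 ∧ padicNorm p (r0 (n + 1)) ≤ (p : ℚ) ^ e0 ∧
          ∀ j ∈ J, padicNorm p (r n j) ≤ (p : ℚ) ^ e1 ∧ padicNorm p (r (n + 1) j) ≤ (p : ℚ) ^ e1) ∧
      ∑ p ∈ (Finset.Icc 1 (C * (n + 1))).filter (fun p => p.Prime), (d n p : ℝ) * Real.log p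
        ≤ be * n)
    (x : ℝ) : ∃ j ∈ J, ∀ a b : ℚ, z j ≠ a + b * x := by
  classical
  by_contra hcon
  push Not at hcon
  choose! a b hab' using hcon
  obtain ⟨Nd, hN⟩ := hmid.imp fun d h => h
  obtain ⟨Nm, hmid'⟩ := hN
  obtain ⟨Ns, hS'⟩ := hS
  obtain ⟨Nr, hr'⟩ := hr
  -- common denominator
  obtain ⟨q, hq0, ma, mb, hqa, hqb⟩ : ∃ q : ℕ, 0 < q ∧ ∃ ma mb : ι → ℤ,
      (∀ j ∈ J, (q : ℚ) * a j = ma j) ∧ ∀ j ∈ J, (q : ℚ) * b j = mb j := by
    refine ⟨∏ j ∈ J, ((a j).den * (b j).den), Finset.prod_pos fun j _ =>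
      Nat.mul_pos (a j).den_pos (b j).den_pos,
      fun j => ((∏ i ∈ J.erase j, ((a i).den * (b i).den) : ℕ) : ℤ) * ((b j).den : ℤ) * (a j).num,
      fun j => ((∏ i ∈ J.erase j, ((a i).den * (b i).den) : ℕ) : ℤ) * ((a j).den : ℤ) * (b j).num,
      fun j hj => ?_, fun j hj => ?_⟩
    · rw [← Finset.mul_prod_erase J _ hj]
      have := Rat.den_mul_eq_num (a j)
      push_cast
      rw [← this]
      ring
    · rw [← Finset.mul_prod_erase J _ hj]
      have := Rat.den_mul_eq_num (b j)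
      push_cast
      rw [← this]
      ring
  set A : ℕ → ℚ := fun n => r0 n * ((q : ℤ) : ℚ) + ∑ j ∈ J, r n j * (ma j : ℚ) with hA
  set B : ℕ → ℚ := fun n => ∑ j ∈ J, r n j * (mb j : ℚ) with hB
  have hq0' : (0 : ℝ) < q := by exact_mod_cast hq0
  have hq1 : (1 : ℝ) ≤ q := by exact_mod_cast hq0
  -- p-adic bounds of `A` and `B`
  have hAn : ∀ (n p : ℕ) [Fact p.Prime] (X Z : ℚ), 0 ≤ Z → Z ≤ X → padicNorm p (r0 n) ≤ X →
      (∀ j ∈ J, padicNorm p (r n j) ≤ Z) → padicNorm p (A n) ≤ X := by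
    intro n p _ X Z hZ hZX h0 h1
    apply norm_add_le'
    · rw [padicNorm.mul]
      have h2 : padicNorm p ((q : ℤ) : ℚ) ≤ 1 := padicNorm.of_int _
      have h3 : 0 ≤ padicNorm p ((q : ℤ) : ℚ) := padicNorm.nonneg _
      have h4 : 0 ≤ padicNorm p (r0 n) := padicNorm.nonneg _
      nlinarith
    · exact norm_comb p J _ _ (hZ.trans hZX) fun j hj => (h1 j hj).trans hZX
  have hBn : ∀ (n p : ℕ) [Fact p.Prime] (Z : ℚ), 0 ≤ Z →
      (∀ j ∈ J, padicNorm p (r n j) ≤ Z) → padicNorm p (B n) ≤ Z := by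
    intro n p _ Z hZ h1
    exact norm_comb p J _ _ hZ h1
  have hdet : ∀ (n p : ℕ) [Fact p.Prime] (X Z : ℚ), 0 ≤ X → 0 ≤ Z → padicNorm p (A n) ≤ X →
      padicNorm p (A (n + 1)) ≤ X → padicNorm p (B n) ≤ Z → padicNorm p (B (n + 1)) ≤ Z →
      padicNorm p (A n * B (n + 1) - A (n + 1) * B n) ≤ X * Z := by
    intro n p _ X Z hX hZ h1 h2 h3 h4
    apply norm_sub_le'
    · rw [padicNorm.mul]
      exact mul_le_mul h1 h4 (padicNorm.nonneg _) hX
    · rw [padicNorm.mul]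
      exact mul_le_mul h2 h3 (padicNorm.nonneg _) hX
  -- the two exponents for a prime `p ≤ C (n + 1)`
  have hloc : ∀ n ≥ Nm + 1, ∀ (p : ℕ) [Fact p.Prime], p ≤ C * (n + 1) →
      ∃ e0 e1 : ℕ, e0 + e1 ≤ eexp2 C E Nd n p ∧ padicNorm p (A n) ≤ (p : ℚ) ^ e0 ∧
        padicNorm p (A (n + 1)) ≤ (p : ℚ) ^ e0 ∧ padicNorm p (B n) ≤ (p : ℚ) ^ e1 ∧
        padicNorm p (B (n + 1)) ≤ (p : ℚ) ^ e1 := by
    intro n hn p hpf hp
    have hp1 : (1 : ℚ) ≤ p := by exact_mod_cast hpf.out.one_lt.le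
    have hp0 : (0 : ℚ) ≤ p := by linarith
    by_cases hg : good C n p
    · obtain ⟨e0, e1, he, hle, g0, g1, g2⟩ := (hmid' n (by omega)).1 p hg.1 hg.2.1 hg.2.2 hp
      have hZX : (p : ℚ) ^ e1 ≤ (p : ℚ) ^ e0 := pow_le_pow_right₀ hp1 he
      refine ⟨e0, e1, ?_, ?_, ?_, ?_, ?_⟩
      · rw [eexp2, if_pos hg]
        exact hle
      · exact hAn n p _ _ (pow_nonneg hp0 _) hZX g0 fun j hj => (g2 j hj).1
      · exact hAn (n + 1) p _ _ (pow_nonneg hp0 _) hZX g1 fun j hj => (g2 j hj).2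
      · exact hBn n p _ (pow_nonneg hp0 _) fun j hj => (g2 j hj).1
      · exact hBn (n + 1) p _ (pow_nonneg hp0 _) fun j hj => (g2 j hj).2
    · have hc1 : ((C : ℚ) * ((n + 1 : ℕ) : ℚ)) ^ E ≤ (p : ℚ) ^ kexp C E (n + 1) p :=
        crude_exp C E (n + 1) p hpf.out.one_lt
      have hc0 : ((C : ℚ) * (n : ℚ)) ^ E ≤ (p : ℚ) ^ kexp C E (n + 1) p := by
        refine le_trans ?_ hc1
        apply pow_le_pow_left₀ (by positivity)
        push_cast
        have : (0 : ℚ) ≤ C := Nat.cast_nonneg C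
        nlinarith
      obtain ⟨u0, u1⟩ := hcrude n p (by omega)
      obtain ⟨v0, v1⟩ := hcrude (n + 1) p (by omega)
      have hpk : (0 : ℚ) ≤ (p : ℚ) ^ kexp C E (n + 1) p := pow_nonneg hp0 _
      refine ⟨kexp C E (n + 1) p, kexp C E (n + 1) p, ?_, ?_, ?_, ?_, ?_⟩
      · rw [eexp2, if_neg hg]
        omega
      · exact hAn n p _ _ hpk le_rfl (u0.trans hc0) fun j hj => (u1 j hj).trans hc0
      · exact hAn (n + 1) p _ _ hpk le_rfl (v0.trans hc1) fun j hj => (v1 j hj).trans hc1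
      · exact hBn n p _ hpk fun j hj => (u1 j hj).trans hc0
      · exact hBn (n + 1) p _ hpk fun j hj => (v1 j hj).trans hc1
  have hlarge' : ∀ n > 0, ∀ (p : ℕ) [Fact p.Prime], C * n < p →
      padicNorm p (A n) ≤ 1 ∧ padicNorm p (B n) ≤ 1 := by
    intro n hn p hpf hp
    obtain ⟨u0, u1⟩ := hlarge n p hn hp
    exact ⟨hAn n p 1 1 zero_le_one le_rfl u0 u1, hBn n p 1 zero_le_one u1⟩
  have hpow : ∀ (p e f : ℕ) [Fact p.Prime], e ≤ f → (p : ℚ) ^ e ≤ (p : ℚ) ^ f := by
    intro p e f hpf h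
    have hp1 : (1 : ℚ) ≤ p := by exact_mod_cast hpf.out.one_lt.le
    exact pow_le_pow_right₀ hp1 h
  -- sizes
  set Y : ℝ := q + ∑ j ∈ J, |(mb j : ℝ)| with hYd
  have hYq : (q : ℝ) ≤ Y := by
    have : 0 ≤ ∑ j ∈ J, |(mb j : ℝ)| := Finset.sum_nonneg fun j _ => abs_nonneg _
    linarith
  have hY0 : 0 < Y := lt_of_lt_of_le hq0' hYq
  refine two_forms C E hC Nd A B (fun n => q * S n) x ?_ ?_ hab hbt hY0 (Nm + Ns + Nr + 1) ?_ ?_ ?_
    ?_ ?_ ?_ ?_ ?_ ?_
  · intro n hn
    show (q : ℝ) * S n = _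
    rw [hSeq n hn, hA, hB]
    push_cast
    rw [mul_add, Finset.mul_sum, Finset.sum_mul, add_assoc, ← Finset.sum_add_distrib]
    congr 1
    · ring
    · apply Finset.sum_congr rfl
      intro j hj
      have e1 : (q : ℝ) * (a j : ℝ) = (ma j : ℝ) := by exact_mod_cast hqa j hj
      have e2 : (q : ℝ) * (b j : ℝ) = (mb j : ℝ) := by exact_mod_cast hqb j hj
      rw [hab' j hj, ← e1, ← e2]
      ring
  · intro n hn
    exact mul_pos hq0' (hpos n hn)
  · intro n hn
    have h1 := hS' n (by omega)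
    have h2 := hpos n (by omega)
    exact mul_le_mul hYq h1 h2.le hY0.le
  · intro n hn
    have h1 := hr' n (by omega)
    rw [hB]
    push_cast
    calc |∑ j ∈ J, (r n j : ℝ) * (mb j : ℝ)| ≤ ∑ j ∈ J, |(r n j : ℝ) * (mb j : ℝ)| :=
          Finset.abs_sum_le_sum_abs _ _
      _ ≤ ∑ j ∈ J, Real.exp (bt * n) * |(mb j : ℝ)| := by
          apply Finset.sum_le_sum
          intro j hj
          rw [abs_mul]
          exact mul_le_mul_of_nonneg_right (h1 j hj) (abs_nonneg _)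
      _ = (∑ j ∈ J, |(mb j : ℝ)|) * Real.exp (bt * n) := by
          rw [Finset.sum_mul]
          exact Finset.sum_congr rfl fun j _ => mul_comm _ _
      _ ≤ Y * Real.exp (bt * n) := by
          apply mul_le_mul_of_nonneg_right _ (Real.exp_pos _).le
          linarith
  · intro n hn
    exact (hmid' n (by omega)).2
  · intro n hn p hpf hp
    obtain ⟨e0, e1, h1, h2, -, -, -⟩ := hloc n (by omega) p hp
    exact h2.trans (hpow p _ _ (by omega))
  · intro n hn p hpf hp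
    exact (hlarge' n (by omega) p (lt_of_le_of_lt (Nat.mul_le_mul_left C (Nat.le_succ n)) hp)).1
  · intro n hn p hpf hp
    obtain ⟨e0, e1, h1, -, -, h2, -⟩ := hloc n (by omega) p hp
    exact h2.trans (hpow p _ _ (by omega))
  · intro n hn p hpf hp
    exact (hlarge' n (by omega) p (lt_of_le_of_lt (Nat.mul_le_mul_left C (Nat.le_succ n)) hp)).2
  · intro n hn p hpf hp
    obtain ⟨e0, e1, h1, h2, h3, h4, h5⟩ := hloc n (by omega) p hp
    have hp0 : (0 : ℚ) ≤ p := Nat.cast_nonneg p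
    refine (hdet n p _ _ (pow_nonneg hp0 _) (pow_nonneg hp0 _) h2 h3 h4 h5).trans ?_
    rw [← pow_add]
    exact hpow p _ _ h1
  · intro n hn p hpf hp
    have g1 := hlarge' n (by omega) p (lt_of_le_of_lt (Nat.mul_le_mul_left C (Nat.le_succ n)) hp)
    have g2 := hlarge' (n + 1) (by omega) p hp
    have := hdet n p 1 1 zero_le_one zero_le_one g1.1 g2.1 g1.2 g2.2
    rwa [mul_one] at this

end Pool.Agent.OddZetaL
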