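import Pool.Agent.OddZetaL.Data

/-!
Module L5c: the primes for which a cell boundary lies between `n / p` and `(n + 1) / p` are
negligible.  Seat: helper96.
-/

set_option autoImplicit false

open Finset

namespace Pool.Agent.OddZetaL

theorem card_cross (S : Finset ℕ) (n a b : ℕ) (ha : 0 < a) :
    (S.filter fun p => n * b < a * p ∧ a * p ≤ (n + 1) * b).card ≤ b := by
  have h1 : (S.filter fun p => n * b < a * p ∧ a * p ≤ (n + 1) * b).card ≤
      (Finset.Ioc (n * b) ((n + 1) * b)).card := by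
    refine Finset.card_le_card_of_injOn (fun p => a * p) ?_ ?_
    · intro p hp
      have := (Finset.mem_filter.1 hp).2
      exact Finset.mem_coe.2 (Finset.mem_Ioc.2 this)
    · intro p _ q _ h
      exact Nat.eq_of_mul_eq_mul_left ha h
  rw [Nat.card_Ioc] at h1
  have : (n + 1) * b - n * b = b := by
    rw [Nat.add_mul, Nat.one_mul, Nat.add_sub_cancel_left]
  omega

theorem sum_cross_le (bd : List (ℕ × ℕ)) (hbd : ∀ e ∈ bd, 0 < e.1) (C m n : ℕ) :
    ∑ p ∈ (Finset.Icc 1 (C * (n + 1))).filter (fun p => p.Prime),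
      ((if ∃ e ∈ bd, n * e.2 < e.1 * p ∧ e.1 * p ≤ (n + 1) * e.2 then m else 0 : ℕ) : ℝ) *
        Real.log p ≤ ((bd.map fun e => e.2).sum : ℕ) * (m * Real.log (C * (n + 1) : ℕ)) := by
  set S := (Finset.Icc 1 (C * (n + 1))).filter (fun p => p.Prime) with hS
  have hlog : ∀ p ∈ S, 0 ≤ Real.log (p : ℝ) ∧ Real.log (p : ℝ) ≤ Real.log (C * (n + 1) : ℕ) := by
    intro p hp
    rw [hS, Finset.mem_filter, Finset.mem_Icc] at hp
    have h1 : (1 : ℝ) ≤ p := by exact_mod_cast hp.1.1
    refine ⟨Real.log_nonneg h1, Real.log_le_log (by linarith) ?_⟩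
    exact_mod_cast hp.1.2
  induction bd with
  | nil => simp
  | cons e bd ih =>
    have ih' := ih fun e he => hbd e (List.mem_cons_of_mem _ he)
    have hstep : ∀ p ∈ S,
        ((if ∃ x ∈ e :: bd, n * x.2 < x.1 * p ∧ x.1 * p ≤ (n + 1) * x.2 then m else 0 : ℕ) : ℝ) *
          Real.log p ≤
        (if n * e.2 < e.1 * p ∧ e.1 * p ≤ (n + 1) * e.2 then (m : ℝ) * Real.log (C * (n + 1) : ℕ) else 0) +
        ((if ∃ x ∈ bd, n * x.2 < x.1 * p ∧ x.1 * p ≤ (n + 1) * x.2 then m else 0 : ℕ) : ℝ) *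
          Real.log p := by
      intro p hp
      obtain ⟨h0, h1⟩ := hlog p hp
      have hm : (0 : ℝ) ≤ m := Nat.cast_nonneg m
      by_cases he : n * e.2 < e.1 * p ∧ e.1 * p ≤ (n + 1) * e.2
      · rw [if_pos ⟨e, List.mem_cons_self, he⟩, if_pos he]
        have : (0 : ℝ) ≤ ((if ∃ x ∈ bd, n * x.2 < x.1 * p ∧ x.1 * p ≤ (n + 1) * x.2 then m else 0 : ℕ) : ℝ) *
          Real.log p := by positivity
        have h2 := mul_le_mul_of_nonneg_left h1 hm
        linarith
      · rw [if_neg he, zero_add]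
        apply mul_le_mul_of_nonneg_right _ h0
        by_cases hx : ∃ x ∈ bd, n * x.2 < x.1 * p ∧ x.1 * p ≤ (n + 1) * x.2
        · obtain ⟨x, hx1, hx2⟩ := hx
          rw [if_pos ⟨x, List.mem_cons_of_mem _ hx1, hx2⟩, if_pos ⟨x, hx1, hx2⟩]
        · rw [if_neg, if_neg hx]
          rintro ⟨x, hx1, hx2⟩
          rcases List.mem_cons.1 hx1 with h | h
          · subst h
            exact he hx2
          · exact hx ⟨x, h, hx2⟩
    refine (Finset.sum_le_sum hstep).trans ?_
    rw [Finset.sum_add_distrib, ← Finset.sum_filter, Finset.sum_const, nsmul_eq_mul, List.map_cons,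
      List.sum_cons]
    have e0 : ((e.2 + (bd.map fun e => e.2).sum : ℕ) : ℝ) * (m * Real.log (C * (n + 1) : ℕ)) =
        (e.2 : ℝ) * (m * Real.log (C * (n + 1) : ℕ)) +
          ((bd.map fun e => e.2).sum : ℕ) * (m * Real.log (C * (n + 1) : ℕ)) := by
      rw [Nat.cast_add]
      exact add_mul _ _ _
    rw [e0]
    refine add_le_add ?_ ih'
    have h3 := card_cross S n e.1 e.2 (hbd e List.mem_cons_self)
    have h4 : 0 ≤ (m : ℝ) * Real.log (C * (n + 1) : ℕ) := by
      refine mul_nonneg (Nat.cast_nonneg m) ?_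
      rcases Nat.eq_zero_or_pos (C * (n + 1)) with h | h
      · rw [h]; simp
      · exact Real.log_nonneg (by exact_mod_cast h)
    exact mul_le_mul_of_nonneg_right (by exact_mod_cast h3) h4

/-- L5c -/
theorem sum_cross (bd : List (ℕ × ℕ)) (hbd : ∀ e ∈ bd, 0 < e.1) (C m : ℕ) {ε : ℝ} (hε : 0 < ε) :
    ∃ N : ℕ, ∀ n ≥ N, ∑ p ∈ (Finset.Icc 1 (C * (n + 1))).filter (fun p => p.Prime),
      ((if ∃ e ∈ bd, n * e.2 < e.1 * p ∧ e.1 * p ≤ (n + 1) * e.2 then m else 0 : ℕ) : ℝ) *
        Real.log p ≤ ε * n := by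
  set K : ℝ := ((bd.map fun e => e.2).sum : ℕ) * m with hK
  have hK0 : 0 ≤ K := by positivity
  -- `K log (C (n+1)) ≤ ε n` eventually
  have h1 := Real.isLittleO_log_id_atTop.comp_tendsto (tendsto_natCast_atTop_atTop (R := ℝ))
  have h2 : ∀ᶠ n : ℕ in Filter.atTop, K * Real.log n ≤ ε / 2 * n := by
    have h3 := h1.bound (c := ε / (2 * (K + 1))) (by positivity)
    filter_upwards [h3] with n hn
    simp only [Function.comp, id, Real.norm_eq_abs, Nat.abs_cast] at hn
    have h4 : Real.log n ≤ ε / (2 * (K + 1)) * n := (le_abs_self _).trans hn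
    have h5 : K * Real.log n ≤ K * (ε / (2 * (K + 1)) * n) := mul_le_mul_of_nonneg_left h4 hK0
    refine h5.trans ?_
    have h6 : K * (ε / (2 * (K + 1)) * n) = (K / (K + 1)) * (ε / 2 * n) := by
      field_simp
    rw [h6]
    have h7 : K / (K + 1) ≤ 1 := by
      rw [div_le_one (by positivity)]
      linarith
    have h8 : 0 ≤ ε / 2 * (n : ℝ) := by positivity
    nlinarith
  have h3 : ∀ᶠ n : ℕ in Filter.atTop, K * Real.log (2 * C) ≤ ε / 2 * n := by
    have := (tendsto_natCast_atTop_atTop (R := ℝ)).const_mul_atTop (show 0 < ε / 2 by positivity)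
    exact this.eventually_ge_atTop _
  obtain ⟨N, hN⟩ := Filter.eventually_atTop.1 (h2.and (h3.and (Filter.eventually_ge_atTop 1)))
  refine ⟨N, fun n hn => ?_⟩
  obtain ⟨a1, a2, a3⟩ := hN n hn
  refine (sum_cross_le bd hbd C m n).trans ?_
  rw [← mul_assoc, ← hK]
  have hn1 : (1 : ℝ) ≤ n := by exact_mod_cast a3
  rcases Nat.eq_zero_or_pos C with hC | hC
  · subst hC
    simp only [Nat.zero_mul, Nat.cast_zero, Real.log_zero, mul_zero]
    positivity
  · have hC1 : (1 : ℝ) ≤ C := by exact_mod_cast hC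
    have h4 : Real.log (C * (n + 1) : ℕ) ≤ Real.log (2 * C) + Real.log n := by
      rw [← Real.log_mul (by positivity) (by positivity)]
      apply Real.log_le_log (by positivity)
      push_cast
      nlinarith
    have h5 := mul_le_mul_of_nonneg_left h4 hK0
    have h6 : K * (Real.log (2 * C) + Real.log n) = K * Real.log (2 * C) + K * Real.log n :=
      mul_add _ _ _
    linarith

end Pool.Agent.OddZetaL
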