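import Pool.Agent.OddZetaL.Defs

/-!
The data of the linear independence theorem: `47` pole blocks `[(423 - δ) n, (423 + δ) n]`,
`17 ≤ δ ≤ 63`, and the zero block `[0, 846 n]`.  Seat: helper8.
-/

open Finset

namespace Pool.Agent.OddZetaL

open Pool.Agent.OddZetaG

/-- the data: indices `0, ..., 46` are the pole blocks `h = 360 + i`, index `47` is the zero block -/
def D45 : Dat where
  C := 846
  P := Finset.range 47
  M := {47}
  h := fun i => if i < 47 then 360 + i else 0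
  k := 0
  A := 46
  s := 360
  lo := 360

theorem D45_ok : OKL D45 where
  k0 := rfl
  cardM := rfl
  M0 := by decide
  cardP := by decide
  Aeven := by decide
  A4 := by decide
  spos := by decide
  s_mem := ⟨0, by decide, by decide⟩
  P_ge := by decide
  P_lt := by decide
  lo_eq := rfl
  deg := by decide

theorem D45_h (i : ℕ) (hi : i ∈ D45.P) : D45.h i = 360 + i := by
  have : i < 47 := Finset.mem_range.1 hi
  show (if i < 47 then 360 + i else 0) = 360 + i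
  rw [if_pos this]

theorem D45_Js : Js D45 = (Finset.Icc 3 46).filter (fun j => Odd j) := by
  rfl

/-- `e0`, `e1` bound the exponents of `p` for all `n / p` in `[a1 / b1, a2 / b2)` -/
def Good (a1 b1 a2 b2 e0 e1 : ℕ) : Prop :=
  ∀ n p l : ℕ, 0 < n → p.Prime → ¬ p ∣ n → 846 * n < p ^ 2 → a1 * p ≤ n * b1 → n * b2 < a2 * p →
    l ∈ poles D45 n → bnd D45 n l p ≤ e0 ∧ bndR D45 n l p ≤ e1

/-- check of a cell for `n / p < 1 / 63` -/
def okE (e : ℕ × ℕ × ℕ × ℕ × ℕ × ℕ) : Bool :=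
  Nat.blt 0 e.1 && (Nat.blt 0 e.2.1 && (Nat.blt 0 e.2.2.1 && (Nat.blt 0 e.2.2.2.1 && (
  cond (Nat.ble (126 * e.2.2.1) e.2.2.2.1)
    (Nat.ble ((846 * e.2.2.1 - 1) / e.2.2.2.1) e.2.2.2.2.1 &&
      Nat.ble ((846 * e.2.2.1 - 1) / e.2.2.2.1) e.2.2.2.2.2)
    (Nat.ble e.2.1 (126 * e.1) && (Nat.ble (63 * e.2.2.1) e.2.2.2.1 && (
      Nat.ble ((846 * e.2.2.1 - 1) / e.2.2.2.1 + (e.2.1 + 2 * e.1 - 1) / (2 * e.1))
        (64 + e.2.2.2.2.1) && (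
      Nat.ble ((846 * e.2.2.1 - 1) / e.2.2.2.1 + (e.2.1 + 2 * e.1 - 1) / (2 * e.1))
        (64 + e.2.2.2.2.2) && (
      Nat.ble 64 ((e.2.2.2.1 / e.2.2.1 + 1) / 2 + e.2.2.2.2.1 +
        cond (Nat.beq (846 * e.1 / e.2.1) ((846 * e.2.2.1 - 1) / e.2.2.2.1) &&
          (Nat.beq ((846 * e.1 / e.2.1) % 2) 1 &&
            Nat.ble ((846 * e.1 / e.2.1 - 1) * e.2.1) (720 * e.1))) 1 0) &&
      Nat.ble 64 ((e.2.2.2.1 / e.2.2.1 + 1) / 2 + e.2.2.2.2.2 + 3 +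
        cond (Nat.beq (846 * e.1 / e.2.1) ((846 * e.2.2.1 - 1) / e.2.2.2.1) &&
          (Nat.beq ((846 * e.1 / e.2.1) % 2) 1 &&
            Nat.ble ((846 * e.1 / e.2.1 - 1) * e.2.1) (720 * e.1))) 1 0)))))))))) 

/-- the cells for `1 / 846 ≤ n / p < 1 / 63` -/
def TE : List (ℕ × ℕ × ℕ × ℕ × ℕ × ℕ) :=
  [(1, 846, 1, 423, 1, 1), (1, 423, 1, 282, 2, 2), (1, 282, 2, 423, 3, 3),
   (2, 423, 5, 846, 4, 4), (5, 846, 1, 141, 5, 5), (1, 141, 1, 126, 6, 6),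
   (1, 126, 1, 124, 5, 5), (1, 124, 1, 122, 4, 4), (1, 122, 1, 121, 3, 3),
   (1, 121, 7, 846, 4, 3), (7, 846, 1, 120, 4, 4), (1, 120, 1, 119, 3, 3),
   (1, 119, 1, 118, 4, 3), (1, 118, 1, 117, 4, 2), (1, 117, 1, 115, 5, 2),
   (1, 115, 1, 113, 6, 3), (1, 113, 1, 111, 7, 4), (1, 111, 1, 109, 8, 5),
   (1, 109, 1, 107, 9, 6), (1, 107, 4, 423, 10, 7), (4, 423, 1, 105, 11, 8),
   (1, 105, 1, 103, 12, 9), (1, 103, 1, 101, 13, 10), (1, 101, 1, 99, 14, 11),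
   (1, 99, 1, 97, 15, 12), (1, 97, 1, 95, 16, 13), (1, 95, 1, 93, 17, 14),
   (1, 93, 1, 91, 18, 15), (1, 91, 1, 90, 19, 16), (1, 90, 1, 89, 18, 15),
   (1, 89, 1, 87, 19, 16), (1, 87, 1, 85, 20, 17), (1, 85, 5, 423, 21, 18),
   (5, 423, 1, 83, 22, 19), (1, 83, 1, 81, 23, 20), (1, 81, 1, 79, 24, 21),
   (1, 79, 1, 77, 25, 22), (1, 77, 1, 75, 26, 23), (1, 75, 1, 73, 27, 24),
   (1, 73, 1, 72, 28, 25), (1, 72, 1, 71, 27, 24), (1, 71, 2, 141, 28, 25),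
   (2, 141, 1, 69, 29, 26), (1, 69, 1, 67, 30, 27), (1, 67, 1, 65, 31, 28),
   (1, 65, 1, 63, 32, 29)]

theorem TE_ok : TE.all okE = true := by decide +kernel

end Pool.Agent.OddZetaL
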