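import Pool.Agent.OddZetaG.Defs

/-!
Definitions for the linear independence theorem: `k = 0`, one zero block `[0, C n]`,
`A + 1` pole blocks.  Seat: helper8.
-/

open Finset

namespace Pool.Agent.OddZetaL

open Pool.Agent.OddZetaG

/-- well-formed data (everything decidable): `k = 0`, one zero block `[0, C n]` -/
structure OKL (D : Dat) : Prop where
  k0 : D.k = 0
  cardM : D.M.card = 1
  M0 : ∀ i ∈ D.M, D.h i = 0
  cardP : D.P.card = D.A + 1
  Aeven : Even D.A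
  A4 : 4 ≤ D.A
  spos : 0 < D.s
  s_mem : ∃ i ∈ D.P, D.h i = D.s
  P_ge : ∀ i ∈ D.P, D.s ≤ D.h i
  P_lt : ∀ i ∈ D.P, 2 * D.h i < D.C
  lo_eq : D.lo = D.s
  deg : 2 * D.C ≤ ∑ i ∈ D.P, (D.C - 2 * D.h i)

variable (D : Dat)

/-- the rational function, as a real function -/
noncomputable def RR (n : ℕ) (t : ℝ) : ℝ :=
  (K D n : ℝ) * (2 * t + D.C * n) * (∏ i ∈ D.M, ∏ m ∈ blk D n (D.h i), (t + m)) /
    ∏ i ∈ D.P, ∏ m ∈ blk D n (D.h i), (t + m)

/-- the sum of the values at the positive integers -/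
noncomputable def SL (n : ℕ) : ℝ := ∑' t : ℕ, RR D n (t + 1)

/-- local exponent bound for the coefficients `ρ_j`, `j ≥ 3` -/
def bndR (n l p : ℕ) : ℤ :=
  if noP D n l p then min (ord D n l - V D n l p - 3) (- E0 D n p) else ord D n l - V D n l p - 3

/-- exponent of the size: `∑_h [(C-h) log (C-h) - h log h - (C-2h) log (C-2h)]` -/
noncomputable def sizeE : ℝ :=
  ∑ i ∈ D.P, (((D.C - D.h i : ℕ) : ℝ) * Real.log ((D.C - D.h i : ℕ) : ℝ)
    - (D.h i : ℝ) * Real.log (D.h i) - ((D.C - 2 * D.h i : ℕ) : ℝ) * Real.log ((D.C - 2 * D.h i : ℕ) : ℝ))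

/-- exponent of the growth of the coefficients -/
noncomputable def growE : ℝ :=
  (∑ i ∈ D.P, ((D.C - 2 * D.h i : ℕ) : ℝ)) * Real.log 2
    - ((D.C : ℝ) * Real.log D.C - (D.s : ℝ) * Real.log D.s
      - ((D.C - D.s : ℕ) : ℝ) * Real.log ((D.C - D.s : ℕ) : ℝ))

end Pool.Agent.OddZetaL
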