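import Mathlib

/-!
From linear independence over `ℚ + ℚ x` to the dimension.  Seat: helper8.
-/

namespace Pool.Agent.OddZetaL

open Module

theorem finrank_ge_three (Z : Set ℝ) (hZ : Z.Finite)
    (h : ∀ x : ℝ, ∃ y ∈ Z, ∀ a b : ℚ, y ≠ a + b * x) :
    3 ≤ finrank ℚ (Submodule.span ℚ (insert (1 : ℝ) Z)) := by
  by_contra hcon
  rw [not_le] at hcon
  set V := Submodule.span ℚ (insert (1 : ℝ) Z) with hV
  have hfin : FiniteDimensional ℚ V := FiniteDimensional.span_of_finite ℚ (hZ.insert 1)
  have h1 : (1 : ℝ) ∈ V := Submodule.subset_span (Set.mem_insert _ _)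
  obtain ⟨x, hx⟩ : ∃ x : ℝ, V ≤ Submodule.span ℚ {1, x} := by
    by_cases hall : V ≤ Submodule.span ℚ {(1 : ℝ)}
    · exact ⟨0, hall.trans (Submodule.span_mono (by simp))⟩
    · rw [SetLike.not_le_iff_exists] at hall
      obtain ⟨x, hxV, hx1⟩ := hall
      refine ⟨x, ?_⟩
      have hli : LinearIndependent ℚ ![(1 : ℝ), x] := by
        rw [LinearIndependent.pair_iff' one_ne_zero]
        intro a ha
        apply hx1
        rw [Submodule.mem_span_singleton]
        exact ⟨a, ha⟩
      have hle : Submodule.span ℚ {1, x} ≤ V := by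
        rw [Submodule.span_le]
        intro y hy
        rcases hy with rfl | hy
        · exact h1
        · rw [Set.mem_singleton_iff] at hy
          rw [hy]
          exact hxV
      have hr : finrank ℚ (Submodule.span ℚ ({1, x} : Set ℝ)) = 2 := by
        have h2 := finrank_span_eq_card hli
        have h3 : Set.range ![(1 : ℝ), x] = {1, x} := by
          ext z
          rw [Set.mem_range, Set.mem_insert_iff, Set.mem_singleton_iff, Fin.exists_fin_two]
          exact or_congr ⟨fun h => h.symm, fun h => h.symm⟩ ⟨fun h => h.symm, fun h => h.symm⟩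
        rw [h3, Fintype.card_fin] at h2
        exact h2
      exact (Submodule.eq_of_le_of_finrank_le hle (by omega)).ge
  obtain ⟨y, hy, hne⟩ := h x
  have hyV : y ∈ Submodule.span ℚ ({1, x} : Set ℝ) :=
    hx (Submodule.subset_span (Set.mem_insert_of_mem _ hy))
  rw [Submodule.mem_span_pair] at hyV
  obtain ⟨a, b, hab⟩ := hyV
  apply hne a b
  rw [← hab, Rat.smul_def, Rat.smul_def, mul_one]

end Pool.Agent.OddZetaL
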