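import Pool.Agent.OddZetaL.Defs
import Pool.Agent.OddZetaG.PadicBasic
import Pool.Agent.OddZetaG.RealSize

/-!
# Growth of the coefficients (module L3)

Seat: helper51.
-/

set_option autoImplicit false

open Finset

namespace Pool.Agent.OddZetaL.Gr

open Pool.Agent.OddZetaG PowerSeries

/-! ### majorants of power series -/

/-- `g` is a majorant of `f` -/
def Mj (f g : PowerSeries ℚ) : Prop := ∀ m, |coeff m f| ≤ coeff m g

theorem Mj.nonneg {f g : PowerSeries ℚ} (h : Mj f g) (m : ℕ) : 0 ≤ coeff m g :=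
  (abs_nonneg _).trans (h m)

theorem Mj.mul {f g f' g' : PowerSeries ℚ} (h : Mj f g) (h' : Mj f' g') : Mj (f * f') (g * g') := by
  intro m
  rw [coeff_mul, coeff_mul]
  refine (abs_sum_le_sum_abs _ _).trans (Finset.sum_le_sum fun x _ => ?_)
  rw [abs_mul]
  exact mul_le_mul (h _) (h' _) (abs_nonneg _) (h.nonneg _)

theorem Mj.one : Mj 1 1 := by
  intro m
  rw [coeff_one]
  split_ifs <;> simp

theorem Mj.prod {ι : Type*} (s : Finset ι) (f g : ι → PowerSeries ℚ)
    (h : ∀ i ∈ s, Mj (f i) (g i)) : Mj (∏ i ∈ s, f i) (∏ i ∈ s, g i) := by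
  classical
  induction s using Finset.induction_on with
  | empty => simpa using Mj.one
  | insert a s ha ih =>
    rw [Finset.prod_insert ha, Finset.prod_insert ha]
    exact (h a (Finset.mem_insert_self _ _)).mul (ih fun i hi => h i (Finset.mem_insert_of_mem hi))

theorem Mj.const (x : ℚ) : Mj (C x) (C |x|) := by
  intro m
  rw [coeff_C, coeff_C]
  split_ifs <;> simp

/-- `1 / (1 - X)` -/
noncomputable def geo : PowerSeries ℚ := PowerSeries.mk 1

theorem coeff_geo (m : ℕ) : coeff m geo = 1 := by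
  unfold geo; rw [coeff_mk]; rfl

theorem Mj.lin (x : ℚ) (hx : 1 ≤ |x|) : Mj (C x + X) (C |x| * geo) := by
  intro m
  rw [map_add, coeff_C_mul, coeff_geo, mul_one, coeff_C, coeff_X]
  rcases m with _ | _ | m
  · simp
  · simpa using hx
  · simp

theorem Mj.linInv (x : ℚ) (hx : 1 ≤ |x|) : Mj (C x + X)⁻¹ (C |x|⁻¹ * geo) := by
  have hx0 : x ≠ 0 := by
    rintro rfl
    simp at hx
    exact absurd hx (by norm_num)
  intro m
  rw [lin_inv x hx0, coeff_mk, coeff_C_mul, coeff_geo, mul_one, abs_mul, abs_pow, abs_neg, abs_one,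
    one_pow, one_mul, abs_inv, abs_pow]
  apply inv_anti₀ (by positivity)
  calc |x| = |x| ^ 1 := (pow_one _).symm
    _ ≤ |x| ^ (m + 1) := pow_le_pow_right₀ hx (by omega)

theorem Mj.lin2 (x E : ℚ) (hx : |x| ≤ E) (hE : 2 ≤ E) : Mj (C x + 2 * X) (C E * geo) := by
  intro m
  rw [map_add, coeff_C_mul, coeff_geo, mul_one, coeff_C]
  have h2 : (2 : PowerSeries ℚ) * X = C 2 * X := by
    rw [show (2 : PowerSeries ℚ) = C (2 : ℚ) from (map_ofNat (C (R := ℚ)) 2).symm]
  rw [h2, coeff_C_mul, coeff_X]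
  rcases m with _ | _ | m
  · simpa using hx
  · simpa using hE
  · simp; linarith

theorem geo_pow_coeff (N m : ℕ) : coeff m (geo ^ N) ≤ ((N : ℚ) + m) ^ m := by
  rcases N with _ | N
  · rw [pow_zero, coeff_one]
    split_ifs with h
    · subst h; simp
    · positivity
  · unfold geo
    rw [mk_one_pow_eq_mk_choose_add, coeff_mk]
    have h1 : (N + m).choose N = (N + m).choose m := by
      rw [← Nat.choose_symm (Nat.le_add_right N m)]
      congr 1
      omega
    have h2 : (N + m).choose m ≤ (N + m) ^ m := Nat.choose_le_pow _ _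
    rw [h1]
    calc (((N + m).choose m : ℕ) : ℚ) ≤ (((N + m) ^ m : ℕ) : ℚ) := by exact_mod_cast h2
      _ = ((N : ℚ) + m) ^ m := by push_cast; rfl
      _ ≤ _ := by
        apply pow_le_pow_left₀ (by positivity)
        push_cast
        linarith

/-! ### products of distances -/

/-- product of the distances from `l` to the other integers of `[a, b]` -/
def dd (a b l : ℕ) : ℚ := ∏ m ∈ (Finset.Icc a b).erase l, |(m : ℚ) - l|

theorem prod_rightA (l b : ℕ) (h : l ≤ b) :
    ∏ m ∈ Finset.Ioc l b, |(m : ℚ) - l| = ((b - l).factorial : ℚ) := by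
  induction b, h using Nat.le_induction with
  | base => simp
  | succ b hb ih =>
    rw [Finset.prod_Ioc_succ_top hb, ih, show b + 1 - l = (b - l) + 1 by omega, Nat.factorial_succ,
      Nat.cast_mul, mul_comm]
    congr 1
    push_cast [Nat.cast_sub hb]
    rw [show (b : ℚ) + 1 - l = b - l + 1 by ring]
    apply abs_of_nonneg
    have : (l : ℚ) ≤ b := by exact_mod_cast hb
    linarith

theorem prod_left_auxA (k a : ℕ) :
    ∏ m ∈ Finset.Ico a (a + k), |(m : ℚ) - ((a + k : ℕ) : ℚ)| = (k.factorial : ℚ) := by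
  induction k generalizing a with
  | zero => simp
  | succ k ih =>
    rw [Finset.prod_eq_prod_Ico_succ_bot (by omega)]
    have := ih (a + 1)
    rw [show a + 1 + k = a + (k + 1) by ring] at this
    rw [this, Nat.factorial_succ, Nat.cast_mul]
    congr 1
    rw [abs_sub_comm]
    push_cast
    rw [show (a : ℚ) + (k + 1) - a = k + 1 by ring]
    exact abs_of_nonneg (by positivity)

theorem prod_leftA (a l : ℕ) (h : a ≤ l) :
    ∏ m ∈ Finset.Ico a l, |(m : ℚ) - l| = ((l - a).factorial : ℚ) := by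
  have := prod_left_auxA (l - a) a
  rwa [show a + (l - a) = l by omega] at this

theorem dd_in (a b l : ℕ) (h1 : a ≤ l) (h2 : l ≤ b) :
    dd a b l = ((l - a).factorial : ℚ) * ((b - l).factorial : ℚ) := by
  unfold dd
  have e : (Finset.Icc a b).erase l = Finset.Ico a l ∪ Finset.Ioc l b := by
    ext x
    simp only [Finset.mem_erase, Finset.mem_Icc, Finset.mem_union, Finset.mem_Ico, Finset.mem_Ioc]
    omega
  have hd : Disjoint (Finset.Ico a l) (Finset.Ioc l b) := by
    rw [Finset.disjoint_left]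
    intro x hx hx'
    rw [Finset.mem_Ico] at hx
    rw [Finset.mem_Ioc] at hx'
    omega
  rw [e, Finset.prod_union hd, prod_leftA a l h1, prod_rightA l b h2]

theorem fact_super (x N : ℕ) : ((N.factorial : ℕ) : ℚ) * (x.factorial : ℚ) ≤ ((x + N).factorial : ℚ) := by
  have h := Nat.factorial_mul_factorial_dvd_factorial_add x N
  have h2 := Nat.le_of_dvd (Nat.factorial_pos _) h
  have : ((x.factorial * N.factorial : ℕ) : ℚ) ≤ ((x + N).factorial : ℚ) := by exact_mod_cast h2
  rw [mul_comm]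
  push_cast at this
  exact this

theorem dd_out_left (a b l : ℕ) (hab : a ≤ b) (h1 : l < a) :
    ((b - a).factorial : ℚ) ≤ dd a b l := by
  unfold dd
  rw [Finset.erase_eq_of_notMem (by rw [Finset.mem_Icc]; omega)]
  have e : Finset.Ioc l b = Finset.Ioc l (a - 1) ∪ Finset.Icc a b := by
    ext x
    simp only [Finset.mem_Icc, Finset.mem_union, Finset.mem_Ioc]
    omega
  have hd : Disjoint (Finset.Ioc l (a - 1)) (Finset.Icc a b) := by
    rw [Finset.disjoint_left]
    intro x hx hx'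
    rw [Finset.mem_Ioc] at hx
    rw [Finset.mem_Icc] at hx'
    omega
  have h2 := prod_rightA l b (by omega)
  rw [e, Finset.prod_union hd, prod_rightA l (a - 1) (by omega)] at h2
  have h3 := fact_super (a - 1 - l) (b - a)
  have h4 : ((a - 1 - l + (b - a)).factorial : ℚ) ≤ ((b - l).factorial : ℚ) := by
    exact_mod_cast Nat.factorial_le (by omega)
  have h5 : (0 : ℚ) < ((a - 1 - l).factorial : ℚ) := by positivity
  have h6 : ((a - 1 - l).factorial : ℚ) * ((b - a).factorial : ℚ) ≤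
      ((a - 1 - l).factorial : ℚ) * ∏ m ∈ Finset.Icc a b, |(m : ℚ) - l| := by
    rw [h2]
    calc ((a - 1 - l).factorial : ℚ) * ((b - a).factorial : ℚ)
        = ((b - a).factorial : ℚ) * ((a - 1 - l).factorial : ℚ) := mul_comm _ _
      _ ≤ _ := h3.trans h4
  exact le_of_mul_le_mul_left h6 h5

theorem dd_out_right (a b l : ℕ) (hab : a ≤ b) (h1 : b < l) :
    ((b - a).factorial : ℚ) ≤ dd a b l := by
  unfold dd
  rw [Finset.erase_eq_of_notMem (by rw [Finset.mem_Icc]; omega)]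
  have e : Finset.Ico a l = Finset.Icc a b ∪ Finset.Ico (b + 1) l := by
    ext x
    simp only [Finset.mem_Icc, Finset.mem_union, Finset.mem_Ico]
    omega
  have hd : Disjoint (Finset.Icc a b) (Finset.Ico (b + 1) l) := by
    rw [Finset.disjoint_left]
    intro x hx hx'
    rw [Finset.mem_Ico] at hx'
    rw [Finset.mem_Icc] at hx
    omega
  have h2 := prod_leftA a l (by omega)
  rw [e, Finset.prod_union hd, prod_leftA (b + 1) l (by omega)] at h2
  have h3 := fact_super (l - (b + 1)) (b - a)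
  have h4 : ((l - (b + 1) + (b - a)).factorial : ℚ) ≤ ((l - a).factorial : ℚ) := by
    exact_mod_cast Nat.factorial_le (by omega)
  have h5 : (0 : ℚ) < ((l - (b + 1)).factorial : ℚ) := by positivity
  have h6 : ((b - a).factorial : ℚ) * ((l - (b + 1)).factorial : ℚ) ≤
      (∏ m ∈ Finset.Icc a b, |(m : ℚ) - l|) * ((l - (b + 1)).factorial : ℚ) := by
    rw [h2]
    exact h3.trans h4
  exact le_of_mul_le_mul_right h6 h5

theorem dd_pos (a b l : ℕ) : 0 < dd a b l := by
  unfold dd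
  refine Finset.prod_pos fun m hm => ?_
  rw [abs_pos, sub_ne_zero]
  have := (Finset.mem_erase.1 hm).1
  exact_mod_cast this

theorem dd_ratio (a b l : ℕ) (hab : a ≤ b) :
    ((b - a).factorial : ℚ) / dd a b l ≤ 2 ^ (b - a) := by
  rw [div_le_iff₀ (dd_pos a b l)]
  have hone : (1 : ℚ) ≤ 2 ^ (b - a) := one_le_pow₀ (by norm_num)
  by_cases h1 : l < a
  · have h := dd_out_left a b l hab h1
    have h0 := (dd_pos a b l).le
    nlinarith
  · by_cases h2 : b < l
    · have h := dd_out_right a b l hab h2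
      have h0 := (dd_pos a b l).le
      nlinarith
    · rw [dd_in a b l (by omega) (by omega)]
      have h3 := Nat.choose_mul_factorial_mul_factorial (n := b - a) (k := l - a) (by omega)
      rw [show b - a - (l - a) = b - l by omega] at h3
      have h4 : (b - a).choose (l - a) ≤ 2 ^ (b - a) := Nat.choose_le_two_pow _ _
      rw [← h3]
      push_cast
      rw [mul_assoc]
      apply mul_le_mul_of_nonneg_right _ (by positivity)
      exact_mod_cast h4

theorem choose_mono_half (N k l : ℕ) (h1 : k ≤ l) (h2 : l ≤ N / 2) : N.choose k ≤ N.choose l := by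
  induction l, h1 using Nat.le_induction with
  | base => exact le_rfl
  | succ l hl ih =>
    exact (ih (by omega)).trans (Nat.choose_le_succ_of_lt_half_left (by omega))

theorem choose_mono' (N k l : ℕ) (h1 : k ≤ l) (h2 : l ≤ N - k) (hk : k ≤ N) :
    N.choose k ≤ N.choose l := by
  by_cases h : l ≤ N / 2
  · exact choose_mono_half N k l h1 h
  · rw [← Nat.choose_symm (n := N) (k := l) (by omega)]
    exact choose_mono_half N k (N - l) (by omega) (by omega)

/-! ### the local power series -/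

variable (D : Dat)

theorem B_Mj (n h l : ℕ) :
    Mj (B D n h l) (C (dd (h * n) ((D.C - h) * n) l) *
      geo ^ ((blk D n h).erase l).card) := by
  unfold B dd
  have h1 := Mj.prod ((blk D n h).erase l) (fun m => C ((m : ℚ) - (l : ℚ)) + X)
    (fun m => C |(m : ℚ) - (l : ℚ)| * geo) (fun m hm => Mj.lin _ (by
      have hne : (m : ℤ) - l ≠ 0 := by
        have := (Finset.mem_erase.1 hm).1
        omega
      have h2 : (1 : ℤ) ≤ |(m : ℤ) - l| := Int.one_le_abs hne
      exact_mod_cast h2))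
  rw [Finset.prod_mul_distrib, Finset.prod_const, ← map_prod] at h1
  exact h1

theorem B_inv_Mj (n h l : ℕ) :
    Mj (B D n h l)⁻¹ (C (dd (h * n) ((D.C - h) * n) l)⁻¹ *
      geo ^ ((blk D n h).erase l).card) := by
  unfold B dd
  rw [prod_inv_ps]
  have h1 := Mj.prod ((blk D n h).erase l) (fun m => (C ((m : ℚ) - (l : ℚ)) + X)⁻¹)
    (fun m => C |(m : ℚ) - (l : ℚ)|⁻¹ * geo) (fun m hm => Mj.linInv _ (by
      have hne : (m : ℤ) - l ≠ 0 := by
        have := (Finset.mem_erase.1 hm).1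
        omega
      have h2 : (1 : ℤ) ≤ |(m : ℤ) - l| := Int.one_le_abs hne
      exact_mod_cast h2))
  rw [Finset.prod_mul_distrib, Finset.prod_const, ← map_prod, Finset.prod_inv_distrib] at h1
  exact h1

/-- the value of the majorant -/
noncomputable def WW (n l : ℕ) : ℚ :=
  (∏ i ∈ D.P, ((Nl D n (D.h i)).factorial : ℚ) / dd (D.h i * n) ((D.C - D.h i) * n) l) *
    ∏ i ∈ D.M, dd (D.h i * n) ((D.C - D.h i) * n) l / ((Nl D n (D.h i)).factorial : ℚ)

/-- the number of factors -/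
def NN (n l : ℕ) : ℕ := 1 + ((∑ i ∈ D.M, ((blk D n (D.h i)).erase l).card) +
  ∑ i ∈ D.P, ((blk D n (D.h i)).erase l).card)

theorem F_Mj (n l : ℕ) (hl : l ≤ D.C * n) :
    Mj (F D n l) (C (WW D n l * ((D.C : ℚ) * n + 2)) * geo ^ NN D n l) := by
  unfold F
  rw [prod_inv_ps]
  have hK : 0 < K D n := by unfold K; positivity
  have h0 : Mj (C (K D n)) (C (K D n)) := by
    have := Mj.const (K D n)
    rwa [abs_of_pos hK] at this
  have h1 : Mj (C (D.C * (n : ℚ) - 2 * (l : ℚ)) + 2 * X) (C ((D.C : ℚ) * n + 2) * geo) := by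
    apply Mj.lin2
    · have hl' : (l : ℚ) ≤ D.C * n := by exact_mod_cast hl
      have hl0 : (0 : ℚ) ≤ l := by positivity
      rw [abs_le]
      constructor <;> linarith
    · have : (0 : ℚ) ≤ (D.C : ℚ) * n := by positivity
      linarith
  have h2 := Mj.prod D.M _ _ (fun i _ => B_Mj D n (D.h i) l)
  have h3 := Mj.prod D.P _ _ (fun i _ => B_inv_Mj D n (D.h i) l)
  rw [Finset.prod_mul_distrib, Finset.prod_pow_eq_pow_sum, ← map_prod] at h2 h3
  have h4 := ((h0.mul h1).mul h2).mul h3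
  have e : C (K D n) * (C ((D.C : ℚ) * n + 2) * geo) *
      (C (∏ i ∈ D.M, dd (D.h i * n) ((D.C - D.h i) * n) l) *
        geo ^ (∑ i ∈ D.M, ((blk D n (D.h i)).erase l).card)) *
      (C (∏ i ∈ D.P, (dd (D.h i * n) ((D.C - D.h i) * n) l)⁻¹) *
        geo ^ (∑ i ∈ D.P, ((blk D n (D.h i)).erase l).card)) =
      C (WW D n l * ((D.C : ℚ) * n + 2)) * geo ^ NN D n l := by
    have e1 : WW D n l * ((D.C : ℚ) * n + 2) = K D n * ((D.C : ℚ) * n + 2) *
        (∏ i ∈ D.M, dd (D.h i * n) ((D.C - D.h i) * n) l) *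
        (∏ i ∈ D.P, (dd (D.h i * n) ((D.C - D.h i) * n) l)⁻¹) := by
      unfold WW K
      rw [Finset.prod_div_distrib, Finset.prod_div_distrib, Finset.prod_inv_distrib]
      ring
    rw [e1]
    unfold NN
    rw [pow_add, pow_add, pow_one]
    simp only [map_mul]
    ring
  rw [e] at h4
  exact h4

theorem card_blk_le (n h l : ℕ) : ((blk D n h).erase l).card ≤ D.C * n + 1 := by
  refine (Finset.card_erase_le).trans ?_
  unfold blk
  rw [Nat.card_Icc]
  have : (D.C - h) * n ≤ D.C * n := Nat.mul_le_mul_right n (Nat.sub_le _ _)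
  omega

theorem NN_le (hD : OKL D) (n l : ℕ) : NN D n l ≤ (D.A + 3) * (D.C * n + 1) := by
  unfold NN
  have h1 : ∑ i ∈ D.M, ((blk D n (D.h i)).erase l).card ≤ D.M.card * (D.C * n + 1) := by
    rw [← smul_eq_mul]
    exact Finset.sum_le_card_nsmul _ _ _ fun i _ => card_blk_le D n _ l
  have h2 : ∑ i ∈ D.P, ((blk D n (D.h i)).erase l).card ≤ D.P.card * (D.C * n + 1) := by
    rw [← smul_eq_mul]
    exact Finset.sum_le_card_nsmul _ _ _ fun i _ => card_blk_le D n _ l
  rw [hD.cardM] at h1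
  rw [hD.cardP] at h2
  nlinarith

theorem ord_le (n l : ℕ) : ord D n l ≤ D.P.card := by
  unfold ord
  have h1 : (#{i ∈ D.P | l ∈ blk D n (D.h i)}) ≤ D.P.card := Finset.card_filter_le _ _
  have h2 : (0 : ℤ) ≤ (#{i ∈ D.M | l ∈ blk D n (D.h i)} : ℤ) := by positivity
  omega

/-- the value `WW` -/
theorem WW_le (hD : OKL D) (n l : ℕ) (hl : l ∈ poles D n) :
    WW D n l ≤ 2 ^ ((∑ i ∈ D.P, (D.C - 2 * D.h i)) * n) *
      (((D.s * n).factorial : ℚ) * (((D.C - D.s) * n).factorial : ℚ) / ((D.C * n).factorial : ℚ)) := by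
  obtain ⟨i0, hi0⟩ := Finset.card_eq_one.1 hD.cardM
  have h00 : D.h i0 = 0 := hD.M0 i0 (by rw [hi0]; exact Finset.mem_singleton_self _)
  obtain ⟨j0, hj0, hj0s⟩ := hD.s_mem
  have hs2 := hD.P_lt j0 hj0
  rw [hj0s] at hs2
  unfold poles at hl
  rw [Finset.mem_Icc, hD.lo_eq] at hl
  unfold WW
  have hP : ∏ i ∈ D.P, ((Nl D n (D.h i)).factorial : ℚ) / dd (D.h i * n) ((D.C - D.h i) * n) l ≤
      2 ^ ((∑ i ∈ D.P, (D.C - 2 * D.h i)) * n) := by
    rw [Finset.sum_mul, ← Finset.prod_pow_eq_pow_sum]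
    apply Finset.prod_le_prod
    · intro i _
      exact div_nonneg (by positivity) (dd_pos _ _ _).le
    · intro i hi
      have h2 := hD.P_lt i hi
      have h3 : Nl D n (D.h i) = (D.C - D.h i) * n - D.h i * n := by
        unfold Nl
        rw [← Nat.sub_mul]
        congr 1
        omega
      have h4 : D.h i * n ≤ (D.C - D.h i) * n := Nat.mul_le_mul_right n (by omega)
      have h5 := dd_ratio (D.h i * n) ((D.C - D.h i) * n) l h4
      rw [← h3] at h5
      exact h5
  have hM : ∏ i ∈ D.M, dd (D.h i * n) ((D.C - D.h i) * n) l / ((Nl D n (D.h i)).factorial : ℚ) ≤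
      ((D.s * n).factorial : ℚ) * (((D.C - D.s) * n).factorial : ℚ) / ((D.C * n).factorial : ℚ) := by
    rw [hi0, Finset.prod_singleton, h00]
    have hN : Nl D n 0 = D.C * n := by unfold Nl; simp
    rw [hN, Nat.sub_zero, zero_mul]
    have hle : (D.C - D.s) * n ≤ D.C * n := Nat.mul_le_mul_right n (Nat.sub_le _ _)
    rw [dd_in 0 (D.C * n) l (Nat.zero_le _) (by omega), Nat.sub_zero]
    apply div_le_div_of_nonneg_right _ (by positivity)
    have hsC : D.C * n - D.s * n = (D.C - D.s) * n := by rw [← Nat.sub_mul]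
    have hsn : D.s * n ≤ D.C * n := Nat.mul_le_mul_right n (by omega)
    have c1 := choose_mono' (D.C * n) (D.s * n) l hl.1 (by rw [hsC]; exact hl.2) hsn
    have c2 := Nat.choose_mul_factorial_mul_factorial (n := D.C * n) (k := D.s * n) hsn
    have c3 := Nat.choose_mul_factorial_mul_factorial (n := D.C * n) (k := l) (by omega)
    rw [hsC] at c2
    have c4 : 0 < (D.C * n).choose (D.s * n) := Nat.choose_pos hsn
    have c5 : (D.C * n).choose (D.s * n) * (l.factorial * (D.C * n - l).factorial) ≤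
        (D.C * n).choose (D.s * n) * ((D.s * n).factorial * ((D.C - D.s) * n).factorial) := by
      calc (D.C * n).choose (D.s * n) * (l.factorial * (D.C * n - l).factorial)
          ≤ (D.C * n).choose l * (l.factorial * (D.C * n - l).factorial) :=
            Nat.mul_le_mul_right _ c1
        _ = (D.C * n).factorial := by rw [← mul_assoc]; exact c3
        _ = _ := by rw [← mul_assoc]; exact c2.symm
    have c6 := Nat.le_of_mul_le_mul_left c5 c4
    exact_mod_cast c6
  apply mul_le_mul hP hM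
  · exact Finset.prod_nonneg fun i _ => div_nonneg (dd_pos _ _ _).le (by positivity)
  · positivity

theorem WW_nonneg (n l : ℕ) : 0 ≤ WW D n l := by
  unfold WW
  refine mul_nonneg (Finset.prod_nonneg fun i _ => div_nonneg (by positivity) (dd_pos _ _ _).le)
    (Finset.prod_nonneg fun i _ => div_nonneg (dd_pos _ _ _).le (by positivity))

/-- bound of the coefficients -/
theorem a_le (hD : OKL D) (n l i : ℕ) (hl : l ≤ D.C * n) :
    |a D n l i| ≤ WW D n l * (((D.C : ℚ) * n + 2) *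
      (((D.A : ℚ) + 3) * ((D.C : ℚ) * n + 1) + (D.A + 1)) ^ (D.A + 1)) := by
  have hW := WW_nonneg D n l
  have hZ1 : (1 : ℚ) ≤ ((D.A : ℚ) + 3) * ((D.C : ℚ) * n + 1) + (D.A + 1) := by
    have h1 : (0 : ℚ) ≤ (D.C : ℚ) * n := by positivity
    have h2 : (0 : ℚ) ≤ (D.A : ℚ) := by positivity
    nlinarith
  unfold a
  split_ifs with h
  · set m := (ord D n l - i).toNat with hm
    have hmP : m ≤ D.A + 1 := by
      have h1 := ord_le D n l
      rw [hD.cardP] at h1
      omega
    have h1 := F_Mj D n l hl m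
    rw [coeff_C_mul] at h1
    have h2 := geo_pow_coeff (NN D n l) m
    have h3 : ((NN D n l : ℕ) : ℚ) + m ≤
        ((D.A : ℚ) + 3) * ((D.C : ℚ) * n + 1) + (D.A + 1) := by
      have h4 := NN_le D hD n l
      have h5 : ((NN D n l : ℕ) : ℚ) ≤ ((D.A : ℚ) + 3) * ((D.C : ℚ) * n + 1) := by
        exact_mod_cast h4
      have h6 : (m : ℚ) ≤ (D.A : ℚ) + 1 := by exact_mod_cast hmP
      linarith
    calc |coeff m (F D n l)| ≤ WW D n l * ((D.C : ℚ) * n + 2) * coeff m (geo ^ NN D n l) := h1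
      _ ≤ WW D n l * ((D.C : ℚ) * n + 2) *
          (((D.A : ℚ) + 3) * ((D.C : ℚ) * n + 1) + (D.A + 1)) ^ (D.A + 1) := by
        apply mul_le_mul_of_nonneg_left _ (by positivity)
        calc coeff m (geo ^ NN D n l) ≤ ((NN D n l : ℚ) + m) ^ m := h2
          _ ≤ (((D.A : ℚ) + 3) * ((D.C : ℚ) * n + 1) + (D.A + 1)) ^ m := by
            apply pow_le_pow_left₀ (by positivity) h3
          _ ≤ _ := pow_le_pow_right₀ hZ1 hmP
      _ = _ := by ring
  · rw [abs_zero]
    have : (0 : ℚ) ≤ ((D.A : ℚ) + 3) * ((D.C : ℚ) * n + 1) + (D.A + 1) := by linarith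
    positivity

/-- polynomial factors are negligible -/
theorem poly_exp (c : ℝ) (hc : 0 ≤ c) (E : ℕ) {δ : ℝ} (hδ : 0 < δ) :
    ∃ N : ℕ, ∀ n ≥ N, c * ((n : ℝ) + 1) ^ E ≤ Real.exp (δ * n) := by
  have hlo := isLittleO_pow_exp_pos_mul_atTop E (b := δ) hδ
  have h1 := hlo.bound (show (0 : ℝ) < 1 / (c * Real.exp δ + 1) by positivity)
  rw [Filter.eventually_atTop] at h1
  obtain ⟨x0, hx0⟩ := h1
  obtain ⟨N1, hN1⟩ := exists_nat_ge x0
  refine ⟨N1, fun n hn => ?_⟩
  have hn2 : (N1 : ℝ) ≤ n := by exact_mod_cast hn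
  have h2 := hx0 ((n : ℝ) + 1) (by linarith)
  rw [Real.norm_eq_abs, Real.norm_eq_abs, abs_of_nonneg (by positivity),
    abs_of_nonneg (Real.exp_pos _).le] at h2
  have h6 : Real.exp (δ * ((n : ℝ) + 1)) = Real.exp δ * Real.exp (δ * n) := by
    rw [← Real.exp_add]
    congr 1
    ring
  rw [h6] at h2
  have h7 := mul_le_mul_of_nonneg_left h2 hc
  refine h7.trans ?_
  have h8 : c * (1 / (c * Real.exp δ + 1) * (Real.exp δ * Real.exp (δ * n))) =
      (c * Real.exp δ / (c * Real.exp δ + 1)) * Real.exp (δ * n) := by ring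
  rw [h8]
  have h9 : c * Real.exp δ / (c * Real.exp δ + 1) ≤ 1 := by
    rw [div_le_one (by positivity)]
    linarith
  have h10 := (Real.exp_pos (δ * n)).le
  nlinarith

/-- the factorial quotient -/
theorem Q_le (hD : OKL D) (n : ℕ) (hn : 0 < n) :
    ((D.s * n).factorial : ℝ) * (((D.C - D.s) * n).factorial : ℝ) / ((D.C * n).factorial : ℝ) ≤
      Real.exp (-(n * ((D.C : ℝ) * Real.log D.C - (D.s : ℝ) * Real.log D.s
      - ((D.C - D.s : ℕ) : ℝ) * Real.log ((D.C - D.s : ℕ) : ℝ)))) *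
        (Real.exp 2 * ((D.C : ℝ) * n + 1) ^ 2) := by
  obtain ⟨j0, hj0, hj0s⟩ := hD.s_mem
  have hs2 := hD.P_lt j0 hj0
  rw [hj0s] at hs2
  have hs0 := hD.spos
  have hn0 : (0 : ℝ) < n := by exact_mod_cast hn
  have hs0' : (0 : ℝ) < D.s := by exact_mod_cast hs0
  have hC0' : (0 : ℝ) < D.C := by
    have : 0 < D.C := by omega
    exact_mod_cast this
  have hCs0 : (0 : ℝ) < ((D.C - D.s : ℕ) : ℝ) := by
    have : 0 < D.C - D.s := by omega
    exact_mod_cast this
  have hCs : ((D.C - D.s : ℕ) : ℝ) = (D.C : ℝ) - D.s := by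
    rw [Nat.cast_sub (by omega)]
  set Y : ℝ := (D.C : ℝ) * n + 1 with hY
  have hYpos : 0 < Y := by positivity
  have hle : ∀ m : ℕ, m ≤ D.C * n → (m : ℝ) + 1 ≤ Y := by
    intro m hm
    have : (m : ℝ) ≤ ((D.C * n : ℕ) : ℝ) := by exact_mod_cast hm
    push_cast at this
    linarith
  have b1 := fact_leR (D.s * n) (hle _ (Nat.mul_le_mul_right n (by omega)))
  have b2 := fact_leR ((D.C - D.s) * n) (hle _ (Nat.mul_le_mul_right n (Nat.sub_le _ _)))
  have b3 := fact_geR (D.C * n)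
  calc ((D.s * n).factorial : ℝ) * (((D.C - D.s) * n).factorial : ℝ) / ((D.C * n).factorial : ℝ)
      ≤ Real.exp (((D.s * n : ℕ) : ℝ) * Real.log ((D.s * n : ℕ) : ℝ) - ((D.s * n : ℕ) : ℝ) +
          (Real.log Y + 1)) *
        Real.exp ((((D.C - D.s) * n : ℕ) : ℝ) * Real.log (((D.C - D.s) * n : ℕ) : ℝ) -
          (((D.C - D.s) * n : ℕ) : ℝ) + (Real.log Y + 1)) /
        Real.exp (((D.C * n : ℕ) : ℝ) * Real.log ((D.C * n : ℕ) : ℝ) - ((D.C * n : ℕ) : ℝ)) := by
        gcongr
    _ = _ := by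
        have e2 : Real.exp 2 * Y ^ 2 = Real.exp (2 + 2 * Real.log Y) := by
          rw [Real.exp_add, mul_comm (2 : ℝ) (Real.log Y), Real.exp_mul, Real.exp_log hYpos]
          norm_cast
        rw [e2, ← Real.exp_add, ← Real.exp_sub, ← Real.exp_add]
        congr 1
        push_cast
        rw [Real.log_mul hs0'.ne' hn0.ne', Real.log_mul hCs0.ne' hn0.ne',
          Real.log_mul hC0'.ne' hn0.ne', hCs]
        ring

end Pool.Agent.OddZetaL.Gr

namespace Pool.Agent.OddZetaL

open Pool.Agent.OddZetaG Gr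

variable (D : Dat)

/-- L3: growth of the coefficients -/
theorem rho_growth (hD : OKL D) {bt : ℝ} (hbt : growE D < bt) :
    ∃ N : ℕ, ∀ n ≥ N, ∀ j ∈ Js D, |(rho D n j : ℝ)| ≤ Real.exp (bt * n) := by
  set c1 : ℝ := (D.C : ℝ) + 2 with hc1
  set c2 : ℝ := ((D.A : ℝ) + 3) * ((D.C : ℝ) + 1) + (D.A + 1) with hc2
  have hc1p : 0 < c1 := by positivity
  have hc2p : 0 < c2 := by positivity
  obtain ⟨N0, hN0⟩ := poly_exp (Real.exp 2 * c1 ^ 4 * c2 ^ (D.A + 1)) (by positivity) (4 + (D.A + 1))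
    (δ := bt - growE D) (by linarith)
  refine ⟨max N0 1, fun n hn j _ => ?_⟩
  have hnN : N0 ≤ n := le_trans (le_max_left _ _) hn
  have hn1 : 0 < n := lt_of_lt_of_le one_pos (le_trans (le_max_right _ _) hn)
  have hn0 : (0 : ℝ) < n := by exact_mod_cast hn1
  set Sm : ℕ := ∑ i ∈ D.P, (D.C - 2 * D.h i) with hSm
  -- rational bound
  set QQ : ℚ := ((D.s * n).factorial : ℚ) * (((D.C - D.s) * n).factorial : ℚ) /
    ((D.C * n).factorial : ℚ) with hQq
  set Zq : ℚ := ((D.A : ℚ) + 3) * ((D.C : ℚ) * n + 1) + (D.A + 1) with hZq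
  have hrho : |rho D n j| ≤ ((D.C : ℚ) * n + 1) *
      ((2 ^ (Sm * n) * QQ) * (((D.C : ℚ) * n + 2) * Zq ^ (D.A + 1))) := by
    unfold rho
    refine (abs_sum_le_sum_abs _ _).trans ?_
    have h1 : ∀ l ∈ poles D n, |a D n l (j - D.k) * ((j - 1).choose D.k : ℚ)| ≤
        (2 ^ (Sm * n) * QQ) * (((D.C : ℚ) * n + 2) * Zq ^ (D.A + 1)) := by
      intro l hl
      have hlC : l ≤ D.C * n := by
        unfold poles at hl
        have := (Finset.mem_Icc.1 hl).2
        exact this.trans (Nat.mul_le_mul_right n (Nat.sub_le _ _))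
      rw [hD.k0, Nat.choose_zero_right, Nat.cast_one, mul_one]
      refine (a_le D hD n l _ hlC).trans ?_
      apply mul_le_mul_of_nonneg_right (WW_le D hD n l hl)
      have : (0 : ℚ) ≤ Zq := by rw [hZq]; positivity
      positivity
    refine (Finset.sum_le_card_nsmul _ _ _ h1).trans ?_
    rw [nsmul_eq_mul]
    apply mul_le_mul_of_nonneg_right
    · have h2 : (poles D n).card ≤ D.C * n + 1 := by
        unfold poles
        rw [Nat.card_Icc]
        have : (D.C - D.lo) * n ≤ D.C * n := Nat.mul_le_mul_right n (Nat.sub_le _ _)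
        omega
      exact_mod_cast h2
    · have : (0 : ℚ) ≤ Zq := by rw [hZq]; positivity
      have : (0 : ℚ) ≤ QQ := by rw [hQq]; positivity
      positivity
  have hrhoR : |(rho D n j : ℝ)| ≤ ((D.C : ℝ) * n + 1) *
      ((2 ^ (Sm * n) * (QQ : ℝ)) * (((D.C : ℝ) * n + 2) * (Zq : ℝ) ^ (D.A + 1))) := by
    have := (Rat.cast_le (K := ℝ)).2 hrho
    push_cast at this
    exact this
  refine hrhoR.trans ?_
  have hQR : (QQ : ℝ) ≤ Real.exp (-(n * ((D.C : ℝ) * Real.log D.C - (D.s : ℝ) * Real.log D.s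
      - ((D.C - D.s : ℕ) : ℝ) * Real.log ((D.C - D.s : ℕ) : ℝ)))) *
        (Real.exp 2 * ((D.C : ℝ) * n + 1) ^ 2) := by
    have := Q_le D hD n hn1
    rw [hQq]
    push_cast
    exact this
  have h2pow : (2 : ℝ) ^ (Sm * n) = Real.exp (n * ((Sm : ℝ) * Real.log 2)) := by
    rw [show (n : ℝ) * ((Sm : ℝ) * Real.log 2) = ((Sm * n : ℕ) : ℝ) * Real.log 2 by
      push_cast; ring, Real.exp_nat_mul, Real.exp_log (by norm_num)]
  have hgrow : growE D * n = n * ((Sm : ℝ) * Real.log 2) +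
      -(n * ((D.C : ℝ) * Real.log D.C - (D.s : ℝ) * Real.log D.s
      - ((D.C - D.s : ℕ) : ℝ) * Real.log ((D.C - D.s : ℕ) : ℝ))) := by
    unfold growE
    rw [hSm]
    push_cast
    ring
  have hZR : (Zq : ℝ) ≤ c2 * ((n : ℝ) + 1) := by
    rw [hZq, hc2]
    push_cast
    have h1 : (0 : ℝ) ≤ D.A := by positivity
    have h2 : (0 : ℝ) ≤ D.C := by positivity
    nlinarith [mul_nonneg h1 h2, mul_nonneg h1 hn0.le, mul_nonneg h2 hn0.le]
  have hZ0 : (0 : ℝ) ≤ Zq := by
    have : (0 : ℚ) ≤ Zq := by rw [hZq]; positivity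
    exact_mod_cast this
  have hC0 : (0 : ℝ) ≤ D.C := by positivity
  have hY1 : (D.C : ℝ) * n + 1 ≤ c1 * ((n : ℝ) + 1) := by rw [hc1]; nlinarith
  have hY2 : (D.C : ℝ) * n + 2 ≤ c1 * ((n : ℝ) + 1) := by rw [hc1]; nlinarith
  calc ((D.C : ℝ) * n + 1) *
      ((2 ^ (Sm * n) * (QQ : ℝ)) * (((D.C : ℝ) * n + 2) * (Zq : ℝ) ^ (D.A + 1)))
      ≤ (c1 * ((n : ℝ) + 1)) * ((Real.exp (n * ((Sm : ℝ) * Real.log 2)) *
        (Real.exp (-(n * ((D.C : ℝ) * Real.log D.C - (D.s : ℝ) * Real.log D.s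
          - ((D.C - D.s : ℕ) : ℝ) * Real.log ((D.C - D.s : ℕ) : ℝ)))) *
        (Real.exp 2 * (c1 * ((n : ℝ) + 1)) ^ 2))) *
        ((c1 * ((n : ℝ) + 1)) * (c2 * ((n : ℝ) + 1)) ^ (D.A + 1))) := by
        rw [h2pow]
        have hQ' : (QQ : ℝ) ≤ Real.exp (-(n * ((D.C : ℝ) * Real.log D.C - (D.s : ℝ) * Real.log D.s
            - ((D.C - D.s : ℕ) : ℝ) * Real.log ((D.C - D.s : ℕ) : ℝ)))) *
            (Real.exp 2 * (c1 * ((n : ℝ) + 1)) ^ 2) := by
          refine hQR.trans ?_
          gcongr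
        have hQ0 : (0 : ℝ) ≤ QQ := by
          have : (0 : ℚ) ≤ QQ := by rw [hQq]; positivity
          exact_mod_cast this
        gcongr
    _ = Real.exp (growE D * n) * ((Real.exp 2 * c1 ^ 4 * c2 ^ (D.A + 1)) *
          ((n : ℝ) + 1) ^ (4 + (D.A + 1))) := by
        rw [hgrow, Real.exp_add, pow_add, mul_pow c2]
        ring
    _ ≤ Real.exp (growE D * n) * Real.exp ((bt - growE D) * n) :=
        mul_le_mul_of_nonneg_left (hN0 n hnN) (Real.exp_pos _).le
    _ = Real.exp (bt * n) := by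
        rw [← Real.exp_add]
        congr 1
        ring

end Pool.Agent.OddZetaL
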