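import Pool.Agent.OddZetaL.Main
import Pool.Agent.OddZetaL.CellE
import Pool.Agent.OddZetaL.Growth
import Pool.Agent.OddZetaL.Dim
import Pool.Agent.OddZeta.ZetaTail

/-!
# The dimension of the `ℚ`-span of `1, ζ(3), ζ(5), ..., ζ(45)` is at least `3`

Equivalently: for every real number `x` some odd `3 ≤ j ≤ 45` has `ζ(j) ∉ ℚ + ℚ x`.  (The best
published value of the bound, as far as we know, is `139` instead of `45`: Fischler and Zudilin.)

The proof uses the rational function with one zero block and `47` pole blocks of different lengths,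

`R n t = (2 t + 846 n) * ∏_{δ = 17}^{63} (2 δ n)! / ∏_{m = (423 - δ) n}^{(423 + δ) n} (t + m)
       * ∏_{m = 0}^{846 n} (t + m) / (846 n)!`,

and the positive linear forms `S n = ∑_{t ≥ 1} R n t` in `1, ζ(3), ..., ζ(45)`, for all `n`.  The
denominators of the coefficients come from their exact `p`-adic valuations (with the prime number
theorem), and the determinants of two consecutive forms replace Nesterenko's criterion.

Seats: helper8 (construction, criterion, tables, assembly), helper96 (linear form, numerics),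
helper75 (p-adic bounds, explicit cells), helper55 (size), helper51 (growth), and the modules of
helper7, helper57, helper88, helper91, helper30 for `ζ(5), ζ(7), ζ(9)`.
-/

namespace Pool.Agent.OddZetaL.DimThree45

open Pool.Agent.OddZetaG Pool.Agent.OddZetaL

/-- For every real `x` there is an odd `3 ≤ j ≤ 45` with `ζ(j) ∉ ℚ + ℚ x`. -/
theorem exists_not_mem (x : ℝ) : ∃ j : ℕ, Odd j ∧ 3 ≤ j ∧ j ≤ 45 ∧
    ∀ a b : ℚ, tail j 0 ≠ a + b * x := by
  obtain ⟨j, hj, h⟩ := main_of okE_sound (fun bt hbt => rho_growth D45 D45_ok hbt) x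
  rw [D45_Js, Finset.mem_filter, Finset.mem_Icc] at hj
  have hj46 : j ≠ 46 := by
    rintro rfl
    exact absurd hj.2 (by decide)
  exact ⟨j, hj.2, hj.1.1, by omega, h⟩

/-- The `ℚ`-vector space spanned by `1, ζ(3), ζ(5), ..., ζ(45)` has dimension at least `3`. -/
theorem dim_three_45 : 3 ≤ Module.finrank ℚ (Submodule.span ℚ (insert (1 : ℝ)
    {y : ℝ | ∃ j : ℕ, Odd j ∧ 3 ≤ j ∧ j ≤ 45 ∧ riemannZeta (j : ℂ) = (y : ℂ)})) := by
  have hz : ∀ j : ℕ, 3 ≤ j → riemannZeta (j : ℂ) = ((tail j 0 : ℝ) : ℂ) :=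
    fun j hj => Pool.Agent.OddZeta.riemannZeta_eq_tail j (by omega)
  refine finrank_ge_three _ ?_ fun x => ?_
  · refine Set.Finite.subset (Set.finite_range fun j : Fin 46 => tail j 0) ?_
    rintro y ⟨j, -, h3, h45, hy⟩
    rw [hz j h3] at hy
    exact ⟨⟨j, by omega⟩, by exact_mod_cast hy⟩
  · obtain ⟨j, ho, h3, h45, h⟩ := exists_not_mem x
    exact ⟨tail j 0, ⟨j, ho, h3, h45, hz j h3⟩, h⟩

end Pool.Agent.OddZetaL.DimThree45
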