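import Pool.Agent.OddZetaL.Data

/-!
Module L7a: the numerical inequality for `D45`, through a kernel certificate.  Seat: helper96.
-/

set_option autoImplicit false

open Finset

namespace Pool.Agent.OddZetaL

open Pool.Agent.OddZetaG Real

variable (D : Dat)

/-- small side of the certificate -/
def numL (Q : ℕ) : ℕ := 27182818286 ^ Q * (2 ^ (∑ i ∈ D.P, (D.C - 2 * D.h i)) *
  (D.s ^ D.s * (D.C - D.s) ^ (D.C - D.s) *
  ∏ i ∈ D.P, (D.h i ^ D.h i * (D.C - 2 * D.h i) ^ (D.C - 2 * D.h i))))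

/-- large side of the certificate -/
def denL (Q : ℕ) : ℕ := 10000000000 ^ Q * (D.C ^ D.C * ∏ i ∈ D.P, (D.C - D.h i) ^ (D.C - D.h i))

theorem lt_of_cert (hs : 0 < D.s) (hsC : D.s < D.C) (hP : ∀ i ∈ D.P, 0 < D.h i ∧ 2 * D.h i < D.C)
    (Q : ℕ) (h : numL D Q < denL D Q) : (Q : ℝ) + growE D < sizeE D := by
  have hC : 0 < D.C := by omega
  have p1 : ∀ i ∈ D.P, (0 : ℝ) < (D.h i : ℝ) := fun i hi => by exact_mod_cast (hP i hi).1
  have p2 : ∀ i ∈ D.P, (0 : ℝ) < ((D.C - 2 * D.h i : ℕ) : ℝ) := fun i hi => by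
    have := (hP i hi).2
    exact_mod_cast (by omega : 0 < D.C - 2 * D.h i)
  have p3 : ∀ i ∈ D.P, (0 : ℝ) < ((D.C - D.h i : ℕ) : ℝ) := fun i hi => by
    have := (hP i hi).2
    exact_mod_cast (by omega : 0 < D.C - D.h i)
  have q1 : (0 : ℝ) < (D.s : ℝ) := by exact_mod_cast hs
  have q2 : (0 : ℝ) < ((D.C - D.s : ℕ) : ℝ) := by exact_mod_cast (by omega : 0 < D.C - D.s)
  have q3 : (0 : ℝ) < (D.C : ℝ) := by exact_mod_cast hC
  have hprod1 : (0 : ℝ) < ∏ i ∈ D.P, ((D.h i : ℝ) ^ D.h i *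
      ((D.C - 2 * D.h i : ℕ) : ℝ) ^ (D.C - 2 * D.h i)) :=
    Finset.prod_pos fun i hi => mul_pos (pow_pos (p1 i hi) _) (pow_pos (p2 i hi) _)
  have hprod2 : (0 : ℝ) < ∏ i ∈ D.P, (((D.C - D.h i : ℕ) : ℝ) ^ (D.C - D.h i)) :=
    Finset.prod_pos fun i hi => pow_pos (p3 i hi) _
  have hN : ((numL D Q : ℕ) : ℝ) = (27182818286 : ℝ) ^ Q * ((2 : ℝ) ^ (∑ i ∈ D.P, (D.C - 2 * D.h i)) *
      ((D.s : ℝ) ^ D.s * ((D.C - D.s : ℕ) : ℝ) ^ (D.C - D.s) * ∏ i ∈ D.P, ((D.h i : ℝ) ^ D.h i *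
      ((D.C - 2 * D.h i : ℕ) : ℝ) ^ (D.C - 2 * D.h i)))) := by
    unfold numL
    push_cast
    rfl
  have hD : ((denL D Q : ℕ) : ℝ) = (10000000000 : ℝ) ^ Q * ((D.C : ℝ) ^ D.C *
      ∏ i ∈ D.P, (((D.C - D.h i : ℕ) : ℝ) ^ (D.C - D.h i))) := by
    unfold denL
    push_cast
    rfl
  have hc : ((numL D Q : ℕ) : ℝ) < ((denL D Q : ℕ) : ℝ) := by exact_mod_cast h
  rw [hN, hD] at hc
  have hl := Real.log_lt_log (by positivity) hc
  rw [Real.log_mul (by positivity) (by positivity), Real.log_mul (by positivity) (by positivity),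
    Real.log_mul (by positivity) hprod1.ne', Real.log_mul (by positivity) (by positivity),
    Real.log_mul (by positivity) (by positivity), Real.log_mul (by positivity) hprod2.ne',
    Real.log_prod (fun i hi => (mul_pos (pow_pos (p1 i hi) _) (pow_pos (p2 i hi) _)).ne'),
    Real.log_prod (fun i hi => (pow_pos (p3 i hi) _).ne')] at hl
  simp only [Real.log_pow] at hl
  have e1 : ∑ i ∈ D.P, Real.log ((D.h i : ℝ) ^ D.h i *
      ((D.C - 2 * D.h i : ℕ) : ℝ) ^ (D.C - 2 * D.h i)) =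
      ∑ i ∈ D.P, ((D.h i : ℝ) * Real.log (D.h i) +
        ((D.C - 2 * D.h i : ℕ) : ℝ) * Real.log ((D.C - 2 * D.h i : ℕ) : ℝ)) := by
    refine Finset.sum_congr rfl fun i hi => ?_
    rw [Real.log_mul (pow_pos (p1 i hi) _).ne' (pow_pos (p2 i hi) _).ne', Real.log_pow, Real.log_pow]
  rw [e1, Finset.sum_add_distrib] at hl
  have he : (1 : ℝ) ≤ Real.log 27182818286 - Real.log 10000000000 := by
    rw [← Real.log_div (by norm_num) (by norm_num), Real.le_log_iff_exp_le (by norm_num)]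
    have := Real.exp_one_lt_d9
    linarith
  have hQ : (0 : ℝ) ≤ Q := Nat.cast_nonneg Q
  have hQ2 : (Q : ℝ) ≤ Q * Real.log 27182818286 - Q * Real.log 10000000000 := by nlinarith
  rw [growE, sizeE, Finset.sum_sub_distrib, Finset.sum_sub_distrib]
  have e2 : ((∑ i ∈ D.P, (D.C - 2 * D.h i) : ℕ) : ℝ) = ∑ i ∈ D.P, ((D.C - 2 * D.h i : ℕ) : ℝ) := by
    push_cast
    rfl
  rw [e2] at hl
  linarith

theorem cert45 : numL D45 7746 < denL D45 7746 := by decide +kernel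

/-- L7a -/
theorem num45 : (7745 : ℝ) + growE D45 + 1 < sizeE D45 := by
  have h := lt_of_cert D45 (by decide) (by decide) (by decide) 7746 cert45
  have e : ((7746 : ℕ) : ℝ) = 7746 := by norm_num
  rw [e] at h
  linarith

end Pool.Agent.OddZetaL
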