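import Mathlib
import Pool.Agent.OddZetaG.Defs
import Pool.Agent.OddZetaG.PartFrac
import Pool.Agent.OddZetaG.SEq
import Pool.Agent.OddZetaL.Defs

set_option autoImplicit false

/-!
# Module L1, first part: decomposition into simple fractions, without derivatives (`k = 0` allowed)
Adapted from Pool.Agent.OddZetaG.PartFrac and SEq (helper91).  Seat: helper96.
-/

open Finset

namespace Pool.Agent.OddZetaL.PF

open Pool.Agent.OddZetaG

/-- the conditions used; no condition on `k` except parity -/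
structure OKW (D : Dat) : Prop where
  keven : Even D.k
  cardM : D.M.card = D.k + 1
  cardP : D.P.card = D.M.card + D.A
  Aeven : Even D.A
  A4 : 4 ≤ D.A
  P_ge : ∀ i ∈ D.P, D.s ≤ D.h i
  P_lt : ∀ i ∈ D.P, 2 * D.h i < D.C
  M_lt : ∀ i ∈ D.M, D.h i < D.s
  s_le : D.s ≤ D.lo
  lo_lt : 2 * D.lo < D.C
  lo_ok : #{i ∈ D.P | D.h i < D.lo} ≤ D.k + 1
  deg : ∑ i ∈ D.M, (D.C - 2 * D.h i) ≤ ∑ i ∈ D.P, (D.C - 2 * D.h i)

variable {D : Dat}

theorem OKW_of (hD : OKL D) : OKW D where
  keven := by rw [hD.k0]; exact Even.zero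
  cardM := by rw [hD.cardM, hD.k0]
  cardP := by rw [hD.cardP, hD.cardM, add_comm]
  Aeven := hD.Aeven
  A4 := hD.A4
  P_ge := hD.P_ge
  P_lt := hD.P_lt
  M_lt := fun i hi => by rw [hD.M0 i hi]; exact hD.spos
  s_le := hD.lo_eq.ge
  lo_lt := by
    obtain ⟨i, hi, hs⟩ := hD.s_mem
    rw [hD.lo_eq, ← hs]
    exact hD.P_lt i hi
  lo_ok := by
    have h0 : {i ∈ D.P | D.h i < D.lo} = ∅ := by
      rw [Finset.filter_eq_empty_iff]
      intro i hi
      have h1 := hD.P_ge i hi
      rw [hD.lo_eq]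
      omega
    rw [h0]
    simp
  deg := by
    have h0 : ∑ i ∈ D.M, (D.C - 2 * D.h i) = D.C := by
      rw [Finset.sum_congr rfl (g := fun _ => D.C) (fun i hi => by rw [hD.M0 i hi]; omega),
        Finset.sum_const, hD.cardM, one_smul]
    rw [h0]
    have := hD.deg
    omega

lemma zz_eq_card (hD : OKW D) {n m : ℕ} (h : m ∈ blk D n D.s) : zz D n m = D.M.card := by
  unfold zz
  rw [Finset.filter_true_of_mem]
  intro x hx
  exact blk_anti (hD.M_lt x hx).le h

lemma ee_pos_mem (hD : OKW D) {n m : ℕ} (h : ee D n m ≠ 0) : m ∈ blk D n D.s := by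
  unfold ee at h
  rw [Finset.card_ne_zero] at h
  obtain ⟨x, hx⟩ := h
  rw [mem_filter] at hx
  exact blk_anti (hD.P_ge x hx.1) hx.2

lemma ee_pos_mem' (hD : OKW D) {n m : ℕ} (h : ee D n m ≠ 0) :
    m ∈ Finset.Icc (D.s * n) ((D.C - D.s) * n) := ee_pos_mem hD h

lemma ord_le_A (hD : OKW D) (n m : ℕ) : ord D n m ≤ D.A := by
  rw [ord_eq]
  by_cases h : ee D n m = 0
  · omega
  · have h1 := zz_eq_card hD (ee_pos_mem hD h)
    have h2 := ee_le (D := D) n m
    have h3 := hD.cardP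
    omega

lemma oo_le_A (hD : OKW D) (n m : ℕ) : oo D n m ≤ D.A := by
  unfold oo
  have := ord_le_A hD n m
  omega

lemma ord_nonpos_of_not_mem (hD : OKW D) {n l : ℕ} (h : l ∉ poles D n) : ord D n l ≤ 0 := by
  rw [mem_poles] at h
  rw [ord_eq]
  by_cases h0 : ee D n l = 0
  · omega
  · have h1 := zz_eq_card hD (ee_pos_mem hD h0)
    have h2 : ee D n l ≤ #{i ∈ D.P | D.h i < D.lo} := by
      unfold ee
      refine Finset.card_le_card ?_
      intro x hx
      rw [mem_filter] at hx ⊢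
      refine ⟨hx.1, ?_⟩
      by_contra hc
      exact h (blk_anti (by omega) hx.2)
    have h3 := hD.lo_ok
    have h4 := hD.cardM
    omega

lemma oo_eq_zero (hD : OKW D) {n l : ℕ} (h : l ∉ poles D n) : oo D n l = 0 := by
  unfold oo
  have := ord_nonpos_of_not_mem hD h
  omega

lemma P_le (hD : OKW D) : ∀ i ∈ D.P, 2 * D.h i ≤ D.C := fun i hi => (hD.P_lt i hi).le

lemma M_le (hD : OKW D) : ∀ i ∈ D.M, 2 * D.h i ≤ D.C := fun i hi => by
  have h1 := hD.M_lt i hi
  have h2 := hD.s_le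
  have h3 := hD.lo_lt
  omega

lemma sum_ee (hD : OKW D) (n : ℕ) :
    ∑ m ∈ II D n, ee D n m = (∑ i ∈ D.P, (D.C - 2 * D.h i)) * n + D.P.card := by
  unfold ee
  rw [sum_card_filter, sum_card_of_le n D.P (P_le hD)]

lemma sum_zz (hD : OKW D) (n : ℕ) :
    ∑ m ∈ II D n, zz D n m = (∑ i ∈ D.M, (D.C - 2 * D.h i)) * n + D.M.card := by
  unfold zz
  rw [sum_card_filter, sum_card_of_le n D.M (M_le hD)]

lemma sum_oo_ww (hD : OKW D) (n : ℕ) :
    ∑ m ∈ II D n, ww D n m + D.A ≤ ∑ m ∈ II D n, oo D n m := by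
  have h1 : ∑ m ∈ II D n, (oo D n m + zz D n m) = ∑ m ∈ II D n, (ww D n m + ee D n m) :=
    Finset.sum_congr rfl (fun m _ => oo_add_zz n m)
  rw [Finset.sum_add_distrib, Finset.sum_add_distrib, sum_ee hD, sum_zz hD] at h1
  have h2 := Nat.mul_le_mul_right n hD.deg
  have h3 := hD.cardP
  omega

/-- Abstract decomposition, in polynomial form. -/
lemma exists_pf (hD : OKW D) (n : ℕ) :
    ∃ c : ℕ → ℕ → ℚ, Nu D n = ∑ l ∈ II D n, ∑ j ∈ Finset.range (oo D n l),
      Polynomial.C (c l j) * gg l ^ j * ∏ k ∈ (II D n).erase l, gg k ^ oo D n k := by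
  obtain ⟨q, r, hr, hf⟩ := Polynomial.eq_quo_mul_prod_pow_add_sum_rem_mul_prod_pow (s := II D n)
    (Nu D n) (g := gg) (fun m _ => gg_monic m) (fun i _ j _ hij => gg_coprime hij) (oo D n)
  have hr' : ∀ l ∈ II D n, ∀ j, r l j = Polynomial.C ((r l j).coeff 0) := by
    intro l hl j
    apply Polynomial.eq_C_of_degree_le_zero
    have := hr l hl j
    rw [degree_gg] at this
    exact Nat.WithBot.lt_one_iff_le_zero.mp this
  have hDs : ∀ l ∈ II D n,
      ∑ k ∈ (II D n).erase l, oo D n k + oo D n l = ∑ k ∈ II D n, oo D n k := by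
    intro l hl
    exact Finset.sum_erase_add _ _ hl
  have hdeg1 : ∀ l ∈ II D n, ∀ j : Fin (oo D n l),
      (r l j * gg l ^ (j : ℕ) * ∏ k ∈ (II D n).erase l, gg k ^ oo D n k).natDegree
        ≤ ∑ k ∈ II D n, oo D n k - 1 := by
    intro l hl j
    refine Polynomial.natDegree_mul_le.trans ?_
    rw [natDegree_prod_gg]
    have h1 : (r l j * gg l ^ (j : ℕ)).natDegree ≤ j := by
      refine Polynomial.natDegree_mul_le.trans ?_
      rw [hr' l hl j, Polynomial.natDegree_C, (gg_monic l).natDegree_pow, natDegree_gg]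
      omega
    have h2 := hDs l hl
    have h3 := j.2
    omega
  have hdeg2 : (∑ l ∈ II D n, ∑ j : Fin (oo D n l), r l j * gg l ^ (j : ℕ) *
      ∏ k ∈ (II D n).erase l, gg k ^ oo D n k).natDegree ≤ ∑ k ∈ II D n, oo D n k - 1 := by
    refine Polynomial.natDegree_sum_le_of_forall_le _ _ (fun l hl => ?_)
    exact Polynomial.natDegree_sum_le_of_forall_le _ _ (fun j _ => hdeg1 l hl j)
  have hq : q = 0 := by
    by_contra hq
    have h1 : (q * ∏ i ∈ II D n, gg i ^ oo D n i).natDegree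
        = q.natDegree + ∑ k ∈ II D n, oo D n k := by
      rw [mul_comm, (monic_prod_gg (II D n) (oo D n)).natDegree_mul' hq, natDegree_prod_gg,
        add_comm]
    have h2 : q * ∏ i ∈ II D n, gg i ^ oo D n i = Nu D n - ∑ l ∈ II D n,
      ∑ j : Fin (oo D n l), r l j * gg l ^ (j : ℕ) *
        ∏ k ∈ (II D n).erase l, gg k ^ oo D n k := by
      rw [eq_sub_iff_add_eq]
      exact hf.symm
    have h3 := Polynomial.natDegree_sub_le (Nu D n) (∑ l ∈ II D n, ∑ j : Fin (oo D n l),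
      r l j * gg l ^ (j : ℕ) * ∏ k ∈ (II D n).erase l, gg k ^ oo D n k)
    rw [← h2, h1] at h3
    have h4 := natDegree_Nu_le (D := D) n
    have h5 := sum_oo_ww hD n
    have h7 := hD.A4
    have h6 : max (Nu D n).natDegree (∑ l ∈ II D n, ∑ j : Fin (oo D n l),
      r l j * gg l ^ (j : ℕ) * ∏ k ∈ (II D n).erase l, gg k ^ oo D n k).natDegree
        ≤ ∑ k ∈ II D n, oo D n k - 1 := max_le (by omega) hdeg2
    omega
  refine ⟨fun l j => if h : j < oo D n l then (r l ⟨j, h⟩).coeff 0 else 0, ?_⟩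
  rw [hf, hq, zero_mul, zero_add]
  refine Finset.sum_congr rfl (fun l hl => ?_)
  rw [Finset.sum_range]
  refine Finset.sum_congr rfl (fun j _ => ?_)
  beta_reduce
  rw [dif_pos j.2, ← hr' l hl j]

lemma pf_main (hD : OKW D) (n : ℕ) : Nu D n = ∑ l ∈ poles D n, ∑ j ∈ Finset.range (oo D n l),
    Polynomial.C (PowerSeries.coeff j (F D n l)) * gg l ^ j *
      ∏ k ∈ (II D n).erase l, gg k ^ oo D n k := by
  obtain ⟨c, hc⟩ := exists_pf hD n
  conv_lhs => rw [hc]
  symm
  rw [Finset.sum_subset_zero_on_sdiff (poles_subset_II n)]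
  · intro l hl
    rw [mem_sdiff] at hl
    rw [oo_eq_zero hD hl.2, Finset.sum_range_zero]
  · intro l hl
    refine Finset.sum_congr rfl (fun j hj => ?_)
    rw [mem_range] at hj
    rw [pf_coeff n c hc l (poles_subset_II n hl) j hj]

lemma sum_a (hD : OKW D) {A : Type*} [AddCommMonoid A] (u : ℚ → ℕ → A) (hu : ∀ i, u 0 i = 0)
    (n l : ℕ) :
    ∑ i ∈ Finset.Icc 1 D.A, u (a D n l i) i
      = ∑ j ∈ Finset.range (oo D n l), u (PowerSeries.coeff j (F D n l)) (oo D n l - j) := by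
  have h8 := oo_le_A hD n l
  have h1 : ∑ i ∈ Finset.Icc 1 (oo D n l), u (a D n l i) i
      = ∑ i ∈ Finset.Icc 1 D.A, u (a D n l i) i := by
    refine Finset.sum_subset (Finset.Icc_subset_Icc_right h8) ?_
    intro i hi hi'
    rw [mem_Icc] at hi hi'
    rw [a_eq_zero hi.1 (by omega), hu]
  rw [← h1]
  refine Finset.sum_nbij' (fun i => oo D n l - i) (fun j => oo D n l - j) ?_ ?_ ?_ ?_ ?_
  · intro i hi
    rw [mem_Icc] at hi
    rw [mem_range]
    omega
  · intro j hj
    rw [mem_range] at hj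
    rw [mem_Icc]
    omega
  · intro i hi
    rw [mem_Icc] at hi
    omega
  · intro j hj
    rw [mem_range] at hj
    omega
  · intro i hi
    rw [mem_Icc] at hi
    rw [a_eq n l hi.1, if_pos hi.2]
    congr 1
    omega

/-- The decomposition, cleared of denominators. -/
lemma pf_a (hD : OKW D) (n : ℕ) : Nu D n = ∑ l ∈ poles D n, ∑ i ∈ Finset.Icc 1 D.A,
    Polynomial.C (a D n l i) * gg l ^ (oo D n l - i) *
      ∏ k ∈ (II D n).erase l, gg k ^ oo D n k := by
  rw [pf_main hD]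
  refine Finset.sum_congr rfl (fun l _ => ?_)
  rw [sum_a hD (fun x i => Polynomial.C x * gg l ^ (oo D n l - i) *
    ∏ k ∈ (II D n).erase l, gg k ^ oo D n k)
    (fun i => by rw [map_zero, zero_mul, zero_mul]) n l]
  refine Finset.sum_congr rfl (fun j hj => ?_)
  rw [mem_range] at hj
  have : oo D n l - (oo D n l - j) = j := by omega
  rw [this]

lemma poles_subset_Icc (hD : OKW D) (n : ℕ) :
    poles D n ⊆ Finset.Icc (D.s * n) ((D.C - D.s) * n) := by
  have h1 := hD.s_le
  unfold poles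
  exact Finset.Icc_subset_Icc (Nat.mul_le_mul_right n h1) (Nat.mul_le_mul_right n (by omega))

theorem partial_fractions (hD : OKW D) (n : ℕ) (_hn : 0 < n) (t : ℂ)
    (ht : ∀ m ∈ Finset.Icc (D.s * n) ((D.C - D.s) * n), t + (m : ℂ) ≠ 0) :
    R D n t = ∑ l ∈ poles D n, ∑ i ∈ Finset.Icc 1 D.A, ((a D n l i : ℚ) : ℂ) / (t + l) ^ i := by
  have hDD : ∏ k ∈ II D n, (t + k) ^ oo D n k ≠ 0 := by
    rw [Finset.prod_ne_zero_iff]
    intro k _
    by_cases hk : k ∈ poles D n
    · exact pow_ne_zero _ (ht k (poles_subset_Icc hD n hk))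
    · rw [oo_eq_zero hD hk, pow_zero]
      exact one_ne_zero
  have hE : ∏ k ∈ II D n, (t + k) ^ ee D n k ≠ 0 := by
    rw [Finset.prod_ne_zero_iff]
    intro k _
    by_cases hk : ee D n k = 0
    · rw [hk, pow_zero]
      exact one_ne_zero
    · exact pow_ne_zero _ (ht k (ee_pos_mem' hD hk))
  have h1 : R D n t * ∏ k ∈ II D n, (t + k) ^ oo D n k = Polynomial.aeval t (Nu D n) := by
    unfold R
    rw [prod_blocks n D.M (fun m => t + (m : ℂ)) (II D n)
        (fun i _ => blk_subset_II n (D.h i)),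
      prod_blocks n D.P (fun m => t + (m : ℂ)) (II D n)
        (fun i _ => blk_subset_II n (D.h i)), aeval_Nu]
    have hE' : ∏ k ∈ II D n, (t + k) ^ #{i ∈ D.P | k ∈ blk D n (D.h i)} ≠ 0 := hE
    rw [div_mul_eq_mul_div, div_eq_iff hE', mul_assoc, mul_assoc _ _ (∏ k ∈ II D n,
      (t + (k : ℂ)) ^ #{i ∈ D.P | k ∈ blk D n (D.h i)}), ← Finset.prod_mul_distrib,
      ← Finset.prod_mul_distrib]
    congr 1
    refine Finset.prod_congr rfl (fun k _ => ?_)
    rw [← pow_add, ← pow_add]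
    congr 1
    have := oo_add_zz (D := D) n k
    unfold ee zz at this
    omega
  rw [← mul_left_inj' hDD, h1, pf_a hD, map_sum, Finset.sum_mul]
  refine Finset.sum_congr rfl (fun l hl => ?_)
  rw [map_sum, Finset.sum_mul]
  refine Finset.sum_congr rfl (fun i hi => ?_)
  rw [mem_Icc] at hi
  rw [map_mul, map_mul, map_pow, aeval_prod_gg, aeval_gg, Polynomial.aeval_C,
    ← Finset.mul_prod_erase _ _ (poles_subset_II n hl)]
  have hl0 : t + (l : ℂ) ≠ 0 := ht l (poles_subset_Icc hD n hl)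
  by_cases hio : i ≤ oo D n l
  · have : (t + (l : ℂ)) ^ oo D n l = (t + l) ^ i * (t + l) ^ (oo D n l - i) := by
      rw [← pow_add]
      congr 1
      omega
    rw [this, div_mul_eq_mul_div, eq_div_iff (pow_ne_zero _ hl0)]
    simp only [eq_ratCast]
    ring
  · rw [a_eq_zero hi.1 (by omega)]
    simp

theorem sum_a_one (hD : OKW D) (n : ℕ) : ∑ l ∈ poles D n, a D n l 1 = 0 := by
  have h1 : (Nu D n).coeff (∑ k ∈ II D n, oo D n k - 1) = 0 := by
    apply Polynomial.coeff_eq_zero_of_natDegree_lt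
    have h2 := natDegree_Nu_le (D := D) n
    have h3 := sum_oo_ww hD n
    have h4 := hD.A4
    omega
  rw [pf_a hD, Polynomial.finsetSum_coeff] at h1
  rw [← h1]
  refine Finset.sum_congr rfl (fun l hl => ?_)
  have hDs : ∑ k ∈ (II D n).erase l, oo D n k + oo D n l = ∑ k ∈ II D n, oo D n k :=
    Finset.sum_erase_add _ _ (poles_subset_II n hl)
  have hA4 := hD.A4
  have hA := hD.A4
  rw [Polynomial.finsetSum_coeff, Finset.sum_eq_single 1]
  · by_cases hpos : 1 ≤ oo D n l
    · rw [mul_assoc, Polynomial.coeff_C_mul]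
      have hm : (gg l ^ (oo D n l - 1) * ∏ k ∈ (II D n).erase l, gg k ^ oo D n k).Monic :=
        ((gg_monic l).pow _).mul (monic_prod_gg _ _)
      have hd : (gg l ^ (oo D n l - 1) * ∏ k ∈ (II D n).erase l, gg k ^ oo D n k).natDegree
          = ∑ k ∈ II D n, oo D n k - 1 := by
        rw [((gg_monic l).pow _).natDegree_mul (monic_prod_gg _ _), natDegree_prod_gg,
          (gg_monic l).natDegree_pow, natDegree_gg]
        omega
      have := hm.coeff_natDegree
      rw [hd] at this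
      rw [this, mul_one]
    · rw [a_eq_zero le_rfl (by omega), map_zero, zero_mul, zero_mul, Polynomial.coeff_zero]
  · intro i hi hi1
    rw [mem_Icc] at hi
    by_cases hio : i ≤ oo D n l
    · apply Polynomial.coeff_eq_zero_of_natDegree_lt
      rw [mul_assoc]
      refine lt_of_le_of_lt (Polynomial.natDegree_C_mul_le _ _) ?_
      rw [((gg_monic l).pow _).natDegree_mul (monic_prod_gg _ _), natDegree_prod_gg,
        (gg_monic l).natDegree_pow, natDegree_gg]
      omega
    · rw [a_eq_zero hi.1 (by omega), map_zero, zero_mul, zero_mul, Polynomial.coeff_zero]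
  · intro h
    exact absurd (mem_Icc.mpr ⟨le_rfl, by omega⟩) h

lemma P_leC (hD : OKW D) : ∀ i ∈ D.P, D.h i ≤ D.C := fun i hi => by
  have := P_le hD i hi
  omega

lemma M_leC (hD : OKW D) : ∀ i ∈ D.M, D.h i ≤ D.C := fun i hi => by
  have := M_le hD i hi
  omega

lemma ord_refl (hD : OKW D) (n l : ℕ) (hl : l ≤ D.C * n) : ord D n (D.C * n - l) = ord D n l := by
  unfold ord
  have h1 : {i ∈ D.P | D.C * n - l ∈ blk D n (D.h i)} = {i ∈ D.P | l ∈ blk D n (D.h i)} :=
    Finset.filter_congr (fun i hi => mem_blk_refl_iff (P_leC hD i hi) hl)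
  have h2 : {i ∈ D.M | D.C * n - l ∈ blk D n (D.h i)} = {i ∈ D.M | l ∈ blk D n (D.h i)} :=
    Finset.filter_congr (fun i hi => mem_blk_refl_iff (M_leC hD i hi) hl)
  rw [h1, h2]

lemma mem_poles_refl (hD : OKW D) {n l : ℕ} (hl : l ∈ poles D n) : D.C * n - l ∈ poles D n := by
  rw [mem_poles] at hl ⊢
  have := hD.lo_lt
  exact mem_blk_refl (by omega) hl

lemma sum_card_even (hD : OKW D) (n : ℕ) :
    (∑ i ∈ D.P, (blk D n (D.h i)).card + ∑ i ∈ D.M, (blk D n (D.h i)).card) % 2 = 0 := by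
  have h1 := sum_card_parity n D.P (P_le hD)
  have h2 := sum_card_parity n D.M (M_le hD)
  obtain ⟨b, hb⟩ := hD.Aeven
  have h3 : D.P.card * (D.C * n + 1) + D.M.card * (D.C * n + 1)
      = 2 * ((D.M.card + b) * (D.C * n + 1)) := by
    rw [hD.cardP, hb]
    ring
  omega

lemma F_refl (hD : OKW D) (n l : ℕ) (hl : l ≤ D.C * n) :
    F D n (D.C * n - l)
      = -(-1) ^ (ee D n l + zz D n l) * PowerSeries.rescale (-1 : ℚ) (F D n l) := by
  have hne : ∏ i ∈ D.P, B D n (D.h i) (D.C * n - l) ≠ 0 := by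
    intro h0
    have := constCoeff_prod_B (D := D) n (D.C * n - l) D.P
    rw [h0, map_zero] at this
    exact this rfl
  have h1 := F_mul (D := D) n (D.C * n - l)
  have h2 := congrArg (PowerSeries.rescale (-1 : ℚ)) (F_mul (D := D) n l)
  rw [map_mul, map_mul, map_mul, map_add, map_mul, rescale_C', rescale_C',
    PowerSeries.rescale_X, map_ofNat] at h2
  apply mul_right_cancel₀ hne
  rw [h1, prod_B_refl n l hl D.M (M_leC hD), prod_B_refl n l hl D.P (P_leC hD)]
  have h3 : (-1 : PowerSeries ℚ) ^ (∑ i ∈ D.M, ((blk D n (D.h i)).erase l).card)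
      = (-1) ^ (ee D n l + zz D n l) *
        (-1) ^ (∑ i ∈ D.P, ((blk D n (D.h i)).erase l).card) := by
    have e1 := sum_card_erase (D := D) n l D.M
    have e2 := sum_card_erase (D := D) n l D.P
    have e3 := sum_card_even hD n
    change _ + zz D n l = _ at e1
    change _ + ee D n l = _ at e2
    rw [← pow_add]
    apply neg_one_pow_congr
    rw [Nat.even_iff, Nat.even_iff]
    omega
  rw [h3, Nat.cast_sub hl]
  have h4 : PowerSeries.C (D.C * (n : ℚ) - 2 * (((D.C * n : ℕ) : ℚ) - l)) + 2 * PowerSeries.X =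
      -(PowerSeries.C (D.C * (n : ℚ) - 2 * (l : ℚ)) +
        2 * (PowerSeries.C (-1) * PowerSeries.X)) := by
    have : D.C * (n : ℚ) - 2 * (((D.C * n : ℕ) : ℚ) - l) = -(D.C * (n : ℚ) - 2 * (l : ℚ)) := by
      push_cast
      ring
    rw [this, map_neg, map_neg, map_one]
    ring
  rw [h4]
  linear_combination ((-1 : PowerSeries ℚ) ^ (ee D n l + zz D n l) *
    (-1) ^ (∑ i ∈ D.P, ((blk D n (D.h i)).erase l).card)) * h2

theorem a_refl (hD : OKW D) (n l i : ℕ) (hi1 : 1 ≤ i) (hl' : l ≤ D.C * n) :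
    a D n (D.C * n - l) i = (-1) ^ (i + 1) * a D n l i := by
  rw [a_eq n l hi1, a_eq n (D.C * n - l) hi1]
  have hoo : oo D n (D.C * n - l) = oo D n l := by
    unfold oo
    rw [ord_refl hD n l hl']
  rw [hoo]
  by_cases hi : i ≤ oo D n l
  · rw [if_pos hi, if_pos hi, F_refl hD n l hl']
    have h1 : -(-1 : PowerSeries ℚ) ^ (ee D n l + zz D n l)
        = PowerSeries.C (-(-1 : ℚ) ^ (ee D n l + zz D n l)) := by
      rw [map_neg, map_pow, map_neg, map_one]
    rw [h1, PowerSeries.coeff_C_mul, PowerSeries.coeff_rescale, ← mul_assoc]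
    congr 1
    rw [neg_mul, ← pow_add, pow_succ, mul_neg_one, neg_inj]
    apply neg_one_pow_congr
    rw [Nat.even_iff, Nat.even_iff]
    have h2 := oo_add_zz (D := D) n l
    rw [ww_eq_zero_of_pos (by omega)] at h2
    omega
  · rw [if_neg hi, if_neg hi, mul_zero]

theorem sum_a_even (hD : OKW D) (n i : ℕ) (hi1 : 1 ≤ i) (hi : Even i) :
    ∑ l ∈ poles D n, a D n l i = 0 := by
  have h1 : ∑ l ∈ poles D n, a D n l i = ∑ l ∈ poles D n, a D n (D.C * n - l) i := by
    refine Finset.sum_nbij' (fun m => D.C * n - m) (fun m => D.C * n - m) ?_ ?_ ?_ ?_ ?_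
    · intro m hm
      exact mem_poles_refl hD hm
    · intro m hm
      exact mem_poles_refl hD hm
    · intro m hm
      have := le_of_mem_poles hm
      omega
    · intro m hm
      have := le_of_mem_poles hm
      omega
    · intro m hm
      have := le_of_mem_poles hm
      rw [Nat.sub_sub_self this]
  have h2 : ∑ l ∈ poles D n, a D n (D.C * n - l) i = - ∑ l ∈ poles D n, a D n l i := by
    rw [← Finset.sum_neg_distrib]
    refine Finset.sum_congr rfl (fun l hl => ?_)
    rw [a_refl hD n l i hi1 (le_of_mem_poles hl), pow_succ, hi.neg_one_pow]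
    ring
  linarith

end Pool.Agent.OddZetaL.PF
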