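import Mathlib
import Pool.Agent.OddZetaL.Defs
import Pool.Agent.OddZetaL.PartFrac

set_option autoImplicit false

/-!
# Module L1: the linear forms and their positivity (`k = 0`)
Adapted from Pool.Agent.TwoOdd.SQ (helper92).  Seat: helper96.
-/

open Finset Filter Topology

namespace Pool.Agent.OddZetaL.PF

open Pool.Agent.OddZetaG

variable (D : Dat)

/-- `1 / (w + 1) ^ i` -/
noncomputable def phi (i w : ℕ) : ℝ := 1 / ((w : ℝ) + 1) ^ i

lemma phi_nonneg (i w : ℕ) : 0 ≤ phi i w := by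
  unfold phi
  positivity

lemma hasSum_phi_shift {i : ℕ} (hi : 2 ≤ i) (L : ℕ) :
    HasSum (fun w => phi i (w + L)) (tail i 0 - (Hs i L : ℝ)) := by
  rw [← tail_eq hi L]
  have h1 := (summable_tail' hi L).hasSum
  have h2 : (fun w => phi i (w + L)) = fun m : ℕ => 1 / ((m : ℝ) + L + 1) ^ i := by
    funext w
    unfold phi
    push_cast
    rfl
  rw [h2]
  exact h1

lemma sum_phi_range (i L : ℕ) : ∑ w ∈ Finset.range L, phi i w = (Hs i L : ℝ) := by
  unfold Hs phi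
  rw [Rat.cast_sum]
  refine Finset.sum_nbij' (fun w => w + 1) (fun u => u - 1) ?_ ?_ ?_ ?_ ?_
  · intro w hw
    rw [mem_range] at hw
    rw [mem_Icc]
    omega
  · intro u hu
    rw [mem_Icc] at hu
    rw [mem_range]
    omega
  · intro w _
    exact Nat.add_sub_cancel w 1
  · intro u hu
    rw [mem_Icc] at hu
    exact Nat.sub_add_cancel (by omega)
  · intro w _
    push_cast
    ring

lemma tendsto_phi : Tendsto (phi 1) atTop (𝓝 0) := by
  have h1 := tendsto_one_div_add_atTop_nhds_zero_nat (𝕜 := ℝ)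
  refine h1.congr fun w => ?_
  unfold phi
  rw [pow_one]

lemma phi_shift_le (w L : ℕ) : phi 1 (w + L) ≤ phi 1 w := by
  unfold phi
  rw [pow_one, pow_one]
  apply one_div_le_one_div_of_le
  · positivity
  · push_cast
    have : (0 : ℝ) ≤ L := Nat.cast_nonneg L
    linarith

lemma hasSum_phi_one (L : ℕ) :
    HasSum (fun w => phi 1 w - phi 1 (w + L)) (Hs 1 L : ℝ) := by
  refine (hasSum_iff_tendsto_nat_of_nonneg (fun w => sub_nonneg.2 (phi_shift_le w L)) _).2 ?_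
  have h1 : ∀ N : ℕ, ∑ w ∈ Finset.range N, (phi 1 w - phi 1 (w + L)) =
      (Hs 1 L : ℝ) - ∑ k ∈ Finset.range L, phi 1 (N + k) := by
    intro N
    rw [← sum_phi_range, Finset.sum_sub_distrib]
    have h2 := Finset.sum_range_add (phi 1) N L
    have h3 := Finset.sum_range_add (phi 1) L N
    rw [add_comm L N] at h3
    have h4 : ∑ w ∈ Finset.range N, phi 1 (w + L) = ∑ w ∈ Finset.range N, phi 1 (L + w) :=
      Finset.sum_congr rfl fun w _ => by rw [add_comm]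
    rw [h4]
    linarith
  have h2 : Tendsto (fun N : ℕ => (Hs 1 L : ℝ) - ∑ k ∈ Finset.range L, phi 1 (N + k))
      atTop (𝓝 ((Hs 1 L : ℝ) - ∑ k ∈ Finset.range L, 0)) := by
    refine tendsto_const_nhds.sub (tendsto_finsetSum _ fun k _ => ?_)
    exact tendsto_phi.comp (tendsto_add_atTop_nat k)
  rw [Finset.sum_const_zero, sub_zero] at h2
  exact h2.congr fun N => (h1 N).symm

variable {D}

lemma RR_cast (n : ℕ) (t : ℝ) : ((RR D n t : ℝ) : ℂ) = R D n (t : ℂ) := by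
  unfold RR R
  push_cast
  rfl

lemma pf_real (hD : OKL D) (n : ℕ) (hn : 0 < n) (t : ℝ)
    (ht : ∀ m ∈ Finset.Icc (D.s * n) ((D.C - D.s) * n), t + (m : ℝ) ≠ 0) :
    RR D n t = ∑ l ∈ poles D n, ∑ i ∈ Finset.Icc 1 D.A, ((a D n l i : ℚ) : ℝ) / (t + l) ^ i := by
  apply Complex.ofReal_injective
  rw [RR_cast, PF.partial_fractions (OKW_of hD) n hn]
  · push_cast
    rfl
  · intro m hm h0
    apply ht m hm
    exact_mod_cast h0

lemma sn_le (hD : OKL D) {n l : ℕ} (hl : l ∈ poles D n) : D.s * n ≤ l := by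
  unfold poles at hl
  rw [mem_Icc, hD.lo_eq] at hl
  exact hl.1

lemma RR_shift (hD : OKL D) (n w : ℕ) (hn : 0 < n) :
    RR D n ((w : ℝ) + 1 - (D.s * n : ℕ)) = ∑ l ∈ poles D n, ∑ i ∈ Finset.Icc 1 D.A,
      ((a D n l i : ℚ) : ℝ) * phi i (w + (l - D.s * n)) := by
  rw [pf_real hD n hn]
  · refine Finset.sum_congr rfl fun l hl => Finset.sum_congr rfl fun i _ => ?_
    unfold phi
    rw [Nat.cast_add, Nat.cast_sub (sn_le hD hl), mul_one_div]
    congr 2
    ring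
  · intro m hm h0
    rw [mem_Icc] at hm
    have h1 : ((w : ℝ) + 1) + m = (D.s * n : ℕ) := by linarith
    have h2 : w + 1 + m = D.s * n := by exact_mod_cast h1
    omega

lemma RR_shift' (hD : OKL D) (n w : ℕ) (hn : 0 < n) :
    RR D n ((w : ℝ) + 1 - (D.s * n : ℕ)) = ∑ l ∈ poles D n,
      (((a D n l 1 : ℚ) : ℝ) * -(phi 1 w - phi 1 (w + (l - D.s * n))) +
        ∑ i ∈ Finset.Icc 2 D.A, ((a D n l i : ℚ) : ℝ) * phi i (w + (l - D.s * n))) := by
  have hA := hD.A4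
  rw [RR_shift hD n w hn]
  have h1 : ∀ l : ℕ, ∑ i ∈ Finset.Icc 1 D.A, ((a D n l i : ℚ) : ℝ) * phi i (w + (l - D.s * n)) =
      ((a D n l 1 : ℚ) : ℝ) * phi 1 (w + (l - D.s * n)) +
      ∑ i ∈ Finset.Icc 2 D.A, ((a D n l i : ℚ) : ℝ) * phi i (w + (l - D.s * n)) := by
    intro l
    rw [← Finset.add_sum_Ioc_eq_sum_Icc (by omega : 1 ≤ D.A)]
    rfl
  have h2 : ∑ l ∈ poles D n, (((a D n l 1 : ℚ) : ℝ) * phi 1 w) = 0 := by
    rw [← Finset.sum_mul, ← Rat.cast_sum, PF.sum_a_one (OKW_of hD) n, Rat.cast_zero, zero_mul]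
  have h4 : ∑ l ∈ poles D n, ∑ i ∈ Finset.Icc 1 D.A,
      ((a D n l i : ℚ) : ℝ) * phi i (w + (l - D.s * n)) =
      ∑ l ∈ poles D n, ∑ i ∈ Finset.Icc 1 D.A,
      ((a D n l i : ℚ) : ℝ) * phi i (w + (l - D.s * n)) -
      ∑ l ∈ poles D n, (((a D n l 1 : ℚ) : ℝ) * phi 1 w) := by
    rw [h2, sub_zero]
  rw [h4, ← Finset.sum_sub_distrib]
  refine Finset.sum_congr rfl fun l _ => ?_
  rw [h1 l]
  ring

/-- the sum of the local contributions -/
noncomputable def tot (D : Dat) (n : ℕ) : ℝ := ∑ l ∈ poles D n,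
      (((a D n l 1 : ℚ) : ℝ) * -(Hs 1 (l - D.s * n) : ℝ) +
        ∑ i ∈ Finset.Icc 2 D.A, ((a D n l i : ℚ) : ℝ) *
          (tail i 0 - (Hs i (l - D.s * n) : ℝ)))

lemma hasSum_RR_shift (hD : OKL D) (n : ℕ) (hn : 0 < n) :
    HasSum (fun w : ℕ => RR D n ((w : ℝ) + 1 - (D.s * n : ℕ))) (tot D n) := by
  have h2 : (fun w : ℕ => RR D n ((w : ℝ) + 1 - (D.s * n : ℕ))) = fun w => ∑ l ∈ poles D n,
      (((a D n l 1 : ℚ) : ℝ) * -(phi 1 w - phi 1 (w + (l - D.s * n))) +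
        ∑ i ∈ Finset.Icc 2 D.A, ((a D n l i : ℚ) : ℝ) * phi i (w + (l - D.s * n))) := by
    funext w
    exact RR_shift' hD n w hn
  rw [h2]
  unfold tot
  refine hasSum_sum fun l _ => HasSum.add ?_ ?_
  · exact ((hasSum_phi_one (l - D.s * n)).neg).mul_left _
  · refine hasSum_sum fun i hi => HasSum.mul_left _ ?_
    rw [mem_Icc] at hi
    exact hasSum_phi_shift hi.1 (l - D.s * n)

lemma RR_zero (hD : OKL D) (n w : ℕ) (hw : w < D.s * n) :
    RR D n ((w : ℝ) + 1 - (D.s * n : ℕ)) = 0 := by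
  have hM : D.M.Nonempty := by
    rw [← Finset.card_pos, hD.cardM]
    exact Nat.one_pos
  obtain ⟨i, hi⟩ := hM
  have hs : 2 * D.s < D.C := by
    obtain ⟨i, hi, hs⟩ := hD.s_mem
    rw [← hs]
    exact hD.P_lt i hi
  have h0 : (∏ i ∈ D.M, ∏ m ∈ blk D n (D.h i), ((w : ℝ) + 1 - (D.s * n : ℕ) + m)) = 0 := by
    apply Finset.prod_eq_zero hi
    have hm : D.s * n - (w + 1) ∈ blk D n (D.h i) := by
      unfold blk
      rw [mem_Icc, hD.M0 i hi, zero_mul, Nat.sub_zero]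
      refine ⟨Nat.zero_le _, ?_⟩
      have : D.s * n ≤ D.C * n := Nat.mul_le_mul_right n (by omega)
      omega
    apply Finset.prod_eq_zero hm
    rw [Nat.cast_sub (by omega)]
    push_cast
    ring
  unfold RR
  rw [h0, mul_zero, zero_div]

lemma hasSum_SL (hD : OKL D) (n : ℕ) (hn : 0 < n) :
    HasSum (fun t : ℕ => RR D n ((t : ℝ) + 1)) (tot D n) := by
  have h1 := hasSum_RR_shift hD n hn
  have h2 := (hasSum_nat_add_iff (f := fun w : ℕ => RR D n ((w : ℝ) + 1 - (D.s * n : ℕ)))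
    (D.s * n) (g := tot D n)).2 (by
      rw [Finset.sum_eq_zero (fun w hw => RR_zero hD n w (mem_range.mp hw)), add_zero]
      exact h1)
  refine h2.congr_fun ?_
  intro t
  congr 1
  push_cast
  ring

end Pool.Agent.OddZetaL.PF

namespace Pool.Agent.OddZetaL

open Pool.Agent.OddZetaG Pool.Agent.OddZetaL.PF

variable (D : Dat)

theorem SL_eq (hD : OKL D) (n : ℕ) (hn : 0 < n) :
    SL D n = (rho0 D n : ℝ) + ∑ j ∈ Js D, (rho D n j : ℝ) * tail j 0 := by
  have hA := hD.A4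
  have hk := hD.k0
  have h1 : SL D n = tot D n := (hasSum_SL hD n hn).tsum_eq
  have h2 : ∀ l : ℕ, (((a D n l 1 : ℚ) : ℝ) * -(Hs 1 (l - D.s * n) : ℝ) +
        ∑ i ∈ Finset.Icc 2 D.A, ((a D n l i : ℚ) : ℝ) *
          (tail i 0 - (Hs i (l - D.s * n) : ℝ))) =
      (T D n l : ℝ) + ∑ i ∈ Finset.Icc 2 D.A, ((a D n l i : ℚ) : ℝ) * tail i 0 := by
    intro l
    unfold T
    rw [hk, ← Finset.add_sum_Ioc_eq_sum_Icc (by omega : 1 ≤ D.A)]
    have h3 : Finset.Ioc 1 D.A = Finset.Icc 2 D.A := rfl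
    rw [h3]
    simp only [Nat.choose_zero_right, Nat.cast_one, mul_one, add_zero]
    push_cast
    simp only [mul_sub, Finset.sum_sub_distrib]
    ring
  rw [h1]
  unfold tot
  rw [Finset.sum_congr rfl fun l _ => h2 l, Finset.sum_add_distrib]
  have h0 : (rho0 D n : ℝ) = ∑ l ∈ poles D n, (T D n l : ℝ) := by
    unfold rho0
    rw [Rat.cast_sum]
  rw [h0]
  congr 1
  rw [Finset.sum_comm]
  have h5 : ∀ j, rho D n j = ∑ l ∈ poles D n, a D n l j := by
    intro j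
    unfold rho
    rw [hk]
    simp only [Nat.choose_zero_right, Nat.cast_one, mul_one, Nat.sub_zero]
  have h4 : ∀ i ∈ Finset.Icc 2 D.A,
      ∑ l ∈ poles D n, ((a D n l i : ℚ) : ℝ) * tail i 0 = (rho D n i : ℝ) * tail i 0 := by
    intro i _
    rw [h5, Rat.cast_sum, Finset.sum_mul]
  rw [Finset.sum_congr rfl h4]
  symm
  refine Finset.sum_subset ?_ ?_
  · intro j hj
    unfold Js at hj
    rw [mem_filter, mem_Icc, hk] at hj
    rw [mem_Icc]
    omega
  · intro j hj hj'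
    rw [mem_Icc] at hj
    have he : Even j := by
      by_contra ho
      rw [Nat.not_even_iff_odd] at ho
      apply hj'
      unfold Js
      rw [mem_filter, mem_Icc, hk]
      obtain ⟨r, hr⟩ := ho
      exact ⟨by omega, ⟨r, hr⟩⟩
    have : rho D n j = 0 := by
      rw [h5]
      exact PF.sum_a_even (OKW_of hD) n j (by omega) he
    rw [this, Rat.cast_zero, zero_mul]

theorem SL_pos (hD : OKL D) (n : ℕ) (hn : 0 < n) : 0 < SL D n := by
  have hpos : ∀ t : ℕ, 0 < RR D n ((t : ℝ) + 1) := by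
    intro t
    have ht : (0 : ℝ) < (t : ℝ) + 1 := by positivity
    have hK : (0 : ℝ) < (K D n : ℝ) := by
      unfold K
      push_cast
      positivity
    unfold RR
    have h1 : ∀ i, (0 : ℝ) < ∏ m ∈ blk D n (D.h i), ((t : ℝ) + 1 + m) := fun i =>
      Finset.prod_pos fun m _ => by positivity
    have h2 : (0 : ℝ) < ∏ i ∈ D.M, ∏ m ∈ blk D n (D.h i), ((t : ℝ) + 1 + m) :=
      Finset.prod_pos fun i _ => h1 i
    have h3 : (0 : ℝ) < ∏ i ∈ D.P, ∏ m ∈ blk D n (D.h i), ((t : ℝ) + 1 + m) :=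
      Finset.prod_pos fun i _ => h1 i
    positivity
  unfold SL
  exact (hasSum_SL hD n hn).summable.tsum_pos (fun t => (hpos t).le) 0 (hpos 0)

end Pool.Agent.OddZetaL
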