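import Pool.Agent.OddZetaL.Defs
import Pool.Agent.OddZetaG.RealSize

/-!
# Size of `SL D n`   (module L4)

Seat: helper55.
-/

set_option autoImplicit false

open Finset

namespace Pool.Agent.OddZetaL

open Pool.Agent.OddZetaG

/-- telescoping of a shifted product -/
theorem prod_shift (x : ℝ) (a k : ℕ) :
    (∏ i ∈ range (k + 1), (x + 1 + ((a + i : ℕ) : ℝ))) * (x + a) =
      (∏ i ∈ range (k + 1), (x + ((a + i : ℕ) : ℝ))) * (x + a + k + 1) := by
  have h1 : ∏ i ∈ range (k + 2), (x + ((a + i : ℕ) : ℝ)) =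
      (∏ i ∈ range (k + 1), (x + 1 + ((a + i : ℕ) : ℝ))) * (x + a) := by
    rw [Finset.prod_range_succ']
    congr 1
    refine Finset.prod_congr rfl fun i _ => ?_
    push_cast
    ring
  rw [← h1, Finset.prod_range_succ]
  push_cast
  ring

variable (D : Dat)

/-- the product over a block -/
noncomputable def pb (n h : ℕ) (x : ℝ) : ℝ := ∏ m ∈ blk D n h, (x + (m : ℝ))

theorem pb_eq (n h : ℕ) (hh : 2 * h ≤ D.C) (x : ℝ) :
    pb D n h x = ∏ i ∈ range (Nl D n h + 1), (x + ((h * n + i : ℕ) : ℝ)) := by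
  unfold pb
  rw [prod_blkR D n h hh (fun m => x + (m : ℝ))]

theorem pb_pos (n h : ℕ) {x : ℝ} (hx : 0 < x) : 0 < pb D n h x :=
  Finset.prod_pos fun m _ => by positivity

theorem Nl_castR (n h : ℕ) (hh : 2 * h ≤ D.C) : (Nl D n h : ℝ) = ((D.C : ℝ) - 2 * h) * n := by
  unfold Nl
  push_cast [Nat.cast_sub hh]
  ring

theorem pb_succ (n h : ℕ) (hh : 2 * h ≤ D.C) (x : ℝ) :
    pb D n h (x + 1) * (x + h * n) = pb D n h x * (x + ((D.C : ℝ) - h) * n + 1) := by
  have h1 := prod_shift x (h * n) (Nl D n h)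
  rw [← pb_eq D n h hh, ← pb_eq D n h hh, Nl_castR D n h hh] at h1
  push_cast at h1
  rw [h1]
  ring

/-- the exponential inequality for one pole block -/
theorem pb_succ_ge (n h : ℕ) (hn : 0 < n) (hh : 2 * h < D.C) {x : ℝ} (hx : 0 < x) :
    pb D n h x * Real.exp (2 * ((D.C : ℝ) - 2 * h) * n / (2 * x + D.C * n)) ≤ pb D n h (x + 1) := by
  have hn0 : (0 : ℝ) < n := by exact_mod_cast hn
  have hh' : (2 : ℝ) * h < D.C := by exact_mod_cast hh
  have hh0 : (0 : ℝ) ≤ h := Nat.cast_nonneg h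
  set a : ℝ := x + h * n with ha
  set b : ℝ := x + ((D.C : ℝ) - h) * n with hb
  have ha0 : 0 < a := by positivity
  have hab : b - a = ((D.C : ℝ) - 2 * h) * n := by rw [ha, hb]; ring
  have hab' : a + b = 2 * x + D.C * n := by rw [ha, hb]; ring
  have hba0 : 0 < b - a := by
    rw [hab]
    have : (0 : ℝ) < (D.C : ℝ) - 2 * h := by linarith
    positivity
  have h1 := Real.le_log_one_add_of_nonneg (x := (b - a) / a) (by positivity)
  have h2 : 2 * ((b - a) / a) / ((b - a) / a + 2) = 2 * (b - a) / (a + b) := by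
    have : b - a + 2 * a ≠ 0 := by linarith
    have h3 : a + b ≠ 0 := by linarith
    field_simp
    ring
  have h3 : 1 + (b - a) / a = b / a := by field_simp; ring
  rw [h2, h3] at h1
  have hb0 : 0 < b := by linarith
  have h4 : Real.exp (2 * ((D.C : ℝ) - 2 * h) * n / (2 * x + D.C * n)) ≤ b / a := by
    rw [← Real.le_log_iff_exp_le (by positivity)]
    refine le_trans (le_of_eq ?_) h1
    rw [hab, hab']
    ring
  have h5 := pb_succ D n h hh.le x
  rw [← ha, ← hb] at h5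
  have h6 : pb D n h (x + 1) = pb D n h x * ((b + 1) / a) := by
    field_simp
    linarith
  rw [h6]
  refine mul_le_mul_of_nonneg_left (h4.trans ?_) (pb_pos D n h hx).le
  gcongr
  linarith

/-- `RR` in terms of block products -/
theorem RR_eq (n : ℕ) (x : ℝ) : RR D n x =
    (K D n : ℝ) * (2 * x + D.C * n) * (∏ i ∈ D.M, pb D n (D.h i) x) / ∏ i ∈ D.P, pb D n (D.h i) x :=
  rfl

theorem K_pos (n : ℕ) : (0 : ℝ) < (K D n : ℝ) := by
  unfold K
  have : (0 : ℚ) < (∏ i ∈ D.P, ((Nl D n (D.h i)).factorial : ℚ)) / ∏ i ∈ D.M, ((Nl D n (D.h i)).factorial : ℚ) := by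
    positivity
  exact_mod_cast this

theorem RR_pos (n : ℕ) {x : ℝ} (hx : 0 < x) : 0 < RR D n x := by
  rw [RR_eq]
  have h1 : 0 < ∏ i ∈ D.M, pb D n (D.h i) x := Finset.prod_pos fun i _ => pb_pos D n _ hx
  have h2 : 0 < ∏ i ∈ D.P, pb D n (D.h i) x := Finset.prod_pos fun i _ => pb_pos D n _ hx
  have h3 := K_pos D n
  positivity

/-- ratio bound -/
theorem RR_ratio (hD : OKL D) (hdeg : 4 * D.C ≤ ∑ i ∈ D.P, (D.C - 2 * D.h i)) (n : ℕ) (hn : 0 < n)
    {x : ℝ} (hx : 0 < x) :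
    RR D n (x + 1) ≤ RR D n x * (((x + 1) / x) * (((x + 1 + D.C * n) / x) *
      Real.exp (-(8 * D.C * n / (2 * x + D.C * n))))) := by
  have hn0 : (0 : ℝ) < n := by exact_mod_cast hn
  obtain ⟨i0, hi0⟩ := Finset.card_eq_one.1 hD.cardM
  have hh0 : D.h i0 = 0 := hD.M0 i0 (by rw [hi0]; exact Finset.mem_singleton_self _)
  rw [RR_eq, RR_eq, hi0, Finset.prod_singleton, Finset.prod_singleton, hh0]
  have hM := pb_succ D n 0 (by omega) x
  simp only [Nat.cast_zero, zero_mul, add_zero, sub_zero] at hM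
  have hM' : pb D n 0 (x + 1) = pb D n 0 x * ((x + 1 + D.C * n) / x) := by
    field_simp
    linarith
  have hC0 : (0 : ℝ) ≤ D.C := Nat.cast_nonneg _
  have hden : 0 < 2 * x + D.C * n := by positivity
  have hP : (∏ i ∈ D.P, pb D n (D.h i) x) * Real.exp (8 * D.C * n / (2 * x + D.C * n)) ≤
      ∏ i ∈ D.P, pb D n (D.h i) (x + 1) := by
    have h1 : ∏ i ∈ D.P, (pb D n (D.h i) x *
        Real.exp (2 * ((D.C : ℝ) - 2 * D.h i) * n / (2 * x + D.C * n))) ≤
        ∏ i ∈ D.P, pb D n (D.h i) (x + 1) := by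
      refine Finset.prod_le_prod (fun i _ => ?_) fun i hi => pb_succ_ge D n _ hn (hD.P_lt i hi) hx
      have := pb_pos D n (D.h i) hx
      positivity
    rw [Finset.prod_mul_distrib, ← Real.exp_sum] at h1
    refine le_trans ?_ h1
    have h2 : 0 < ∏ i ∈ D.P, pb D n (D.h i) x := Finset.prod_pos fun i _ => pb_pos D n _ hx
    refine mul_le_mul_of_nonneg_left (Real.exp_le_exp.2 ?_) h2.le
    rw [← Finset.sum_div]
    refine div_le_div_of_nonneg_right ?_ hden.le
    have h3 : (4 : ℝ) * D.C ≤ ∑ i ∈ D.P, ((D.C : ℝ) - 2 * D.h i) := by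
      have h4 : ((4 * D.C : ℕ) : ℝ) ≤ ((∑ i ∈ D.P, (D.C - 2 * D.h i) : ℕ) : ℝ) := by
        exact_mod_cast hdeg
      rw [Nat.cast_sum] at h4
      push_cast at h4
      refine h4.trans (le_of_eq (Finset.sum_congr rfl fun i hi => ?_))
      rw [Nat.cast_sub (hD.P_lt i hi).le]
      push_cast
      ring
    have h5 : ∑ i ∈ D.P, 2 * ((D.C : ℝ) - 2 * D.h i) * n =
        2 * n * ∑ i ∈ D.P, ((D.C : ℝ) - 2 * D.h i) := by
      rw [Finset.mul_sum]
      exact Finset.sum_congr rfl fun i _ => by ring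
    rw [h5]
    nlinarith
  have hPpos : 0 < ∏ i ∈ D.P, pb D n (D.h i) x := Finset.prod_pos fun i _ => pb_pos D n _ hx
  have hMpos := pb_pos D n 0 hx
  have hKpos := K_pos D n
  have hlin : 2 * (x + 1) + D.C * n ≤ (2 * x + D.C * n) * ((x + 1) / x) := by
    rw [mul_div_assoc', le_div_iff₀ hx]
    nlinarith [mul_nonneg hC0 hn0.le]
  rw [hM']
  have hE : 0 < Real.exp (8 * D.C * n / (2 * x + D.C * n)) := Real.exp_pos _
  calc (K D n : ℝ) * (2 * (x + 1) + D.C * n) * (pb D n 0 x * ((x + 1 + D.C * n) / x)) /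
        ∏ i ∈ D.P, pb D n (D.h i) (x + 1)
      ≤ (K D n : ℝ) * ((2 * x + D.C * n) * ((x + 1) / x)) *
        (pb D n 0 x * ((x + 1 + D.C * n) / x)) /
        ((∏ i ∈ D.P, pb D n (D.h i) x) * Real.exp (8 * D.C * n / (2 * x + D.C * n))) := by
        gcongr
    _ = _ := by
        rw [Real.exp_neg]
        field_simp

/-- exponent of one pole block -/
noncomputable def sizeh (C h : ℕ) : ℝ :=
  ((C - h : ℕ) : ℝ) * Real.log ((C - h : ℕ) : ℝ) - (h : ℝ) * Real.log h
    - ((C - 2 * h : ℕ) : ℝ) * Real.log ((C - 2 * h : ℕ) : ℝ)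

theorem block_one (n h : ℕ) (hn : 0 < n) (hh0 : 0 < h) (hh : 2 * h < D.C) {Y : ℝ}
    (hY : (D.C : ℝ) * n + 1 ≤ Y) :
    ((Nl D n h).factorial : ℝ) / pb D n h 1 ≤
      Real.exp (-(n * sizeh D.C h) + 2 * (Real.log Y + 1)) := by
  have hn0 : (0 : ℝ) < n := by exact_mod_cast hn
  set N := Nl D n h with hN
  have hNn : N = (D.C - 2 * h) * n := rfl
  have hsum : h * n + N = (D.C - h) * n := by
    rw [hNn, ← Nat.add_mul]
    congr 1
    omega
  have hpb : pb D n h 1 = ((h * n + (N + 1)).factorial : ℝ) / (h * n).factorial := by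
    rw [pb_eq D n h hh.le, ← asc_cast]
    refine Finset.prod_congr rfl fun i _ => ?_
    push_cast
    ring
  have hCn : ((D.C * n : ℕ) : ℝ) + 1 ≤ Y := by push_cast; exact hY
  have hle : ∀ m : ℕ, m ≤ D.C * n → (m : ℝ) + 1 ≤ Y := by
    intro m hm
    have : (m : ℝ) ≤ ((D.C * n : ℕ) : ℝ) := by exact_mod_cast hm
    linarith
  have b1 := fact_leR N (hle N (Nat.mul_le_mul_right n (by omega)))
  have b2 := fact_leR (h * n) (hle _ (Nat.mul_le_mul_right n (by omega)))
  have b3 := fact_geR ((D.C - h) * n)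
  have b4 : (((D.C - h) * n).factorial : ℝ) ≤ (h * n + (N + 1)).factorial := by
    rw [← hsum]
    exact_mod_cast Nat.factorial_le (by omega)
  calc (N.factorial : ℝ) / pb D n h 1
      = N.factorial * (h * n).factorial / (h * n + (N + 1)).factorial := by
        rw [hpb]
        have h1 : ((h * n + (N + 1)).factorial : ℝ) ≠ 0 := by positivity
        have h2 : ((h * n).factorial : ℝ) ≠ 0 := by positivity
        field_simp
    _ ≤ Real.exp (N * Real.log N - N + (Real.log Y + 1)) *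
          Real.exp (((h * n : ℕ) : ℝ) * Real.log ((h * n : ℕ) : ℝ) - ((h * n : ℕ) : ℝ) + (Real.log Y + 1)) /
          Real.exp ((((D.C - h) * n : ℕ) : ℝ) * Real.log (((D.C - h) * n : ℕ) : ℝ) -
            (((D.C - h) * n : ℕ) : ℝ)) := by
        have := b3.trans b4
        gcongr
    _ = _ := by
        rw [← Real.exp_add, ← Real.exp_sub]
        congr 1
        have hh0' : (0 : ℝ) < h := by exact_mod_cast hh0
        have c1 : ((D.C - h : ℕ) : ℝ) = (D.C : ℝ) - h := by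
          rw [Nat.cast_sub (by omega)]
        have c2 : ((D.C - 2 * h : ℕ) : ℝ) = (D.C : ℝ) - 2 * h := by
          rw [Nat.cast_sub hh.le]; push_cast; ring
        have hh' : (2 : ℝ) * h < D.C := by exact_mod_cast hh
        have p1 : (0 : ℝ) < (D.C : ℝ) - h := by linarith
        have p2 : (0 : ℝ) < (D.C : ℝ) - 2 * h := by linarith
        have c3 : (N : ℝ) = ((D.C : ℝ) - 2 * h) * n := by rw [hNn]; push_cast [c2]; ring
        unfold sizeh
        rw [c3]
        push_cast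
        rw [c1, c2, Real.log_mul p2.ne' hn0.ne', Real.log_mul hh0'.ne' hn0.ne',
          Real.log_mul p1.ne' hn0.ne']
        ring

/-- the first term -/
theorem RR_one_le (hD : OKL D) (n : ℕ) (hn : 0 < n) :
    RR D n 1 ≤ (((D.C : ℝ) + 2) * (n + 1)) ^ (2 + 2 * D.P.card) * Real.exp 1 ^ (2 * D.P.card) *
      Real.exp (-(n * sizeE D)) := by
  have hn0 : (0 : ℝ) < n := by exact_mod_cast hn
  obtain ⟨i0, hi0⟩ := Finset.card_eq_one.1 hD.cardM
  have hh0 : D.h i0 = 0 := hD.M0 i0 (by rw [hi0]; exact Finset.mem_singleton_self _)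
  have hC0 : (0 : ℝ) ≤ D.C := Nat.cast_nonneg _
  set Y : ℝ := ((D.C : ℝ) + 2) * (n + 1) with hY
  have hY1 : (D.C : ℝ) * n + 2 ≤ Y := by rw [hY]; nlinarith
  have hY0 : 0 < Y := by rw [hY]; positivity
  have hNl0 : Nl D n 0 = D.C * n := by unfold Nl; simp
  have hM : pb D n 0 1 = (((D.C * n + 1 : ℕ)).factorial : ℝ) := by
    have h1 := asc_cast 0 (D.C * n + 1)
    rw [Nat.factorial_zero, Nat.cast_one, div_one, Nat.zero_add] at h1
    rw [pb_eq D n 0 (by omega), hNl0, ← h1]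
    refine Finset.prod_congr rfl fun i _ => ?_
    push_cast
    ring
  have hK : (K D n : ℝ) = (∏ i ∈ D.P, ((Nl D n (D.h i)).factorial : ℝ)) / ((D.C * n).factorial : ℝ) := by
    unfold K
    rw [hi0, Finset.prod_singleton, hh0, hNl0]
    push_cast
    rfl
  have hP : ∏ i ∈ D.P, (((Nl D n (D.h i)).factorial : ℝ) / pb D n (D.h i) 1) ≤
      ∏ i ∈ D.P, Real.exp (-(n * sizeh D.C (D.h i)) + 2 * (Real.log Y + 1)) := by
    refine Finset.prod_le_prod (fun i _ => ?_) fun i hi => ?_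
    · have := pb_pos D n (D.h i) (x := 1) one_pos
      positivity
    · exact block_one D n (D.h i) hn (lt_of_lt_of_le hD.spos (hD.P_ge i hi)) (hD.P_lt i hi)
        (by linarith)
  rw [← Real.exp_sum, Finset.sum_add_distrib, Finset.sum_const, Finset.sum_neg_distrib,
    ← Finset.mul_sum, Finset.prod_div_distrib] at hP
  have hS : ∑ i ∈ D.P, sizeh D.C (D.h i) = sizeE D := rfl
  rw [hS] at hP
  have hfac : (((D.C * n + 1 : ℕ)).factorial : ℝ) = (D.C * n + 1) * ((D.C * n).factorial : ℝ) := by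
    rw [Nat.factorial_succ]; push_cast; ring
  have hPpb : 0 < ∏ i ∈ D.P, pb D n (D.h i) 1 := Finset.prod_pos fun i _ => pb_pos D n _ one_pos
  have hpf : 0 < ∏ i ∈ D.P, ((Nl D n (D.h i)).factorial : ℝ) :=
    Finset.prod_pos fun i _ => by positivity
  rw [RR_eq, hi0, Finset.prod_singleton, hh0, hM, hK, hfac]
  have hf0 : ((D.C * n).factorial : ℝ) ≠ 0 := by positivity
  calc (∏ i ∈ D.P, ((Nl D n (D.h i)).factorial : ℝ)) / ((D.C * n).factorial : ℝ) * (2 * 1 + D.C * n) *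
        ((D.C * n + 1) * ((D.C * n).factorial : ℝ)) / ∏ i ∈ D.P, pb D n (D.h i) 1
      = ((2 + D.C * n) * (D.C * n + 1)) *
        ((∏ i ∈ D.P, ((Nl D n (D.h i)).factorial : ℝ)) / ∏ i ∈ D.P, pb D n (D.h i) 1) := by
        field_simp
    _ ≤ (Y * Y) * Real.exp (-(n * sizeE D) + D.P.card • (2 * (Real.log Y + 1))) := by
        gcongr
        · linarith
        · linarith
    _ = _ := by
        rw [Real.exp_add, nsmul_eq_mul]
        have e1 : (D.P.card : ℝ) * (2 * (Real.log Y + 1)) = ((2 * D.P.card : ℕ) : ℝ) * (Real.log Y + 1) := by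
          push_cast; ring
        rw [e1, Real.exp_nat_mul, Real.exp_add, Real.exp_log hY0, mul_pow, pow_add]
        ring

/-! ### the two ranges -/

theorem C_ge (hD : OKL D) : 3 ≤ D.C := by
  obtain ⟨i, hi, hs⟩ := hD.s_mem
  have h1 := hD.P_lt i hi
  have h2 := hD.spos
  omega

/-- numerical: `(C + 1) exp (- 8 C / (C + 2)) ≤ 1 / 2` for `3 ≤ C ≤ 1000` -/
theorem num_small {C : ℝ} (h3 : 3 ≤ C) (h4 : C ≤ 1000) :
    (C + 1) * Real.exp (-(8 * C / (C + 2))) ≤ 1 / 2 := by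
  have hC2 : 0 < C + 2 := by linarith
  have h6 := Real.exp_one_gt_d9
  rcases le_or_gt 62 C with h | h
  · have h1 : -(8 * C / (C + 2)) ≤ -(7 + 3 / 4) := by
      rw [neg_le_neg_iff, le_div_iff₀ hC2]
      linarith
    have h2 : Real.exp (-(8 * C / (C + 2))) ≤ Real.exp (-(7 + 3 / 4)) := Real.exp_le_exp.2 h1
    have h5 : Real.exp (-(7 + 3 / 4)) ≤ 1 / 2002 := by
      rw [Real.exp_neg, inv_eq_one_div]
      apply one_div_le_one_div_of_le (by norm_num)
      have h7 : Real.exp 7 = Real.exp 1 ^ 7 := by rw [← Real.exp_nat_mul]; norm_num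
      have h8 := Real.quadratic_le_exp_of_nonneg (show (0 : ℝ) ≤ 3 / 4 by norm_num)
      rw [Real.exp_add, h7]
      calc (2002 : ℝ) ≤ 2.7182818283 ^ 7 * (1 + 3 / 4 + (3 / 4) ^ 2 / 2) := by norm_num
        _ ≤ Real.exp 1 ^ 7 * Real.exp (3 / 4) :=
          mul_le_mul (pow_le_pow_left₀ (by norm_num) h6.le 7) h8 (by norm_num) (by positivity)
    calc (C + 1) * Real.exp (-(8 * C / (C + 2))) ≤ 1001 * (1 / 2002) := by
          gcongr
          · linarith
          · exact h2.trans h5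
      _ = 1 / 2 := by norm_num
  · rcases le_or_gt 14 C with h' | h'
    · have h1 : -(8 * C / (C + 2)) ≤ -7 := by
        rw [neg_le_neg_iff, le_div_iff₀ hC2]
        linarith
      have h2 : Real.exp (-(8 * C / (C + 2))) ≤ Real.exp (-7) := Real.exp_le_exp.2 h1
      have h5 : Real.exp (-7) ≤ 1 / 126 := by
        rw [Real.exp_neg, inv_eq_one_div]
        apply one_div_le_one_div_of_le (by norm_num)
        have h7 : Real.exp 7 = Real.exp 1 ^ 7 := by rw [← Real.exp_nat_mul]; norm_num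
        rw [h7]
        calc (126 : ℝ) ≤ 2.7182818283 ^ 7 := by norm_num
          _ ≤ Real.exp 1 ^ 7 := pow_le_pow_left₀ (by norm_num) h6.le 7
      calc (C + 1) * Real.exp (-(8 * C / (C + 2))) ≤ 63 * (1 / 126) := by
            gcongr
            · linarith
            · exact h2.trans h5
        _ = 1 / 2 := by norm_num
    · have h1 : -(8 * C / (C + 2)) ≤ -4 := by
        rw [neg_le_neg_iff, le_div_iff₀ hC2]
        linarith
      have h2 : Real.exp (-(8 * C / (C + 2))) ≤ Real.exp (-4) := Real.exp_le_exp.2 h1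
      have h5 : Real.exp (-4) ≤ 1 / 30 := by
        rw [Real.exp_neg, inv_eq_one_div]
        apply one_div_le_one_div_of_le (by norm_num)
        have h7 : Real.exp 4 = Real.exp 1 ^ 4 := by rw [← Real.exp_nat_mul]; norm_num
        rw [h7]
        calc (30 : ℝ) ≤ 2.7182818283 ^ 4 := by norm_num
          _ ≤ Real.exp 1 ^ 4 := pow_le_pow_left₀ (by norm_num) h6.le 4
      calc (C + 1) * Real.exp (-(8 * C / (C + 2))) ≤ 15 * (1 / 30) := by
            gcongr
            · linarith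
            · exact h2.trans h5
        _ = 1 / 2 := by norm_num

/-- small arguments: `x ≤ n` -/
theorem ratio_small (hD : OKL D) (hC : D.C ≤ 1000) (n : ℕ) (hn : 0 < n) {x : ℝ} (hx : 0 < x)
    (hxn : x ≤ n) : ((x + 1 + D.C * n) / x) * Real.exp (-(8 * D.C * n / (2 * x + D.C * n))) ≤
      ((n : ℝ) / 2 + 1) / x := by
  have hn0 : (0 : ℝ) < n := by exact_mod_cast hn
  have hC3 : (3 : ℝ) ≤ D.C := by exact_mod_cast C_ge D hD
  have hC4 : (D.C : ℝ) ≤ 1000 := by exact_mod_cast hC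
  rw [div_mul_eq_mul_div]
  refine div_le_div_of_nonneg_right ?_ hx.le
  have h1 : 8 * (D.C : ℝ) / (D.C + 2) ≤ 8 * D.C * n / (2 * x + D.C * n) := by
    rw [div_le_div_iff₀ (by linarith) (by positivity)]
    nlinarith
  have h2 : Real.exp (-(8 * D.C * n / (2 * x + D.C * n))) ≤ Real.exp (-(8 * (D.C : ℝ) / (D.C + 2))) :=
    Real.exp_le_exp.2 (by linarith)
  have h3 := num_small hC3 hC4
  have h4 : Real.exp (-(8 * (D.C : ℝ) / (D.C + 2))) ≤ 1 := by
    rw [Real.exp_le_one_iff]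
    have : 0 ≤ 8 * (D.C : ℝ) / (D.C + 2) := by positivity
    linarith
  have h5 : x + 1 + D.C * n ≤ (D.C + 1) * n + 1 := by linarith
  calc (x + 1 + D.C * n) * Real.exp (-(8 * D.C * n / (2 * x + D.C * n)))
      ≤ ((D.C + 1) * n + 1) * Real.exp (-(8 * (D.C : ℝ) / (D.C + 2))) :=
        mul_le_mul h5 h2 (Real.exp_pos _).le (by positivity)
    _ = n * ((D.C + 1) * Real.exp (-(8 * (D.C : ℝ) / (D.C + 2)))) +
        Real.exp (-(8 * (D.C : ℝ) / (D.C + 2))) := by ring
    _ ≤ n * (1 / 2) + 1 := by gcongr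
    _ = _ := by ring

/-- `log (1 + X) + X / 1000 ≤ 8 X / (2 + X)` on `[0, 1000]` -/
theorem num_log {X : ℝ} (h0 : 0 ≤ X) (h4 : X ≤ 1000) :
    Real.log (1 + X) + X / 1000 ≤ 8 * X / (2 + X) := by
  have hX2 : 0 < 2 + X := by linarith
  rcases le_or_gt X 2 with h | h
  · have h1 : Real.log (1 + X) ≤ X := by
      have := Real.log_le_sub_one_of_pos (show 0 < 1 + X by linarith)
      linarith
    have h2 : 2 * X ≤ 8 * X / (2 + X) := by
      rw [le_div_iff₀ hX2]
      nlinarith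
    linarith
  · have hl2 := Real.log_two_lt_d9
    rcases le_or_gt X 14 with h' | h'
    · have h1 : Real.log (1 + X) ≤ Real.log (2 ^ 4) := Real.log_le_log (by linarith) (by linarith)
      rw [Real.log_pow] at h1
      have h2 : 4 ≤ 8 * X / (2 + X) := by
        rw [le_div_iff₀ hX2]
        linarith
      push_cast at h1
      linarith
    · rcases le_or_gt X 254 with h'' | h''
      · have h1 : Real.log (1 + X) ≤ Real.log (2 ^ 8) := Real.log_le_log (by linarith) (by linarith)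
        rw [Real.log_pow] at h1
        have h2 : 7 ≤ 8 * X / (2 + X) := by
          rw [le_div_iff₀ hX2]
          linarith
        push_cast at h1
        linarith
      · have h1 : Real.log (1 + X) ≤ Real.log (2 ^ 10) := Real.log_le_log (by linarith) (by linarith)
        rw [Real.log_pow] at h1
        have h2 : 127 / 16 ≤ 8 * X / (2 + X) := by
          rw [le_div_iff₀ hX2]
          linarith
        push_cast at h1
        linarith

/-- large arguments: `x ≥ n ≥ 5000` -/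
theorem ratio_large (hD : OKL D) (hC : D.C ≤ 1000) (n : ℕ) (hn : 5000 ≤ n) {x : ℝ} (hxn : (n : ℝ) ≤ x) :
    ((x + 1) / x) * (((x + 1 + D.C * n) / x) * Real.exp (-(8 * D.C * n / (2 * x + D.C * n)))) ≤
      (x / (x + 1)) ^ 3 := by
  have hn0 : (5000 : ℝ) ≤ n := by exact_mod_cast hn
  have hx : 0 < x := by linarith
  have hC3 : (3 : ℝ) ≤ D.C := by exact_mod_cast C_ge D hD
  have hC4 : (D.C : ℝ) ≤ 1000 := by exact_mod_cast hC
  set X : ℝ := D.C * n / x with hX
  have hX0 : 0 ≤ X := by rw [hX]; positivity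
  have hX4 : X ≤ 1000 := by
    rw [hX, div_le_iff₀ hx]
    calc (D.C : ℝ) * n ≤ 1000 * n := by gcongr
      _ ≤ 1000 * x := by linarith
  have h1 := num_log hX0 hX4
  have h2 : 8 * D.C * n / (2 * x + D.C * n) = 8 * X / (2 + X) := by
    rw [hX]
    field_simp
  have h3 : 5 / x ≤ X / 1000 := by
    rw [hX, div_div, div_le_div_iff₀ hx (by positivity)]
    have : (5000 : ℝ) ≤ D.C * n := by nlinarith
    nlinarith
  have h4 : (x + 1) / x ≤ Real.exp (1 / x) := by
    have := Real.add_one_le_exp (1 / x)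
    have e : (x + 1) / x = 1 / x + 1 := by field_simp; ring
    rw [e]; exact this
  have h5 : (x + 1 + D.C * n) / x ≤ (1 + X) * Real.exp (1 / x) := by
    have e : (x + 1 + D.C * n) / x = 1 + X + 1 / x := by rw [hX]; field_simp; ring
    rw [e]
    have := Real.add_one_le_exp (1 / x)
    have h6 : 0 ≤ 1 / x := by positivity
    nlinarith
  have h6 : (1 + X) = Real.exp (Real.log (1 + X)) := (Real.exp_log (by linarith)).symm
  have h7 : ((x + 1) / x) ^ 4 * (((x + 1 + D.C * n) / x) *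
      Real.exp (-(8 * D.C * n / (2 * x + D.C * n)))) ≤ 1 := by
    calc ((x + 1) / x) ^ 4 * (((x + 1 + D.C * n) / x) *
          Real.exp (-(8 * D.C * n / (2 * x + D.C * n))))
        ≤ Real.exp (1 / x) ^ 4 * (((1 + X) * Real.exp (1 / x)) * Real.exp (-(8 * X / (2 + X)))) := by
          rw [h2]
          gcongr
      _ = Real.exp (5 / x + Real.log (1 + X) - 8 * X / (2 + X)) := by
          nth_rewrite 1 [h6]
          rw [← Real.exp_nat_mul, ← Real.exp_add, ← Real.exp_add, ← Real.exp_add]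
          congr 1
          push_cast
          ring
      _ ≤ 1 := by
          rw [Real.exp_le_one_iff]
          linarith
  have h8 : (x / (x + 1)) ^ 3 * ((x + 1) / x) ^ 3 = 1 := by
    rw [← mul_pow]
    have : x / (x + 1) * ((x + 1) / x) = 1 := by
      have h9 : x + 1 ≠ 0 := by positivity
      field_simp
    rw [this, one_pow]
  have h9 : 0 ≤ (x / (x + 1)) ^ 3 := by positivity
  calc ((x + 1) / x) * (((x + 1 + D.C * n) / x) * Real.exp (-(8 * D.C * n / (2 * x + D.C * n))))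
      = (x / (x + 1)) ^ 3 * (((x + 1) / x) ^ 4 * (((x + 1 + D.C * n) / x) *
          Real.exp (-(8 * D.C * n / (2 * x + D.C * n))))) := by
        linear_combination (-((x + 1) / x) * (((x + 1 + D.C * n) / x) *
          Real.exp (-(8 * D.C * n / (2 * x + D.C * n))))) * h8
    _ ≤ (x / (x + 1)) ^ 3 * 1 := mul_le_mul_of_nonneg_left h7 h9
    _ = _ := mul_one _

/-! ### all terms -/

theorem RR_small (hD : OKL D) (hdeg : 4 * D.C ≤ ∑ i ∈ D.P, (D.C - 2 * D.h i)) (hC : D.C ≤ 1000)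
    (n : ℕ) (hn : 0 < n) (t : ℕ) (ht : t ≤ n) :
    RR D n ((t : ℝ) + 1) ≤ RR D n 1 * (((t : ℝ) + 1) * (((n : ℝ) / 2 + 1) ^ t / t.factorial)) := by
  induction t with
  | zero => simp
  | succ t ih =>
    have ih' := ih (by omega)
    have hx : (0 : ℝ) < (t : ℝ) + 1 := by positivity
    have htn : (t : ℝ) + 1 ≤ n := by exact_mod_cast ht
    have h1 := RR_ratio D hD hdeg n hn hx
    have h2 := ratio_small D hD hC n hn hx htn
    have hpos := RR_pos D n hx
    have hpos1 := RR_pos D n one_pos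
    push_cast
    calc RR D n ((t : ℝ) + 1 + 1) ≤ _ := h1
      _ ≤ RR D n ((t : ℝ) + 1) * ((((t : ℝ) + 1 + 1) / ((t : ℝ) + 1)) *
          (((n : ℝ) / 2 + 1) / ((t : ℝ) + 1))) := by gcongr
      _ ≤ (RR D n 1 * (((t : ℝ) + 1) * (((n : ℝ) / 2 + 1) ^ t / t.factorial))) *
          ((((t : ℝ) + 1 + 1) / ((t : ℝ) + 1)) * (((n : ℝ) / 2 + 1) / ((t : ℝ) + 1))) := by gcongr
      _ = _ := by
        rw [Nat.factorial_succ]
        push_cast
        field_simp
        rw [pow_succ]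
        ring

theorem RR_all (hD : OKL D) (hdeg : 4 * D.C ≤ ∑ i ∈ D.P, (D.C - 2 * D.h i)) (hC : D.C ≤ 1000)
    (n : ℕ) (hn : 5000 ≤ n) (t : ℕ) :
    RR D n ((t : ℝ) + 1) * ((t : ℝ) + 1) ^ 3 ≤
      RR D n 1 * Real.exp ((n : ℝ) / 2 + 1) * ((n : ℝ) + 1) ^ 4 := by
  have hn0 : 0 < n := by omega
  have hpos1 := RR_pos D n one_pos
  have hsmall : ∀ t : ℕ, t ≤ n → RR D n ((t : ℝ) + 1) * ((t : ℝ) + 1) ^ 3 ≤
      RR D n 1 * Real.exp ((n : ℝ) / 2 + 1) * ((n : ℝ) + 1) ^ 4 := by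
    intro t ht
    have h1 := RR_small D hD hdeg hC n hn0 t ht
    have h2 : ((n : ℝ) / 2 + 1) ^ t / t.factorial ≤ Real.exp ((n : ℝ) / 2 + 1) :=
      Real.pow_div_factorial_le_exp _ (by positivity) t
    have htn : (t : ℝ) ≤ n := by exact_mod_cast ht
    calc RR D n ((t : ℝ) + 1) * ((t : ℝ) + 1) ^ 3
        ≤ (RR D n 1 * (((n : ℝ) + 1) * Real.exp ((n : ℝ) / 2 + 1))) * ((n : ℝ) + 1) ^ 3 := by
          refine mul_le_mul (h1.trans ?_) (by gcongr) (by positivity) (by positivity)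
          gcongr
      _ = _ := by ring
  rcases le_or_gt t n with ht | ht
  · exact hsmall t ht
  · obtain ⟨u, rfl⟩ : ∃ u, t = n + u := ⟨t - n, by omega⟩
    clear ht
    induction u with
    | zero => exact hsmall n le_rfl
    | succ u ih =>
      refine le_trans ?_ ih
      have hx : (0 : ℝ) < ((n + u : ℕ) : ℝ) + 1 := by positivity
      have hxn : (n : ℝ) ≤ ((n + u : ℕ) : ℝ) + 1 := by
        push_cast
        have : (0 : ℝ) ≤ u := Nat.cast_nonneg u
        linarith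
      have h1 := RR_ratio D hD hdeg n hn0 hx
      have h2 := ratio_large D hD hC n hn hxn
      have hpos := RR_pos D n hx
      have e : ((n + (u + 1) : ℕ) : ℝ) = ((n + u : ℕ) : ℝ) + 1 := by push_cast; ring
      rw [e]
      calc RR D n (((n + u : ℕ) : ℝ) + 1 + 1) * (((n + u : ℕ) : ℝ) + 1 + 1) ^ 3
          ≤ (RR D n (((n + u : ℕ) : ℝ) + 1) *
            ((((n + u : ℕ) : ℝ) + 1) / ((((n + u : ℕ) : ℝ) + 1) + 1)) ^ 3) *
            (((n + u : ℕ) : ℝ) + 1 + 1) ^ 3 := by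
            refine mul_le_mul_of_nonneg_right (h1.trans ?_) (by positivity)
            exact mul_le_mul_of_nonneg_left h2 hpos.le
        _ = _ := by
            rw [div_pow]
            field_simp

theorem summable_cube : Summable fun t : ℕ => 1 / ((t : ℝ) + 1) ^ 3 := by
  have h := (summable_nat_add_iff 1).2 (Real.summable_one_div_nat_pow.2 (show 1 < 3 by norm_num))
  refine h.congr fun t => ?_
  push_cast
  rfl

theorem SL_le_aux (hD : OKL D) (hdeg : 4 * D.C ≤ ∑ i ∈ D.P, (D.C - 2 * D.h i)) (hC : D.C ≤ 1000)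
    (n : ℕ) (hn : 5000 ≤ n) :
    SL D n ≤ (∑' t : ℕ, 1 / ((t : ℝ) + 1) ^ 3) *
      (RR D n 1 * Real.exp ((n : ℝ) / 2 + 1) * ((n : ℝ) + 1) ^ 4) := by
  set B := RR D n 1 * Real.exp ((n : ℝ) / 2 + 1) * ((n : ℝ) + 1) ^ 4 with hB
  have h1 : ∀ t : ℕ, RR D n ((t : ℝ) + 1) ≤ 1 / ((t : ℝ) + 1) ^ 3 * B := by
    intro t
    have h2 := RR_all D hD hdeg hC n hn t
    rw [one_div_mul_eq_div, le_div_iff₀ (by positivity)]
    exact h2
  have h3 : Summable fun t : ℕ => 1 / ((t : ℝ) + 1) ^ 3 * B := summable_cube.mul_right B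
  have h4 : Summable fun t : ℕ => RR D n ((t : ℝ) + 1) :=
    Summable.of_nonneg_of_le (fun t => (RR_pos D n (by positivity)).le) h1 h3
  rw [← tsum_mul_right]
  exact h4.tsum_le_tsum h1 h3

/-- L4 -/
theorem SL_le (hD : OKL D) (hdeg : 4 * D.C ≤ ∑ i ∈ D.P, (D.C - 2 * D.h i)) (hC : D.C ≤ 1000) {al : ℝ}
    (hal : al + 1 < sizeE D) : ∃ N : ℕ, ∀ n ≥ N, SL D n ≤ Real.exp (-al * n) := by
  set p := D.P.card with hp
  set Z := ∑' t : ℕ, 1 / ((t : ℝ) + 1) ^ 3 with hZ
  have hZ0 : 0 ≤ Z := tsum_nonneg fun t => by positivity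
  set c : ℝ := Z * (((D.C : ℝ) + 2) ^ (2 + 2 * p) * Real.exp 1 ^ (2 * p) * Real.exp 1) with hc
  have hc0 : 0 ≤ c := by rw [hc]; positivity
  have hlo := isLittleO_pow_exp_pos_mul_atTop (6 + 2 * p) (b := 1 / 2) (by norm_num)
  have h1 := hlo.bound (show (0 : ℝ) < 1 / (c * Real.exp (1 / 2) + 1) by positivity)
  rw [Filter.eventually_atTop] at h1
  obtain ⟨x0, hx0⟩ := h1
  obtain ⟨N1, hN1⟩ := exists_nat_ge x0
  refine ⟨max 5000 N1, fun n hn => ?_⟩
  have hn1 : 5000 ≤ n := le_trans (le_max_left _ _) hn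
  have hn2 : (N1 : ℝ) ≤ n := by exact_mod_cast le_trans (le_max_right _ _) hn
  have h2 := hx0 ((n : ℝ) + 1) (by linarith)
  rw [Real.norm_eq_abs, Real.norm_eq_abs, abs_of_nonneg (by positivity),
    abs_of_nonneg (Real.exp_pos _).le] at h2
  have h3 := SL_le_aux D hD hdeg hC n hn1
  have h4 := RR_one_le D hD n (by omega)
  rw [← hp] at h4
  have h5 : c * ((n : ℝ) + 1) ^ (6 + 2 * p) ≤ Real.exp ((n : ℝ) / 2) := by
    have h6 : Real.exp (1 / 2 * ((n : ℝ) + 1)) = Real.exp (1 / 2) * Real.exp ((n : ℝ) / 2) := by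
      rw [← Real.exp_add]
      congr 1
      ring
    rw [h6] at h2
    have h7 : c * (((n : ℝ) + 1) ^ (6 + 2 * p)) ≤
        c * (1 / (c * Real.exp (1 / 2) + 1) * (Real.exp (1 / 2) * Real.exp ((n : ℝ) / 2))) :=
      mul_le_mul_of_nonneg_left h2 hc0
    refine h7.trans ?_
    have h8 : c * (1 / (c * Real.exp (1 / 2) + 1) * (Real.exp (1 / 2) * Real.exp ((n : ℝ) / 2))) =
        (c * Real.exp (1 / 2) / (c * Real.exp (1 / 2) + 1)) * Real.exp ((n : ℝ) / 2) := by
      ring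
    rw [h8]
    have h9 : c * Real.exp (1 / 2) / (c * Real.exp (1 / 2) + 1) ≤ 1 := by
      rw [div_le_one (by positivity)]
      linarith
    have h10 := (Real.exp_pos ((n : ℝ) / 2)).le
    nlinarith
  have hn0 : (0 : ℝ) ≤ n := Nat.cast_nonneg n
  calc SL D n ≤ Z * (RR D n 1 * Real.exp ((n : ℝ) / 2 + 1) * ((n : ℝ) + 1) ^ 4) := h3
    _ ≤ Z * (((((D.C : ℝ) + 2) * (n + 1)) ^ (2 + 2 * p) * Real.exp 1 ^ (2 * p) *
        Real.exp (-(n * sizeE D))) * Real.exp ((n : ℝ) / 2 + 1) * ((n : ℝ) + 1) ^ 4) := by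
        gcongr
    _ = (c * ((n : ℝ) + 1) ^ (6 + 2 * p)) * (Real.exp (-(n * sizeE D)) * Real.exp ((n : ℝ) / 2)) := by
        rw [Real.exp_add, mul_pow, hc]
        ring
    _ ≤ Real.exp ((n : ℝ) / 2) * (Real.exp (-(n * sizeE D)) * Real.exp ((n : ℝ) / 2)) := by
        gcongr
    _ = Real.exp (-(n * sizeE D) + n) := by
        rw [← Real.exp_add, ← Real.exp_add]
        congr 1
        ring
    _ ≤ Real.exp (-al * n) := by
        apply Real.exp_le_exp.2
        nlinarith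

end Pool.Agent.OddZetaL
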