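import Pool.Agent.OddZetaL.Mid
import Pool.Agent.OddZetaL.Crit2
import Pool.Agent.OddZetaL.SEq
import Pool.Agent.OddZetaL.Size
import Pool.Agent.OddZetaL.Num45

/-!
The linear independence theorem.  Seat: helper8.
-/

open Finset

namespace Pool.Agent.OddZetaL

open Pool.Agent.OddZetaG Pool.Agent.OddZetaG.Tab

theorem growE45_nonneg : 0 ≤ growE D45 := by
  have h1 : growE D45 = 3760 * Real.log 2 - (846 * Real.log 846 - 360 * Real.log 360
      - 486 * Real.log 486) := by
    unfold growE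
    have e1 : ∑ i ∈ D45.P, ((D45.C - 2 * D45.h i : ℕ) : ℝ) = 3760 := by
      have : (∑ i ∈ D45.P, (D45.C - 2 * D45.h i) : ℕ) = 3760 := by decide +kernel
      exact_mod_cast this
    have e2 : D45.C = 846 := rfl
    have e3 : D45.s = 360 := rfl
    rw [e1, e2, e3]
    norm_num
  rw [h1]
  have h2 := Real.log_two_gt_d9
  have h3 : Real.log 846 - Real.log 360 ≤ 846 / 360 - 1 := by
    rw [← Real.log_div (by norm_num) (by norm_num)]
    exact Real.log_le_sub_one_of_pos (by norm_num)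
  have h4 : Real.log 846 - Real.log 486 ≤ 846 / 486 - 1 := by
    rw [← Real.log_div (by norm_num) (by norm_num)]
    exact Real.log_le_sub_one_of_pos (by norm_num)
  linarith

/-- the theorem for the numbers `tail j 0 = ζ(j)` -/
theorem main_of (hE : ∀ e : ℕ × ℕ × ℕ × ℕ × ℕ × ℕ, okE e = true →
      Good e.1 e.2.1 e.2.2.1 e.2.2.2.1 e.2.2.2.2.1 e.2.2.2.2.2)
    (hgr : ∀ bt : ℝ, growE D45 < bt →
      ∃ N : ℕ, ∀ n ≥ N, ∀ j ∈ Js D45, |(rho D45 n j : ℝ)| ≤ Real.exp (bt * n)) (x : ℝ) :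
    ∃ j ∈ Js D45, ∀ a b : ℚ, tail j 0 ≠ a + b * x := by
  set δ : ℝ := (sizeE D45 - growE D45 - 7746) / 3 with hδ
  have hnum := num45
  have hδ0 : 0 < δ := by rw [hδ]; linarith
  have hg0 := growE45_nonneg
  obtain ⟨E, hE'⟩ := crude D45 D45_ok
  refine crit2 (Js D45) 846 E (by norm_num) (fun j => tail j 0) (rho0 D45) (rho D45) (SL D45)
    (fun n hn => SL_eq D45 D45_ok n hn) (fun n hn => SL_pos D45 D45_ok n hn)
    (al := sizeE D45 - 1 - δ) (bt := growE D45 + δ) (be := 7745) (by linarith) (by linarith)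
    (SL_le D45 D45_ok (by decide +kernel) (by decide) (by linarith)) (hgr _ (by linarith))
    ?_ ?_ (mid45 hE) x
  · intro n p hpf hn
    refine ⟨(hE' n p 3 hn le_rfl (by decide)).1, fun j hj => ?_⟩
    rw [D45_Js, Finset.mem_filter, Finset.mem_Icc] at hj
    exact (hE' n p j hn hj.1.1 hj.1.2).2
  · intro n p hpf hn hp
    refine ⟨(large D45 D45_ok n p 3 hn hp le_rfl).1, fun j hj => ?_⟩
    rw [D45_Js, Finset.mem_filter, Finset.mem_Icc] at hj
    exact (large D45 D45_ok n p j hn hp hj.1.1).2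

end Pool.Agent.OddZetaL
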