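import Pool.Agent.OddZetaL.TabAll

/-!
The bound of the denominators for `D45`.  Seat: helper8.
-/

open Finset

namespace Pool.Agent.OddZetaL

open Pool.Agent.OddZetaG Pool.Agent.OddZetaG.Tab
open Pool.Agent.OddZeta (tabVal tabInt sum_primes_le)

theorem TE_sum : Nat.ble (sumUb 0 (TE.map wE)) 4555957200000 = true := by decide +kernel

theorem geo_wP {e : ℕ × ℕ × ℕ × ℕ × ℕ} (h : geo e = true) :
    0 < (wP e).2.1 ∧ 0 < (wP e).2.2.2.1 ∧ (wP e).1 * (wP e).2.2.2.1 < (wP e).2.2.1 * (wP e).2.1 :=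
  geo_iff h

theorem cell1_geo : geo (0, 1, 1, 63, 91) = true := by decide

def B45 (i : ℕ) : ℕ :=
  if i = 0 then 24970800000 else if i = 1 then 8279000000 else
    if i = 2 then 4133200000 else 2478300000

theorem c1 : sumUb 1 [(0, 1, 1, 63, 91)] ≤ 1421875091 := by decide +kernel

theorem b1 : sumUb 1 ([(0, 1, 1, 63, 91)] ++ T45.map wP) ≤ 24970800000 := by
  rw [sumUb_append]
  have h := Nat.add_le_add c1 T45_sum1
  refine le_trans h ?_
  norm_num

theorem c2 : sumUb 2 [(0, 1, 1, 63, 91)] ≤ 358267819 := by decide +kernel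

theorem b2 : sumUb 2 ([(0, 1, 1, 63, 91)] ++ T45.map wP) ≤ 8279000000 := by
  rw [sumUb_append]
  have h := Nat.add_le_add c2 T45_sum2
  refine le_trans h ?_
  norm_num

theorem c3 : sumUb 3 [(0, 1, 1, 63, 91)] ≤ 159649217 := by decide +kernel

theorem b3 : sumUb 3 ([(0, 1, 1, 63, 91)] ++ T45.map wP) ≤ 4133200000 := by
  rw [sumUb_append]
  have h := Nat.add_le_add c3 T45_sum3
  refine le_trans h ?_
  norm_num

theorem c4 : sumUb 4 [(0, 1, 1, 63, 91)] ≤ 89921104 := by decide +kernel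

theorem b4 : sumUb 4 ([(0, 1, 1, 63, 91)] ++ T45.map wP) ≤ 2478300000 := by
  rw [sumUb_append]
  have h := Nat.add_le_add c4 T45_sum4
  refine le_trans h ?_
  norm_num

theorem tab45_int : tabInt (tabL T45 4) ≤ 7723363 / 1000 := by
  have hs0 : ∀ e ∈ TE.map wE, 0 < e.2.1 ∧ 0 < e.2.2.2.1 ∧ e.1 * e.2.2.2.1 < e.2.2.1 * e.2.1 :=
    fun e he => geo_iff (List.all_eq_true.1 TE_geo e he)
  have hs1 : ∀ e ∈ [(0, 1, 1, 63, 91)] ++ T45.map wP,
      0 < e.2.1 ∧ 0 < e.2.2.2.1 ∧ e.1 * e.2.2.2.1 < e.2.2.1 * e.2.1 := by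
    intro e he
    rw [List.mem_append, List.mem_singleton, List.mem_map] at he
    rcases he with rfl | ⟨f, hf, rfl⟩
    · exact geo_iff cell1_geo
    · exact geo_wP (T45_geo f hf)
  have hp0 : ∀ e ∈ TE.map wE, 0 < e.1 := by
    intro e he
    have := List.all_eq_true.1 TE_pos e he
    rwa [Nat.blt_eq] at this
  have hp1 : ∀ e ∈ T45.map wP, 0 < e.1 := by
    intro e he
    rw [List.mem_map] at he
    obtain ⟨f, hf, rfl⟩ := he
    have := T45_pos f hf
    rwa [Nat.blt_eq] at this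
  have hB : ∀ i < 4, sumUb (i + 1) ([(0, 1, 1, 63, 91)] ++ T45.map wP) ≤ B45 i := by
    intro i hi
    match i, hi with
    | 0, _ => exact b1
    | 1, _ => exact b2
    | 2, _ => exact b3
    | 3, _ => exact b4
    | (i + 4), hi => omega
  have h := tabInt_le (T0 := TE.map wE) (T1a := [(0, 1, 1, 63, 91)]) (T1b := T45.map wP) 4
    4555957200000 3127543999142 _ hs0 hs1 hp0 hp1 (Nat.le_of_ble_eq_true TE_sum) T45_sum0 hB
  refine h.trans ?_
  have e : ∑ i ∈ Finset.range 4, B45 i = 39861300000 := by decide +kernel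
  rw [e]
  norm_num

theorem tab45_pos : ∀ e ∈ tabL T45 4, 0 < e.1 ∧ e.1 < e.2.1 := by
  intro e he
  unfold tabL at he
  rw [List.mem_append, List.mem_append, List.mem_flatMap] at he
  rcases he with he | he | ⟨i, -, he⟩
  · rw [List.mem_map] at he
    obtain ⟨x, hx, rfl⟩ := he
    obtain ⟨q1, q2, q3⟩ := geo_iff (List.all_eq_true.1 TE_geo x hx)
    have h3 := List.all_eq_true.1 TE_pos x hx
    rw [Nat.blt_eq] at h3
    have := ub_spec (N := 0) q1 q2 q3 (by omega)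
    exact ⟨this.1, this.2.1⟩
  · rw [List.mem_map] at he
    obtain ⟨x, hx, rfl⟩ := he
    rw [List.mem_map] at hx
    obtain ⟨f, hf, rfl⟩ := hx
    obtain ⟨q1, q2, q3⟩ := geo_wP (T45_geo f hf)
    have h3 := T45_pos f hf
    rw [Nat.blt_eq] at h3
    have h3' : 0 < (wP f).1 := h3
    have := ub_spec (N := 0) q1 q2 q3 (by omega)
    exact ⟨this.1, this.2.1⟩
  · rw [List.mem_map] at he
    obtain ⟨x, hx, rfl⟩ := he
    rw [List.mem_map] at hx
    obtain ⟨f, hf, rfl⟩ := hx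
    have hgf : geo f = true := by
      rcases List.mem_cons.1 hf with rfl | hf'
      · decide
      · exact T45_geo f hf'
    obtain ⟨q1, q2, q3⟩ := geo_wP hgf
    have := ub_spec (N := i + 1) q1 q2 q3 (by positivity)
    exact ⟨this.1, this.2.1⟩

theorem bd45_pos : ∀ e ∈ bdL T45 4, 0 < e.1 := by
  intro e he
  unfold bdL at he
  rw [List.mem_cons, List.mem_append, List.mem_flatMap, List.mem_map] at he
  have key : ∀ a1 b1 a2 b2 i : ℕ, 0 < b1 → a1 * b2 < a2 * b1 → 0 < i * b2 + a2 := by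
    intro a1 b1 a2 b2 i hb h
    have : 0 < a2 := by
      rcases Nat.eq_zero_or_pos a2 with rfl | h'
      · simp at h
      · exact h'
    omega
  rcases he with rfl | ⟨f, hf, rfl⟩ | ⟨i, -, he⟩
  · norm_num
  · obtain ⟨q1, q2, q3⟩ := geo_iff (List.all_eq_true.1 TE_geo _ (List.mem_map_of_mem hf))
    have := key _ _ _ _ 0 q1 q3
    simpa [wE] using this
  · rw [List.mem_map] at he
    obtain ⟨f, hf, rfl⟩ := he
    have hgf : geo f = true := by
      rcases List.mem_cons.1 hf with rfl | hf'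
      · decide
      · exact T45_geo f hf'
    obtain ⟨q1, q2, q3⟩ := geo_iff hgf
    exact key _ _ _ _ i q1 q3

/-- the bound of the denominators of two consecutive forms -/
theorem mid45 (hE : ∀ e : ℕ × ℕ × ℕ × ℕ × ℕ × ℕ, okE e = true →
      Good e.1 e.2.1 e.2.2.1 e.2.2.2.1 e.2.2.2.2.1 e.2.2.2.2.2) :
    ∃ d : ℕ → ℕ → ℕ, ∃ N : ℕ, ∀ n ≥ N,
      (∀ (p : ℕ) [Fact p.Prime], ¬ p ∣ n → ¬ p ∣ (n + 1) → 846 * (n + 1) < p ^ 2 →
        p ≤ 846 * (n + 1) → ∃ e0 e1 : ℕ, e1 ≤ e0 ∧ e0 + e1 ≤ d n p ∧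
          padicNorm p (rho0 D45 n) ≤ (p : ℚ) ^ e0 ∧ padicNorm p (rho0 D45 (n + 1)) ≤ (p : ℚ) ^ e0 ∧
          ∀ j ∈ Js D45, padicNorm p (rho D45 n j) ≤ (p : ℚ) ^ e1 ∧
            padicNorm p (rho D45 (n + 1) j) ≤ (p : ℚ) ^ e1) ∧
      ∑ p ∈ (Finset.Icc 1 (846 * (n + 1))).filter (fun p => p.Prime), (d n p : ℝ) * Real.log p
        ≤ 7745 * n := by
  have hA : (tabInt (tabL T45 4) : ℝ) + ((94 : ℕ) : ℝ) / ((4 + 1 : ℕ) : ℝ) < 7744 := by
    have h : ((tabInt (tabL T45 4) : ℚ) : ℝ) ≤ ((7723363 / 1000 : ℚ) : ℝ) := by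
      exact_mod_cast tab45_int
    push_cast at h ⊢
    linarith
  obtain ⟨N1, hN1⟩ := sum_primes_le _ tab45_pos (4 + 1) 94 (by omega) _ hA
  obtain ⟨N2, hN2⟩ := sum_cross (bdL T45 4) bd45_pos 846 94 (show (0 : ℝ) < 1 by norm_num)
  refine ⟨fun n p => tabVal (tabL T45 4) n p + (if (4 + 1) * p ≤ n then 94 else 0) +
    (if crossL T45 4 n p then 94 else 0), N1 + N2 + 19, fun n hn => ⟨?_, ?_⟩⟩
  · intro p hpf hpn hpn1 hp1 hp2
    have hp := hpf.out
    obtain ⟨e0, e1, h01, hle, g0, g1⟩ := local_exp hE T45_ok T45_geo T45_chain 4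
      (show 19 ≤ n by omega) hp hpn hpn1 hp1 hp2
    have h2 : p ≠ 2 := by
      rintro rfl
      omega
    have hpn' : 846 * n < p ^ 2 := by omega
    have hC : D45.C = 846 := rfl
    refine ⟨e0, e1, h01, hle, ?_, ?_, fun j hj => ⟨?_, ?_⟩⟩
    · have := rho0_le D45 D45_ok n p (by omega) h2 (by rw [hC]; exact hpn') (e0 : ℤ)
        (fun l hl => (g0 l hl).1)
      rwa [zpow_natCast] at this
    · have := rho0_le D45 D45_ok (n + 1) p (by omega) h2 (by rw [hC]; exact hp1) (e0 : ℤ)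
        (fun l hl => (g1 l hl).1)
      rwa [zpow_natCast] at this
    · have hj3 : 3 ≤ j := by
        rw [D45_Js, Finset.mem_filter, Finset.mem_Icc] at hj
        exact hj.1.1
      have := rho_le D45 D45_ok n p j (by omega) h2 (by rw [hC]; exact hpn') (e1 : ℤ) hj3
        (fun l hl => (g0 l hl).2)
      rwa [zpow_natCast] at this
    · have hj3 : 3 ≤ j := by
        rw [D45_Js, Finset.mem_filter, Finset.mem_Icc] at hj
        exact hj.1.1
      have := rho_le D45 D45_ok (n + 1) p j (by omega) h2 (by rw [hC]; exact hp1) (e1 : ℤ) hj3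
        (fun l hl => (g1 l hl).2)
      rwa [zpow_natCast] at this
  · have h1 := hN1 n (by omega) (846 * (n + 1))
    have h2 := hN2 n (by omega)
    have h3 : ∀ p : ℕ, ((tabVal (tabL T45 4) n p + (if (4 + 1) * p ≤ n then 94 else 0) +
        (if crossL T45 4 n p then 94 else 0) : ℕ) : ℝ) * Real.log p =
        ((tabVal (tabL T45 4) n p + (if (4 + 1) * p ≤ n then 94 else 0) : ℕ) : ℝ) * Real.log p +
        ((if crossL T45 4 n p then 94 else 0 : ℕ) : ℝ) * Real.log p := by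
      intro p
      rw [Nat.cast_add, add_mul]
    rw [Finset.sum_congr rfl (fun p _ => h3 p), Finset.sum_add_distrib]
    refine (add_le_add h1 h2).trans ?_
    have : (0 : ℝ) ≤ n := Nat.cast_nonneg n
    linarith

end Pool.Agent.OddZetaL
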