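import Pool.Agent.OddZetaL.Defs
import Pool.Agent.OddZetaG.PadicC1
import Pool.Agent.OddZetaG.PadicC2
import Pool.Agent.OddZetaG.PadicC3
import Pool.Agent.OddZetaG.PadicC4

set_option autoImplicit false
set_option linter.unusedSectionVars false
set_option linter.unusedVariables false

/-!
# The p-adic bounds for the linear independence theorem (`k = 0`), module L2 (helper75)
-/

open Finset

namespace Pool.Agent.OddZetaL

open PowerSeries
open Pool.Agent.OddZetaG

section fields

variable {D : Dat}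

theorem OKL.s_le (hD : OKL D) : D.s ≤ D.lo := hD.lo_eq.ge

theorem OKL.cardM' (hD : OKL D) : D.M.card = D.k + 1 := by rw [hD.cardM, hD.k0]

theorem OKL.cardP' (hD : OKL D) : D.P.card = D.M.card + D.A := by
  rw [hD.cardP, hD.cardM, add_comm]

theorem OKL.M_lt (hD : OKL D) : ∀ i ∈ D.M, D.h i < D.s := by
  intro i hi
  rw [hD.M0 i hi]
  exact hD.spos

theorem OKL.lo_lt (hD : OKL D) : 2 * D.lo < D.C := by
  obtain ⟨i, hi, hs⟩ := hD.s_mem
  rw [hD.lo_eq, ← hs]
  exact hD.P_lt i hi

theorem OKL.lo_ok (hD : OKL D) : #{i ∈ D.P | D.h i < D.lo} ≤ D.k + 1 := by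
  have : {i ∈ D.P | D.h i < D.lo} = ∅ := by
    rw [Finset.filter_eq_empty_iff]
    intro i hi
    have := hD.P_ge i hi
    rw [hD.lo_eq]
    omega
  rw [this]
  simp

end fields

section

variable {D : Dat} {p : ℕ} [hp : Fact p.Prime]

lemma two_P (hD : OKL D) {i : ℕ} (hi : i ∈ D.P) : 2 * D.h i < D.C := hD.P_lt i hi

lemma s_lt (hD : OKL D) : 2 * D.s < D.C := by
  have h1 := hD.s_le
  have h2 := hD.lo_lt
  omega

lemma two_M (hD : OKL D) {i : ℕ} (hi : i ∈ D.M) : 2 * D.h i < D.C := by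
  have h1 := hD.M_lt i hi
  have h2 := s_lt hD
  omega

lemma two_PM (hD : OKL D) {i : ℕ} (hi : i ∈ D.P ∪ D.M) : 2 * D.h i < D.C := by
  rcases Finset.mem_union.1 hi with h1 | h1
  · exact two_P hD h1
  · exact two_M hD h1

lemma GB_F (hD : OKL D) (n l : ℕ) (hl : l ≤ D.C * n) (hpn : D.C * n < p ^ 2) :
    GB p (F D n l) ((p : ℚ) ^ (-V D n l p)) p := by
  have hp0 := pq_pos (p := p)
  have e : (p : ℚ) ^ (-V D n l p) = (p : ℚ) ^ (-E0 D n p) * 1 * (∏ i ∈ D.M, (p : ℚ) ^ (-cnt D n l p (D.h i)))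
      * (∏ i ∈ D.P, (p : ℚ) ^ (cnt D n l p (D.h i))) := by
    rw [prod_zpow_base _ _ _ hp0.ne', prod_zpow_base _ _ _ hp0.ne', mul_one, ← zpow_add₀ hp0.ne',
      ← zpow_add₀ hp0.ne']
    congr 1
    unfold V E0
    rw [Finset.sum_sub_distrib, Finset.sum_sub_distrib, Finset.sum_neg_distrib]
    ring
  rw [e]
  unfold F
  rw [prod_inv_ps]
  apply GB.mul
  · apply GB.mul
    · apply GB.mul
      · rw [← norm_K n hpn]
        exact GB.C _ hp0.le
      · exact GB_mid n l one_le_pq
    · apply GB.prod _ _ _ hp0.le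
      intro i hi
      exact GB_B n l (D.h i) (two_M hD hi).le hl hpn
  · apply GB.prod _ _ _ hp0.le
    intro i hi
    exact GB_Binv n l (D.h i) (two_P hD hi).le hl hpn

/-- bound for the expansion coefficients -/
lemma norm_a_le' (hD : OKL D) (n l i : ℕ) (hl : l ≤ D.C * n) (hpn : D.C * n < p ^ 2) :
    padicNorm p (a D n l i) ≤ (p : ℚ) ^ (ord D n l - V D n l p - i) := by
  have hp0 := pq_pos (p := p)
  unfold a
  split_ifs with h
  · refine (GB_F hD n l hl hpn _).trans (le_of_eq ?_)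
    rw [← zpow_natCast, ← zpow_add₀ hp0.ne']
    congr 1
    have : (((ord D n l - i).toNat : ℕ) : ℤ) = ord D n l - i := Int.toNat_of_nonneg (by linarith)
    rw [this]
    ring
  · rw [padicNorm.zero]; positivity

lemma GB_F_noP (hD : OKL D) (n l : ℕ) (hpn : D.C * n < p ^ 2)
    (hno : noP D n l p) : GB p (F D n l) ((p : ℚ) ^ (-E0 D n p)) 1 := by
  have e : (p : ℚ) ^ (-E0 D n p) = (p : ℚ) ^ (-E0 D n p) * 1 * (∏ _h ∈ D.M, (1 : ℚ))
      * (∏ _h ∈ D.P, (1 : ℚ)) := by simp
  rw [e]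
  unfold F
  rw [prod_inv_ps]
  apply GB.mul
  · apply GB.mul
    · apply GB.mul
      · rw [← norm_K n hpn]
        exact GB.C _ zero_le_one
      · exact GB_mid n l le_rfl
    · apply GB.prod _ _ _ zero_le_one
      intro i _
      exact GB_B_one n l (D.h i) le_rfl
  · apply GB.prod _ _ _ zero_le_one
    intro i hi
    apply GB_Binv_one n l (D.h i) le_rfl
    have h1 := hno i hi
    have h2 := card_div (p := p) n l (D.h i) (two_P hD hi).le
    have h3 : (((blk D n (D.h i)).erase l).filter (fun m : ℕ => (p : ℤ) ∣ (m : ℤ) - l)).card = 0 := by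
      have : ((((blk D n (D.h i)).erase l).filter (fun m : ℕ => (p : ℤ) ∣ (m : ℤ) - l)).card : ℤ) ≤ 0 := by
        rw [h2]; exact h1
      have h4 : (0 : ℤ) ≤ ((((blk D n (D.h i)).erase l).filter
        (fun m : ℕ => (p : ℤ) ∣ (m : ℤ) - l)).card : ℤ) := Int.natCast_nonneg _
      exact_mod_cast le_antisymm this h4
    rw [Finset.card_eq_zero, Finset.filter_eq_empty_iff] at h3
    exact fun m hm => h3 hm

lemma norm_a_le_noP (hD : OKL D) (n l i : ℕ) (hpn : D.C * n < p ^ 2) (hno : noP D n l p) :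
    padicNorm p (a D n l i) ≤ (p : ℚ) ^ (-E0 D n p) := by
  have hp0 := pq_pos (p := p)
  unfold a
  split_ifs with h
  · have := GB_F_noP hD n l hpn hno (ord D n l - i).toNat
    rwa [one_pow, mul_one] at this
  · rw [padicNorm.zero]; positivity

lemma norm_T_le_large' (hD : OKL D) (n l : ℕ) (hl : l ≤ D.C * n) (hpn : D.C * n < p ^ 2) :
    padicNorm p (T D n l) ≤ (p : ℚ) ^ (ord D n l - V D n l p + D.k) := by
  have hp0 := pq_pos (p := p)
  unfold T
  rw [padicNorm.neg]
  apply padicNorm.sum_le'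
  · intro i hi
    refine (norm_term_le n l i _ _ (norm_a_le' hD n l i hl hpn) (Hs_le (i + D.k) _ (by omega))).trans ?_
    rw [← zpow_natCast, ← zpow_add₀ hp0.ne']
    apply zpow_mono_p
    push_cast
    linarith
  · positivity

lemma norm_T_le_small (hD : OKL D) (n l : ℕ) (hl : l ≤ D.C * n) (hpn : D.C * n < p ^ 2) (hs : l - D.s * n < p) :
    padicNorm p (T D n l) ≤ (p : ℚ) ^ (ord D n l - V D n l p - 1) := by
  have hp0 := pq_pos (p := p)
  unfold T
  rw [padicNorm.neg]
  apply padicNorm.sum_le'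
  · intro i hi
    rw [Finset.mem_Icc] at hi
    refine (norm_term_le n l i _ _ (norm_a_le' hD n l i hl hpn) (Hs_le_one (i + D.k) _ hs)).trans ?_
    rw [mul_one]
    apply zpow_mono_p
    have : (1 : ℤ) ≤ i := by exact_mod_cast hi.1
    linarith
  · positivity

lemma norm_T_le_noP (hD : OKL D) (n l : ℕ) (hpn : D.C * n < p ^ 2) (hs : l - D.s * n < p)
    (hno : noP D n l p) : padicNorm p (T D n l) ≤ (p : ℚ) ^ (-E0 D n p) := by
  have hp0 := pq_pos (p := p)
  unfold T
  rw [padicNorm.neg]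
  apply padicNorm.sum_le'
  · intro i _
    refine (norm_term_le n l i _ _ (norm_a_le_noP hD n l i hpn hno) (Hs_le_one (i + D.k) _ hs)).trans ?_
    rw [mul_one]
  · positivity

/-- basic facts on poles -/
lemma poles_s (hD : OKL D) {n l : ℕ} (hl : l ∈ poles D n) :
    (D.s : ℤ) * n ≤ l ∧ (l : ℤ) ≤ (D.C - D.s : ℤ) * n := by
  unfold poles at hl
  rw [Finset.mem_Icc] at hl
  have h1 : D.s * n ≤ D.lo * n := Nat.mul_le_mul_right _ hD.s_le
  have h2 : (D.C - D.lo) * n ≤ (D.C - D.s) * n :=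
    Nat.mul_le_mul_right _ (by have := hD.s_le; omega)
  have h3 := s_lt hD
  have h4 : (((D.C - D.s) * n : ℕ) : ℤ) = (D.C - D.s : ℤ) * n := by
    push_cast [Nat.cast_sub (show D.s ≤ D.C by omega)]
    ring
  constructor
  · exact_mod_cast h1.trans hl.1
  · rw [← h4]
    exact_mod_cast hl.2.trans h2

lemma tau_cast (hD : OKL D) (n l : ℕ) (hl : l ∈ poles D n) :
    ((tau D n p l : ℕ) : ℤ) = (D.C : ℤ) * n + cc D n l p * p - l ∧
      (D.s : ℤ) * n ≤ (tau D n p l : ℕ) ∧ ((tau D n p l : ℕ) : ℤ) ≤ (D.C - D.s : ℤ) * n := by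
  obtain ⟨h1, h2⟩ := poles_s hD hl
  have hpz := pz_pos (p := p)
  have h3 : fB D n l p D.s * p ≤ (D.C - D.s : ℤ) * n - l := by
    unfold fB
    exact Int.ediv_mul_le _ pz_pos.ne'
  have h4 : 0 ≤ fA n l p D.s := by
    unfold fA
    apply Int.ediv_nonneg _ pz_pos.le
    linarith
  have h5 : fA n l p D.s * p ≤ (l : ℤ) - D.s * n := by
    unfold fA
    exact Int.ediv_mul_le _ pz_pos.ne'
  have h6 : 0 ≤ fB D n l p D.s := by
    unfold fB
    apply Int.ediv_nonneg _ pz_pos.le
    linarith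
  have h7 : cc D n l p * p = fA n l p D.s * p - fB D n l p D.s * p := by
    unfold cc; ring
  have h8 : 0 ≤ fA n l p D.s * p := mul_nonneg h4 pz_pos.le
  have h9 : 0 ≤ fB D n l p D.s * p := mul_nonneg h6 pz_pos.le
  have h10 : (0 : ℤ) ≤ (D.s : ℤ) * n := by positivity
  have h11 : (D.C - D.s : ℤ) * n = (D.C : ℤ) * n - D.s * n := by ring
  have e : ((tau D n p l : ℕ) : ℤ) = (D.C : ℤ) * n + cc D n l p * p - l := by
    unfold tau
    apply Int.toNat_of_nonneg
    linarith
  refine ⟨e, ?_, ?_⟩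
  · rw [e]; linarith
  · rw [e]; linarith

lemma pair_tau (hD : OKL D) (hs : ∃ i ∈ D.P, D.h i = D.s) (n l : ℕ) (hl : l ∈ poles D n)
    (h : selfP D n l p) : Pair D n p l (tau D n p l) :=
  ⟨(tau_cast hD n l hl).1, (f_pair n l _ _ _ (tau_cast hD n l hl).1 rfl).1,
    (f_pair n l _ _ _ (tau_cast hD n l hl).1 rfl).2,
    fun _ hk => (f_pair n l _ _ _ (tau_cast hD n l hl).1 (selfP_eq hs h hk)).1,
    fun _ hk => (f_pair n l _ _ _ (tau_cast hD n l hl).1 (selfP_eq hs h hk)).2,
    fun _ hk => selfP_eq hs h hk⟩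

lemma pair_blk (hD : OKL D) {n l l' : ℕ} (P : Pair D n p l l') {i : ℕ} (hi : i ∈ D.P ∪ D.M) :
    l' ∈ blk D n (D.h i) ↔ l ∈ blk D n (D.h i) := by
  have h2 := two_PM hD hi
  rw [mem_blk_iff_f (p := p) n l' _ (by omega), mem_blk_iff_f (p := p) n l _ (by omega),
    P.fAe i hi, P.fBe i hi]

lemma pair_ord (hD : OKL D) {n l l' : ℕ} (P : Pair D n p l l') :
    OddZetaG.ord D n l' = OddZetaG.ord D n l := by
  unfold OddZetaG.ord
  rw [Finset.filter_congr (fun i hi => pair_blk hD P (Finset.mem_union_left _ hi)),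
    Finset.filter_congr (fun i hi => pair_blk hD P (Finset.mem_union_right _ hi))]

lemma pair_cnt (hD : OKL D) {n l l' : ℕ} (P : Pair D n p l l') {i : ℕ} (hi : i ∈ D.P ∪ D.M) :
    OddZetaG.cnt D n l' p (D.h i) = OddZetaG.cnt D n l p (D.h i) := by
  unfold OddZetaG.cnt
  rw [P.fAe i hi, P.fBe i hi]
  simp only [pair_blk hD P hi]

lemma pair_V (hD : OKL D) {n l l' : ℕ} (P : Pair D n p l l') :
    OddZetaG.V D n l' p = OddZetaG.V D n l p := by
  unfold OddZetaG.V
  rw [Finset.sum_congr rfl (fun i hi => by rw [pair_cnt hD P (Finset.mem_union_left _ hi)]),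
    Finset.sum_congr (s₁ := D.M) rfl (fun i hi => by rw [pair_cnt hD P (Finset.mem_union_right _ hi)])]

/-- total number of nondivisible factors is even -/
lemma even_total (hD : OKL D) {n l l' : ℕ} (P : Pair D n p l l') :
    Even (∑ i ∈ D.M, (Ub D p n (D.h i) l).card + ∑ i ∈ D.P, (Ub D p n (D.h i) l).card) := by
  have key : ∀ i ∈ D.P ∪ D.M, ∃ k : ℤ,
      ((Ub D p n (D.h i) l).card : ℤ) = (D.C * n + cc D n l p) + 2 * k := by
    intro i hi
    refine ⟨- (D.h i : ℤ) * n - fB D n l p (D.h i) - cc D n l p, ?_⟩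
    rw [card_Ub (p := p) n l (D.h i) (two_PM hD hi).le]
    have := P.diff i hi
    linarith
  have gen : ∀ s : Finset ℕ, (∀ i ∈ s, ∃ k : ℤ,
      ((Ub D p n (D.h i) l).card : ℤ) = (D.C * n + cc D n l p) + 2 * k) →
      ∃ k : ℤ, ((∑ i ∈ s, (Ub D p n (D.h i) l).card : ℕ) : ℤ)
        = s.card * (D.C * n + cc D n l p) + 2 * k := by
    intro s
    induction s using Finset.induction_on with
    | empty => intro _; exact ⟨0, by simp⟩
    | insert a s ha ih =>
      intro hs
      obtain ⟨k, hk⟩ := ih (fun h hh => hs h (Finset.mem_insert_of_mem hh))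
      obtain ⟨j, hj⟩ := hs a (Finset.mem_insert_self _ _)
      refine ⟨k + j, ?_⟩
      rw [Finset.sum_insert ha, Finset.card_insert_of_notMem ha]
      push_cast at hk ⊢
      rw [hk, hj]
      ring
  obtain ⟨a, ha⟩ := gen D.M (fun i hi => key i (Finset.mem_union_right _ hi))
  obtain ⟨b, hb⟩ := gen D.P (fun i hi => key i (Finset.mem_union_left _ hi))
  obtain ⟨A', hA'⟩ := hD.Aeven
  have hPc : (D.P.card : ℤ) = D.M.card + 2 * A' := by
    rw [hD.cardP', hA']
    push_cast
    ring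
  rw [hPc] at hb
  rw [← Int.even_coe_nat]
  push_cast at ha hb ⊢
  rw [ha, hb]
  refine ⟨(D.M.card + A') * (D.C * n + cc D n l p) + a + b, by ring⟩

lemma Cg_F (hD : OKL D) {n l l' : ℕ} (P : Pair D n p l l') (hl : l ≤ D.C * n)
    (hpn : D.C * n < p ^ 2) :
    Cg p (F D n l') (PowerSeries.C (-1) * F D n l) ((p : ℚ) ^ (-V D n l p)) := by
  have hp0 := pq_pos (p := p)
  have e : (p : ℚ) ^ (-V D n l p)
      = (p : ℚ) ^ (-E0 D n p) * 1 * (∏ i ∈ D.M, (p : ℚ) ^ (-cnt D n l p (D.h i)))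
      * (∏ i ∈ D.P, (p : ℚ) ^ (cnt D n l p (D.h i))) := by
    rw [prod_zpow_base _ _ _ hp0.ne', prod_zpow_base _ _ _ hp0.ne', mul_one, ← zpow_add₀ hp0.ne',
      ← zpow_add₀ hp0.ne']
    congr 1
    unfold V E0
    rw [Finset.sum_sub_distrib, Finset.sum_sub_distrib, Finset.sum_neg_distrib]
    ring
  rw [e]
  have cK : Cg p (PowerSeries.C (K D n)) (PowerSeries.C (K D n)) ((p : ℚ) ^ (-E0 D n p)) := by
    apply Cg.refl
    rw [← norm_K n hpn]
    exact GB.C _ hp0.le
  have cM := Cg.prod (p := p) D.M (fun i => B D n (D.h i) l')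
    (fun i => PowerSeries.C (-1) ^ (Ub D p n (D.h i) l).card * B D n (D.h i) l)
    (fun i => (p : ℚ) ^ (-cnt D n l p (D.h i)))
    (fun i hi => Cg_B P hl hpn (two_M hD hi).le (P.fAe i (Finset.mem_union_right _ hi))
      (P.fBe i (Finset.mem_union_right _ hi)))
  have cP := Cg.prod (p := p) D.P (fun i => (B D n (D.h i) l')⁻¹)
    (fun i => PowerSeries.C (-1) ^ (Ub D p n (D.h i) l).card * (B D n (D.h i) l)⁻¹)
    (fun i => (p : ℚ) ^ (cnt D n l p (D.h i)))
    (fun i hi => Cg_Binv P hl hpn (two_P hD hi).le (P.fAe i (Finset.mem_union_left _ hi))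
      (P.fBe i (Finset.mem_union_left _ hi)))
  have c := ((cK.mul (Cg_mid P)).mul cM).mul cP
  have e2 : PowerSeries.C (K D n) *
      (PowerSeries.C (-1) * (PowerSeries.C (D.C * (n : ℚ) - 2 * (l : ℚ)) + 2 * PowerSeries.X)) *
      (∏ i ∈ D.M, PowerSeries.C (-1) ^ (Ub D p n (D.h i) l).card * B D n (D.h i) l) *
      (∏ i ∈ D.P, PowerSeries.C (-1) ^ (Ub D p n (D.h i) l).card * (B D n (D.h i) l)⁻¹)
      = PowerSeries.C (-1) * F D n l := by
    have h1 := Cneg_pow_even (even_total hD P)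
    rw [pow_add, ← Finset.prod_pow_eq_pow_sum, ← Finset.prod_pow_eq_pow_sum] at h1
    rw [Finset.prod_mul_distrib, Finset.prod_mul_distrib]
    unfold F
    rw [prod_inv_ps D.P]
    linear_combination (PowerSeries.C (K D n) *
      (PowerSeries.C (-1) * (PowerSeries.C (D.C * (n : ℚ) - 2 * (l : ℚ)) + 2 * PowerSeries.X)) *
      (∏ i ∈ D.M, B D n (D.h i) l) * (∏ i ∈ D.P, (B D n (D.h i) l)⁻¹)) * h1
  rw [e2] at c
  have e3 : F D n l' = PowerSeries.C (K D n) *
      (PowerSeries.C (D.C * (n : ℚ) - 2 * (l' : ℚ)) + 2 * PowerSeries.X) *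
      (∏ i ∈ D.M, B D n (D.h i) l') * (∏ i ∈ D.P, (B D n (D.h i) l')⁻¹) := by
    unfold F
    rw [prod_inv_ps D.P]
  rw [e3]
  exact c

lemma norm_a_pair (hD : OKL D) {n l l' : ℕ} (P : Pair D n p l l') (i : ℕ) (hl : l ≤ D.C * n)
    (hpn : D.C * n < p ^ 2) :
    padicNorm p (a D n l i + a D n l' i) ≤ (p : ℚ) ^ (ord D n l - V D n l p - i - 1) := by
  have hp0 := pq_pos (p := p)
  unfold a
  rw [pair_ord hD P]
  split_ifs with h
  · have h1 := (Cg_F hD P hl hpn).2.2 (ord D n l - i).toNat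
    have h2 : PowerSeries.coeff (ord D n l - i).toNat (F D n l' - PowerSeries.C (-1) * F D n l)
        = PowerSeries.coeff (ord D n l - i).toNat (F D n l)
          + PowerSeries.coeff (ord D n l - i).toNat (F D n l') := by
      rw [map_sub, coeff_C_mul]; ring
    rw [h2] at h1
    refine h1.trans (le_of_eq ?_)
    rw [← zpow_natCast, div_mul_eq_mul_div, ← zpow_add₀ hp0.ne', div_eq_mul_inv, ← zpow_neg_one,
      ← zpow_add₀ hp0.ne']
    congr 1
    have : (((ord D n l - i).toNat : ℕ) : ℤ) = ord D n l - i := Int.toNat_of_nonneg (by linarith)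
    rw [this]
    ring
  · rw [add_zero, padicNorm.zero]; positivity

lemma norm_T_pair (hD : OKL D) {n l l' : ℕ} (P : Pair D n p l l') (hl : l ≤ D.C * n)
    (hl' : l' ≤ D.C * n) (h25 : D.s * n ≤ l) (h25' : D.s * n ≤ l') (hpn : D.C * n < p ^ 2) :
    padicNorm p (T D n l + T D n l') ≤ (p : ℚ) ^ (ord D n l - V D n l p + D.k - 1) := by
  have hp0 := pq_pos (p := p)
  have hdiv : (l - D.s * n) / p = (l' - D.s * n) / p := by
    have h1 := sub_div_eq (p := p) n l h25
    have h2 := sub_div_eq (p := p) n l' h25'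
    rw [P.fAs, ← h1] at h2
    exact_mod_cast h2.symm
  have e : T D n l + T D n l' = - ∑ i ∈ Finset.Icc 1 D.A,
      ((a D n l i + a D n l' i) * ((i + D.k - 1).choose D.k : ℚ) * Hs (i + D.k) (l - D.s * n)
        + a D n l' i * ((i + D.k - 1).choose D.k : ℚ) *
          (Hs (i + D.k) (l' - D.s * n) - Hs (i + D.k) (l - D.s * n))) := by
    unfold T
    rw [← neg_add, ← Finset.sum_add_distrib]
    congr 1
    refine Finset.sum_congr rfl (fun i _ => ?_)
    ring
  rw [e, padicNorm.neg]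
  apply padicNorm.sum_le'
  · intro i hi
    refine padicNorm.nonarchimedean.trans (max_le ?_ ?_)
    · rw [padicNorm.mul, padicNorm.mul]
      calc padicNorm p (a D n l i + a D n l' i) * padicNorm p (((i + D.k - 1).choose D.k : ℕ) : ℚ)
            * padicNorm p (Hs (i + D.k) (l - D.s * n))
          ≤ (p : ℚ) ^ (ord D n l - V D n l p - i - 1) * 1 * (p : ℚ) ^ (i + D.k) := by
            apply mul_le_mul _ (Hs_le _ _ (by omega)) (padicNorm.nonneg _) (by positivity)
            exact mul_le_mul (norm_a_pair hD P i hl hpn) (padicNorm.of_nat _) (padicNorm.nonneg _)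
              (by positivity)
        _ = (p : ℚ) ^ (ord D n l - V D n l p + D.k - 1) := by
            rw [mul_one, ← zpow_natCast, ← zpow_add₀ hp0.ne']
            congr 1
            push_cast
            ring
    · rw [padicNorm.mul, padicNorm.mul]
      calc padicNorm p (a D n l' i) * padicNorm p (((i + D.k - 1).choose D.k : ℕ) : ℚ)
            * padicNorm p (Hs (i + D.k) (l' - D.s * n) - Hs (i + D.k) (l - D.s * n))
          ≤ (p : ℚ) ^ (ord D n l' - V D n l' p - i) * 1 * 1 := by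
            apply mul_le_mul _ (Hs_sub_le' _ _ _ hdiv) (padicNorm.nonneg _) (by positivity)
            exact mul_le_mul (norm_a_le' hD n l' i hl' hpn) (padicNorm.of_nat _) (padicNorm.nonneg _)
              (by positivity)
        _ ≤ (p : ℚ) ^ (ord D n l - V D n l p + D.k - 1) := by
            rw [mul_one, mul_one, pair_ord hD P, pair_V hD P]
            apply zpow_mono_p
            have h1 : (1 : ℤ) ≤ i := by exact_mod_cast (Finset.mem_Icc.1 hi).1
            have h2 : (0 : ℤ) ≤ D.k := Int.natCast_nonneg _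
            linarith
  · positivity

/-- outside of the pole range the order is not positive -/
lemma ord_nonpos (hD : OKL D) (n l : ℕ) (h1 : (D.s : ℤ) * n ≤ l) (h2 : (l : ℤ) ≤ (D.C - D.s : ℤ) * n)
    (hl : l ∉ poles D n) : ord D n l ≤ 0 := by
  have hsC := s_lt hD
  have hM : {i ∈ D.M | l ∈ blk D n (D.h i)} = D.M := by
    rw [Finset.filter_eq_self]
    intro i hi
    have hi2 := hD.M_lt i hi
    rw [mem_blk_iff n (D.h i) l (by omega)]
    have h3 : (D.h i : ℤ) ≤ D.s := by exact_mod_cast hi2.le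
    have h4 : (0 : ℤ) ≤ n := Int.natCast_nonneg n
    constructor
    · exact (mul_le_mul_of_nonneg_right h3 h4).trans h1
    · refine h2.trans (mul_le_mul_of_nonneg_right ?_ h4)
      linarith
  have hP : {i ∈ D.P | l ∈ blk D n (D.h i)} ⊆ {i ∈ D.P | D.h i < D.lo} := by
    intro i hi
    rw [Finset.mem_filter] at hi ⊢
    refine ⟨hi.1, ?_⟩
    by_contra hc
    push Not at hc
    apply hl
    have hb := hi.2
    unfold blk at hb
    unfold poles
    rw [Finset.mem_Icc] at hb ⊢
    have h3 : D.lo * n ≤ D.h i * n := Nat.mul_le_mul_right _ hc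
    have h4 : (D.C - D.h i) * n ≤ (D.C - D.lo) * n := Nat.mul_le_mul_right _ (by omega)
    exact ⟨h3.trans hb.1, hb.2.trans h4⟩
  unfold ord
  rw [hM, hD.cardM']
  have h3 := (Finset.card_le_card hP).trans hD.lo_ok
  have : ((#{i ∈ D.P | l ∈ blk D n (D.h i)} : ℕ) : ℤ) ≤ ((D.k + 1 : ℕ) : ℤ) := by exact_mod_cast h3
  linarith

/-- membership facts for the partner -/
lemma tau_facts (hD : OKL D) (hs0 : ∃ i ∈ D.P, D.h i = D.s) (n l : ℕ) (hl : l ∈ poles D n)
    (hs : selfP D n l p) (hpl : p ≤ l - D.s * n) (ho : 0 < ord D n l) :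
    tau D n p l ∈ poles D n ∧ p ≤ tau D n p l - D.s * n ∧ selfP D n (tau D n p l) p ∧
      0 < ord D n (tau D n p l) ∧ tau D n p (tau D n p l) = l := by
  have P := pair_tau (p := p) hD hs0 n l hl hs
  have hpz := pz_pos (p := p)
  have ht := tau_cast (p := p) hD n l hl
  have h1 : tau D n p l ∈ poles D n := by
    by_contra hc
    have := ord_nonpos hD n _ ht.2.1 ht.2.2 hc
    rw [pair_ord hD P] at this
    linarith
  have h25 : D.s * n ≤ tau D n p l := by exact_mod_cast ht.2.1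
  have h25l : D.s * n ≤ l := by
    have := (poles_s hD hl).1
    exact_mod_cast this
  have h2 : p ≤ tau D n p l - D.s * n := by
    have e1 := sub_div_eq (p := p) n l h25l
    have e2 := sub_div_eq (p := p) n (tau D n p l) h25
    rw [P.fAs, ← e1] at e2
    have e3 : (tau D n p l - D.s * n) / p = (l - D.s * n) / p := by exact_mod_cast e2
    have e4 : 1 ≤ (l - D.s * n) / p := (Nat.one_le_div_iff hp.out.pos).2 hpl
    rw [← e3] at e4
    exact (Nat.one_le_div_iff hp.out.pos).1 e4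
  have hcc : cc D n (tau D n p l) p = cc D n l p := by
    unfold cc
    rw [P.fAs, P.fBs]
  have h3 : selfP D n (tau D n p l) p := by
    intro i hi j hj
    rw [P.fAe i hi, P.fBe i hi, P.fAe j hj, P.fBe j hj]
    exact hs i hi j hj
  refine ⟨h1, h2, h3, by rw [pair_ord hD P]; exact ho, ?_⟩
  have h4 := (tau_cast (p := p) hD n (tau D n p l) h1).1
  rw [hcc, P.cast] at h4
  have : ((tau D n p (tau D n p l) : ℕ) : ℤ) = l := by rw [h4]; ring
  exact_mod_cast this

lemma noP_large (hD : OKL D) (n l : ℕ) (hl : l ≤ D.C * n) (hpn : D.C * n < p) : noP D n l p := by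
  intro i hi
  have h41 := two_P hD hi
  rw [← card_div (p := p) n l (D.h i) h41.le]
  have : ((blk D n (D.h i)).erase l).filter (fun m : ℕ => (p : ℤ) ∣ (m : ℤ) - l) = ∅ := by
    rw [Finset.filter_eq_empty_iff]
    intro m hm
    rw [Finset.mem_erase] at hm
    have hm83 : m ≤ D.C * n := by
      have := hm.2
      unfold blk at this
      rw [Finset.mem_Icc] at this
      have h1 : (D.C - D.h i) * n ≤ D.C * n := Nat.mul_le_mul_right _ (by omega)
      omega
    intro hd
    have h1 : (m : ℤ) - l = 0 := by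
      apply Int.eq_zero_of_abs_lt_dvd hd
      rw [abs_lt]
      constructor <;> omega
    apply hm.1
    have : (m : ℤ) = l := by linarith
    exact_mod_cast this
  rw [this]
  simp

lemma M_blk (hD : OKL D) (n l : ℕ) (hl : l ∈ poles D n) {i : ℕ} (hi : i ∈ D.M) :
    D.h i * n ≤ l ∧ l ≤ (D.C - D.h i) * n := by
  unfold poles at hl
  rw [Finset.mem_Icc] at hl
  have h0 := hD.M_lt i hi
  have h1 := hD.s_le
  have h2 : D.h i * n ≤ D.lo * n := Nat.mul_le_mul_right _ (by omega)
  have h3 : (D.C - D.lo) * n ≤ (D.C - D.h i) * n := Nat.mul_le_mul_right _ (by omega)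
  omega

lemma s_pos (hD : OKL D) : 0 < D.s := by
  have h1 : 0 < D.M.card := by rw [hD.cardM']; omega
  obtain ⟨i, hi⟩ := Finset.card_pos.1 h1
  have := hD.M_lt i hi
  omega

lemma crude_GB_F (hD : OKL D) (n l : ℕ) (hn : 0 < n) (hl : l ∈ poles D n) :
    GB p (F D n l) (((D.C * n : ℕ) : ℚ) ^ (2 * D.P.card + D.M.card)) ((D.C * n : ℕ) : ℚ) := by
  have hl83 := poles_le n l hl
  have hs0 := s_pos hD
  have hsC := s_lt hD
  have hCn : 1 ≤ D.C * n := Nat.mul_pos (by omega) hn
  have hL1 : (1 : ℚ) ≤ ((D.C * n : ℕ) : ℚ) := by exact_mod_cast hCn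
  have hL0 : (0 : ℚ) < ((D.C * n : ℕ) : ℚ) := by linarith
  have hfpos : ∀ h, 0 < padicNorm p (((Nl D n h).factorial : ℕ) : ℚ) := fun h =>
    lt_of_le_of_ne (padicNorm.nonneg _)
      (padicNorm.nonzero (by exact_mod_cast Nat.factorial_ne_zero _)).symm
  have hBpos : ∀ h, 0 < ∏ m ∈ (blk D n h).erase l, padicNorm p ((m : ℚ) - l) := by
    intro h
    apply Finset.prod_pos
    intro m hm
    rw [Finset.mem_erase] at hm
    refine lt_of_le_of_ne (padicNorm.nonneg _) (padicNorm.nonzero ?_).symm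
    intro hc
    apply hm.1
    have : (m : ℚ) = l := by linarith
    exact_mod_cast this
  have hP : ∀ i ∈ D.P, padicNorm p (((Nl D n (D.h i)).factorial : ℕ) : ℚ) *
      (∏ m ∈ (blk D n (D.h i)).erase l, padicNorm p ((m : ℚ) - l))⁻¹ ≤ ((D.C * n : ℕ) : ℚ) ^ 2 := by
    intro i hi
    have h41 := two_P hD hi
    have h25 : 1 ≤ D.h i := by
      have := hD.P_ge i hi; omega
    rw [← div_eq_mul_inv, div_le_iff₀ (hBpos (D.h i))]
    have := prod_lower (p := p) (D.h i * n) ((D.C - D.h i) * n) l (D.C * n)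
      (Nat.mul_lt_mul_of_pos_right (by omega) hn) (Nat.mul_le_mul_right _ (by omega)) hl83
      (by
        rw [Nl_eq n (D.h i) h41.le]
        unfold Nl
        have h1 : (D.C - 2 * D.h i) * n + 1 * n ≤ D.C * n := by
          rw [← Nat.add_mul]
          exact Nat.mul_le_mul_right _ (by omega)
        omega)
    rw [Nl_eq n (D.h i) h41.le] at this
    exact this
  have hM : ∀ i ∈ D.M, (padicNorm p (((Nl D n (D.h i)).factorial : ℕ) : ℚ))⁻¹ *
      (∏ m ∈ (blk D n (D.h i)).erase l, padicNorm p ((m : ℚ) - l)) ≤ ((D.C * n : ℕ) : ℚ) := by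
    intro i hi
    have h41 := two_M hD hi
    rw [mul_comm, ← div_eq_mul_inv, div_le_iff₀ (hfpos (D.h i))]
    have hlm := M_blk hD n l hl hi
    have := prod_upper (p := p) (D.h i * n) ((D.C - D.h i) * n) l (D.C * n)
      (Nat.mul_lt_mul_of_pos_right (by omega) hn) (Nat.mul_le_mul_right _ (by omega)) hlm.1 hlm.2
    rw [Nl_eq n (D.h i) h41.le] at this
    exact this
  have h0 : GB p (F D n l) (padicNorm p (K D n) * 1 *
      (∏ i ∈ D.M, ∏ m ∈ (blk D n (D.h i)).erase l, padicNorm p ((m : ℚ) - l)) *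
      (∏ i ∈ D.P, (∏ m ∈ (blk D n (D.h i)).erase l, padicNorm p ((m : ℚ) - l))⁻¹))
      ((D.C * n : ℕ) : ℚ) := by
    unfold F
    rw [prod_inv_ps D.P]
    apply GB.mul
    · apply GB.mul
      · apply GB.mul
        · exact GB.C _ hL0.le
        · exact GB_mid n l hL1
      · apply GB.prod _ _ _ hL0.le
        intro i _
        exact crude_GB_B n l (D.h i) hl83
    · apply GB.prod _ _ _ hL0.le
      intro i _
      exact crude_GB_Binv n l (D.h i) hl83
  refine h0.mono hL0.le ?_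
  rw [norm_K_split, ← Finset.prod_inv_distrib]
  have e : (∏ i ∈ D.P, padicNorm p (((Nl D n (D.h i)).factorial : ℕ) : ℚ)) *
      (∏ i ∈ D.M, (padicNorm p (((Nl D n (D.h i)).factorial : ℕ) : ℚ))⁻¹) * 1 *
      (∏ i ∈ D.M, ∏ m ∈ (blk D n (D.h i)).erase l, padicNorm p ((m : ℚ) - l)) *
      (∏ i ∈ D.P, (∏ m ∈ (blk D n (D.h i)).erase l, padicNorm p ((m : ℚ) - l))⁻¹)
      = (∏ i ∈ D.P, (padicNorm p (((Nl D n (D.h i)).factorial : ℕ) : ℚ) *
        (∏ m ∈ (blk D n (D.h i)).erase l, padicNorm p ((m : ℚ) - l))⁻¹)) *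
        ∏ i ∈ D.M, ((padicNorm p (((Nl D n (D.h i)).factorial : ℕ) : ℚ))⁻¹ *
        (∏ m ∈ (blk D n (D.h i)).erase l, padicNorm p ((m : ℚ) - l))) := by
    rw [Finset.prod_mul_distrib, Finset.prod_mul_distrib]
    ring
  rw [e]
  calc _ ≤ (∏ _i ∈ D.P, ((D.C * n : ℕ) : ℚ) ^ 2) * ∏ _i ∈ D.M, ((D.C * n : ℕ) : ℚ) := by
        apply mul_le_mul
        · apply Finset.prod_le_prod
          · intro i _
            exact (mul_pos (hfpos _) (inv_pos.2 (hBpos _))).le
          · exact hP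
        · apply Finset.prod_le_prod
          · intro i _
            exact (mul_pos (inv_pos.2 (hfpos _)) (hBpos _)).le
          · exact hM
        · apply Finset.prod_nonneg
          intro i _
          exact (mul_pos (inv_pos.2 (hfpos _)) (hBpos _)).le
        · positivity
    _ = ((D.C * n : ℕ) : ℚ) ^ (2 * D.P.card + D.M.card) := by
        rw [Finset.prod_const, Finset.prod_const, ← pow_mul, ← pow_add]

lemma ord_le (hD : OKL D) (n l : ℕ) (hl : l ∈ poles D n) : ord D n l ≤ D.A := by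
  unfold ord
  have h1 : #{i ∈ D.P | l ∈ blk D n (D.h i)} ≤ D.P.card := Finset.card_filter_le _ _
  have h2 : {i ∈ D.M | l ∈ blk D n (D.h i)} = D.M := by
    rw [Finset.filter_eq_self]
    intro i hi
    unfold blk
    rw [Finset.mem_Icc]
    exact M_blk hD n l hl hi
  rw [h2]
  have h3 : ((#{i ∈ D.P | l ∈ blk D n (D.h i)} : ℕ) : ℤ) ≤ ((D.P.card : ℕ) : ℤ) := by
    exact_mod_cast h1
  rw [hD.cardP'] at h3
  push_cast at h3 ⊢
  linarith

lemma crude_a (hD : OKL D) (n l i : ℕ) (hn : 0 < n) (hl : l ∈ poles D n) :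
    padicNorm p (a D n l i) ≤ ((D.C * n : ℕ) : ℚ) ^ (2 * D.P.card + D.M.card + D.A) := by
  have hsC := s_lt hD
  have hCn : 1 ≤ D.C * n := Nat.mul_pos (by omega) hn
  have hL1 : (1 : ℚ) ≤ ((D.C * n : ℕ) : ℚ) := by exact_mod_cast hCn
  unfold a
  split_ifs with h
  · refine (crude_GB_F hD n l hn hl _).trans ?_
    rw [← pow_add]
    apply pow_le_pow_right₀ hL1
    have := ord_le hD n l hl
    omega
  · rw [padicNorm.zero]; positivity

end

variable (D : Dat)

/-- C1 -/
theorem rho0_le (hD : OKL D) (n p : ℕ) [Fact p.Prime] (hn : 0 < n)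
    (hp2 : p ≠ 2) (hp : D.C * n < p ^ 2) (d : ℤ)
    (hd : ∀ l ∈ poles D n, bnd D n l p ≤ d) : padicNorm p (rho0 D n) ≤ (p : ℚ) ^ d := by
  have hp0 := pq_pos (p := p)
  have hs0 := hD.s_mem
  unfold rho0
  rw [← Finset.sum_filter_add_sum_filter_not (poles D n)
    (fun l => p ≤ l - D.s * n ∧ selfP D n l p ∧ 0 < ord D n l)]
  refine padicNorm.nonarchimedean.trans (max_le ?_ ?_)
  · set W := (poles D n).filter (fun l => p ≤ l - D.s * n ∧ selfP D n l p ∧ 0 < ord D n l) with hW
    have hinv : ∑ l ∈ W, T D n (tau D n p l) = ∑ l ∈ W, T D n l := by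
      have hmem : ∀ l ∈ W, tau D n p l ∈ W := by
        intro l hl
        rw [hW, Finset.mem_filter] at hl ⊢
        have := tau_facts (p := p) hD hs0 n l hl.1 hl.2.2.1 hl.2.1 hl.2.2.2
        exact ⟨this.1, this.2.1, this.2.2.1, this.2.2.2.1⟩
      have hinvo : ∀ l ∈ W, tau D n p (tau D n p l) = l := by
        intro l hl
        rw [hW, Finset.mem_filter] at hl
        exact (tau_facts (p := p) hD hs0 n l hl.1 hl.2.2.1 hl.2.1 hl.2.2.2).2.2.2.2
      exact Finset.sum_bij' (fun l _ => tau D n p l) (fun l _ => tau D n p l) hmem hmem hinvo hinvo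
        (fun l _ => rfl)
    have h2 : (2 : ℚ) * ∑ l ∈ W, T D n l = ∑ l ∈ W, (T D n l + T D n (tau D n p l)) := by
      rw [Finset.sum_add_distrib, hinv]; ring
    have hnorm2 : padicNorm p (2 : ℚ) = 1 := by
      have := (padicNorm.nat_eq_one_iff (p := p) 2).2 (by
        intro h
        have h1 := (Nat.prime_dvd_prime_iff_eq (Fact.out : p.Prime) Nat.prime_two).1 h
        exact hp2 h1)
      exact_mod_cast this
    have h3 : padicNorm p (∑ l ∈ W, T D n l) = padicNorm p (2 * ∑ l ∈ W, T D n l) := by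
      rw [padicNorm.mul, hnorm2, one_mul]
    rw [h3, h2]
    apply padicNorm.sum_le' _ (by positivity)
    intro l hl
    rw [hW, Finset.mem_filter] at hl
    have hf := tau_facts (p := p) hD hs0 n l hl.1 hl.2.2.1 hl.2.1 hl.2.2.2
    have hb := hd l hl.1
    unfold bnd at hb
    rw [if_pos hl.2.1, if_pos hl.2.2.1] at hb
    have h25 : ∀ k ∈ poles D n, D.s * n ≤ k := by
      intro k hk
      have := (poles_s hD hk).1
      exact_mod_cast this
    refine (norm_T_pair hD (pair_tau (p := p) hD hs0 n l hl.1 hl.2.2.1) (poles_le n l hl.1)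
      (poles_le n _ hf.1) (h25 l hl.1) (h25 _ hf.1) hp).trans ?_
    apply zpow_mono_p
    linarith
  · apply padicNorm.sum_le' _ (by positivity)
    intro l hl
    rw [Finset.mem_filter] at hl
    have hb := hd l hl.1
    have hl83 := poles_le n l hl.1
    unfold bnd at hb
    by_cases ho : 0 < ord D n l
    · by_cases hpl : p ≤ l - D.s * n
      · have hns : ¬ selfP D n l p := fun h => hl.2 ⟨hpl, h, ho⟩
        rw [if_pos hpl, if_neg hns] at hb
        refine (norm_T_le_large' hD n l hl83 hp).trans (zpow_mono_p ?_)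
        linarith
      · rw [if_neg hpl] at hb
        push Not at hpl
        by_cases hno : noP D n l p
        · rw [if_pos hno] at hb
          rcases le_total (ord D n l - V D n l p - 1) (-E0 D n p) with h | h
          · rw [min_eq_left h] at hb
            exact (norm_T_le_small hD n l hl83 hp hpl).trans (zpow_mono_p hb)
          · rw [min_eq_right h] at hb
            exact (norm_T_le_noP hD n l hp hpl hno).trans (zpow_mono_p hb)
        · rw [if_neg hno] at hb
          exact (norm_T_le_small hD n l hl83 hp hpl).trans (zpow_mono_p hb)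
    · rw [T_zero n l (not_lt.1 ho), padicNorm.zero]
      positivity

/-- C2, with the bound for the coefficients -/
theorem rho_le (hD : OKL D) (n p j : ℕ) [Fact p.Prime] (hn : 0 < n) (hp2 : p ≠ 2)
    (hp : D.C * n < p ^ 2) (d : ℤ) (hj : 3 ≤ j) (hd : ∀ l ∈ poles D n, bndR D n l p ≤ d) :
    padicNorm p (rho D n j) ≤ (p : ℚ) ^ d := by
  have hp0 := pq_pos (p := p)
  unfold rho
  apply padicNorm.sum_le' _ (by positivity)
  intro l hl
  have hb := hd l hl
  have hl83 := poles_le n l hl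
  have hA := norm_a_le' (p := p) hD n l (j - D.k) hl83 hp
  have hk0 := hD.k0
  have hj3 : (3 : ℤ) ≤ ((j - D.k : ℕ) : ℤ) := by omega
  have hA' : padicNorm p (a D n l (j - D.k)) ≤ (p : ℚ) ^ d := by
    unfold bndR at hb
    by_cases hno : noP D n l p
    · rw [if_pos hno] at hb
      rcases le_total (ord D n l - V D n l p - 3) (-E0 D n p) with h | h
      · rw [min_eq_left h] at hb
        refine hA.trans (zpow_mono_p ?_)
        linarith
      · rw [min_eq_right h] at hb
        exact (norm_a_le_noP hD n l _ hp hno).trans (zpow_mono_p hb)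
    · rw [if_neg hno] at hb
      refine hA.trans (zpow_mono_p ?_)
      linarith
  rw [padicNorm.mul]
  calc padicNorm p (a D n l (j - D.k)) * padicNorm p (((j - 1).choose D.k : ℕ) : ℚ)
      ≤ (p : ℚ) ^ d * 1 := mul_le_mul hA' (padicNorm.of_nat _) (padicNorm.nonneg _) (by positivity)
    _ = (p : ℚ) ^ d := mul_one _

/-- C4 -/
theorem large (hD : OKL D) (n p j : ℕ) [Fact p.Prime] (hn : 0 < n) (hp : D.C * n < p)
    (hj : 3 ≤ j) :
    padicNorm p (rho0 D n) ≤ 1 ∧ padicNorm p (rho D n j) ≤ 1 := by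
  have hpn : D.C * n < p ^ 2 := lt_of_lt_of_le hp (Nat.le_self_pow (by norm_num) p)
  have hE := E0_large (D := D) (p := p) n hp
  constructor
  · unfold rho0
    apply padicNorm.sum_le' _ zero_le_one
    intro l hl
    have hl83 := poles_le n l hl
    have := norm_T_le_noP (p := p) hD n l hpn (by omega) (noP_large hD n l hl83 hp)
    rwa [hE, neg_zero, zpow_zero] at this
  · unfold rho
    apply padicNorm.sum_le' _ zero_le_one
    intro l hl
    have hl83 := poles_le n l hl
    have := norm_a_le_noP (p := p) hD n l (j - D.k) hpn (noP_large hD n l hl83 hp)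
    rw [hE, neg_zero, zpow_zero] at this
    rw [padicNorm.mul]
    calc padicNorm p (a D n l (j - D.k)) * padicNorm p (((j - 1).choose D.k : ℕ) : ℚ)
        ≤ 1 * 1 := mul_le_mul this (padicNorm.of_nat _) (padicNorm.nonneg _) zero_le_one
      _ = 1 := mul_one _

/-- C3, crude bound valid for every prime -/
theorem crude (hD : OKL D) : ∃ E : ℕ, ∀ (n p j : ℕ) [Fact p.Prime], 0 < n → 3 ≤ j →
    j ≤ D.A → padicNorm p (rho0 D n) ≤ ((D.C : ℚ) * n) ^ E ∧
      padicNorm p (rho D n j) ≤ ((D.C : ℚ) * n) ^ E := by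
  refine ⟨2 * D.P.card + D.M.card + D.A + (D.A + D.k), ?_⟩
  intro n p j _ hn _ _
  have hsC := s_lt hD
  have hCn : 1 ≤ D.C * n := Nat.mul_pos (by omega) hn
  have hL1 : (1 : ℚ) ≤ ((D.C * n : ℕ) : ℚ) := by exact_mod_cast hCn
  have e : ((D.C : ℚ) * n) = ((D.C * n : ℕ) : ℚ) := by push_cast; ring
  rw [e]
  constructor
  · unfold rho0
    apply padicNorm.sum_le' _ (by positivity)
    intro l hl
    have hl83 := poles_le n l hl
    unfold T
    rw [padicNorm.neg]
    apply padicNorm.sum_le' _ (by positivity)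
    intro i hi
    rw [Finset.mem_Icc] at hi
    refine (norm_term_le n l i _ _ (crude_a hD n l i hn hl)
      (crude_Hs (D := D) n (i + D.k) (D.A + D.k) (l - D.s * n) hCn (by omega) (by omega))).trans ?_
    rw [← pow_add]
  · unfold rho
    apply padicNorm.sum_le' _ (by positivity)
    intro l hl
    rw [padicNorm.mul]
    calc padicNorm p (a D n l (j - D.k)) * padicNorm p (((j - 1).choose D.k : ℕ) : ℚ)
        ≤ ((D.C * n : ℕ) : ℚ) ^ (2 * D.P.card + D.M.card + D.A) * 1 :=
          mul_le_mul (crude_a hD n l _ hn hl) (padicNorm.of_nat _) (padicNorm.nonneg _)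
            (by positivity)
      _ ≤ ((D.C * n : ℕ) : ℚ) ^ (2 * D.P.card + D.M.card + D.A + (D.A + D.k)) := by
          rw [mul_one]
          exact pow_le_pow_right₀ hL1 (by omega)

end Pool.Agent.OddZetaL
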