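import Pool.Agent.OddZetaL.CellP
import Pool.Agent.OddZetaL.Padic
import Pool.Agent.OddZetaG.TabMain

/-!
Assembly of the table for `D45`.  Seat: helper8.
-/

open Finset

namespace Pool.Agent.OddZetaL

open Pool.Agent.OddZetaG Pool.Agent.OddZetaG.Tab
open Pool.Agent.OddZeta (tabVal tabInt sum_primes_le)

/-- the weight of a cell of the periodic table -/
def wP (e : ℕ × ℕ × ℕ × ℕ × ℕ) : ℕ × ℕ × ℕ × ℕ × ℕ :=
  (e.1, e.2.1, e.2.2.1, e.2.2.2.1, e.2.2.2.2 + (e.2.2.2.2 - 3))

/-- the weight of a cell of the explicit table -/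
def wE (e : ℕ × ℕ × ℕ × ℕ × ℕ × ℕ) : ℕ × ℕ × ℕ × ℕ × ℕ :=
  (e.1, e.2.1, e.2.2.1, e.2.2.2.1, e.2.2.2.2.1 + e.2.2.2.2.2)

/-- the full period -/
def full (T : List (ℕ × ℕ × ℕ × ℕ × ℕ)) : List (ℕ × ℕ × ℕ × ℕ × ℕ) := (0, 1, 1, 63, 47) :: T

/-- the whole table -/
def tabL (T : List (ℕ × ℕ × ℕ × ℕ × ℕ)) (c : ℕ) : List (ℚ × ℚ × ℕ) :=
  (TE.map wE).map (toQ 0) ++ ((T.map wP).map (toQ 0) ++
    (List.range c).flatMap fun i => ((full T).map wP).map (toQ (i + 1)))

/-- the right end points of all cells -/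
def bdL (T : List (ℕ × ℕ × ℕ × ℕ × ℕ)) (c : ℕ) : List (ℕ × ℕ) :=
  (1, 846) :: (TE.map (fun e => (e.2.2.1, e.2.2.2.1)) ++
    (List.range (c + 1)).flatMap fun i =>
      (full T).map fun e => (i * e.2.2.2.1 + e.2.2.1, e.2.2.2.1))

/-- a boundary point of the table lies in `(n / p, (n + 1) / p]` -/
abbrev crossL (T : List (ℕ × ℕ × ℕ × ℕ × ℕ)) (c n p : ℕ) : Prop :=
  ∃ e ∈ bdL T c, n * e.2 < e.1 * p ∧ e.1 * p ≤ (n + 1) * e.2

/-- geometric conditions on a cell -/
def geo (e : ℕ × ℕ × ℕ × ℕ × ℕ) : Bool :=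
  Nat.blt 0 e.2.1 && (Nat.blt 0 e.2.2.2.1 && Nat.blt (e.1 * e.2.2.2.1) (e.2.2.1 * e.2.1))

theorem geo_iff {e : ℕ × ℕ × ℕ × ℕ × ℕ} (h : geo e = true) :
    0 < e.2.1 ∧ 0 < e.2.2.2.1 ∧ e.1 * e.2.2.2.1 < e.2.2.1 * e.2.1 := by
  unfold geo at h
  simp only [Bool.and_eq_true, Nat.blt_eq] at h
  exact h

/-- chain condition for the explicit table -/
theorem TE_chain : chain 1 846 (TE.map wE) 1 63 = true := by decide +kernel

theorem TE_geo : (TE.map wE).all geo = true := by decide +kernel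

theorem TE_le : TE.all (fun e => Nat.ble e.2.2.2.2.2 e.2.2.2.2.1) = true := by decide +kernel

theorem TE_pos : (TE.map wE).all (fun e => Nat.blt 0 e.1) = true := by decide +kernel

/-- local statement: the two exponents -/
theorem local_exp (hE : ∀ e : ℕ × ℕ × ℕ × ℕ × ℕ × ℕ, okE e = true →
      Good e.1 e.2.1 e.2.2.1 e.2.2.2.1 e.2.2.2.2.1 e.2.2.2.2.2)
    {T : List (ℕ × ℕ × ℕ × ℕ × ℕ)} (hT : ∀ e ∈ T, okP e = true) (hgeo : ∀ e ∈ T, geo e = true)
    (hch : chain 1 63 T 1 1 = true) (c : ℕ) {n p : ℕ} (hn : 19 ≤ n) (hp : p.Prime)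
    (hpn : ¬ p ∣ n) (hpn1 : ¬ p ∣ (n + 1)) (hp1 : 846 * (n + 1) < p ^ 2)
    (hp2 : p ≤ 846 * (n + 1)) :
    ∃ e0 e1 : ℕ, e1 ≤ e0 ∧ e0 + e1 ≤ tabVal (tabL T c) n p + (if (c + 1) * p ≤ n then 94 else 0) +
        (if crossL T c n p then 94 else 0) ∧
      (∀ l ∈ poles D45 n, bnd D45 n l p ≤ e0 ∧ bndR D45 n l p ≤ e1) ∧
      (∀ l ∈ poles D45 (n + 1), bnd D45 (n + 1) l p ≤ e0 ∧ bndR D45 (n + 1) l p ≤ e1) := by
  have hp0 := hp.pos
  have h126 : 126 < p := by
    by_contra hcon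
    rw [not_lt] at hcon
    have : p ^ 2 ≤ 126 ^ 2 := Nat.pow_le_pow_left hcon 2
    omega
  -- the crude choice
  have hcrude : ∀ m l : ℕ, ¬ p ∣ m → l ∈ poles D45 m → bnd D45 m l p ≤ (47 : ℕ) ∧
      bndR D45 m l p ≤ (47 : ℕ) := by
    intro m l hm hl
    have h1 := ordV_le_47 hp hm h126 hl
    have h2 := bnd_le_ordV m l p
    have h3 := bndR_le_ordV m l p
    constructor <;> push_cast <;> omega
  have hcr : 94 ≤ tabVal (tabL T c) n p + (if (c + 1) * p ≤ n then 94 else 0) +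
        (if crossL T c n p then 94 else 0) → ∃ e0 e1 : ℕ, e1 ≤ e0 ∧
      e0 + e1 ≤ tabVal (tabL T c) n p + (if (c + 1) * p ≤ n then 94 else 0) +
        (if crossL T c n p then 94 else 0) ∧
      (∀ l ∈ poles D45 n, bnd D45 n l p ≤ e0 ∧ bndR D45 n l p ≤ e1) ∧
      (∀ l ∈ poles D45 (n + 1), bnd D45 (n + 1) l p ≤ e0 ∧ bndR D45 (n + 1) l p ≤ e1) :=
    fun h => ⟨47, 47, le_rfl, by omega, fun l hl => hcrude n l hpn hl,
      fun l hl => hcrude (n + 1) l hpn1 hl⟩
  by_cases hcross : crossL T c n p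
  · apply hcr
    rw [if_pos hcross]
    omega
  by_cases htail : (c + 1) * p ≤ n
  · apply hcr
    rw [if_pos htail]
    omega
  rw [if_neg hcross, if_neg htail, add_zero, add_zero]
  by_cases h63 : n * 63 < 1 * p
  · -- explicit range
    by_cases h846 : 1 * p ≤ n * 846
    · obtain ⟨e, he, d1, d2⟩ := cover (TE.map wE) 1 846 1 63 TE_chain n p h846 h63
      have hmem := he
      rw [List.mem_map] at he
      obtain ⟨f, hf, rfl⟩ := he
      have hg := geo_iff (List.all_eq_true.1 TE_geo _ hmem)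
      have hok := hE f (List.all_eq_true.1 TE_ok f hf)
      have d1' : f.1 * p ≤ n * f.2.1 := d1
      have d2' : n * f.2.2.2.1 < f.2.2.1 * p := d2
      have d3 : (n + 1) * f.2.2.2.1 < f.2.2.1 * p := by
        by_contra hcon
        rw [not_lt] at hcon
        apply hcross
        refine ⟨(f.2.2.1, f.2.2.2.1), ?_, d2', hcon⟩
        unfold bdL
        rw [List.mem_cons, List.mem_append]
        exact Or.inr (Or.inl (List.mem_map.2 ⟨f, hf, rfl⟩))
      have d4 : f.1 * p ≤ (n + 1) * f.2.1 := d1'.trans (Nat.mul_le_mul_right _ (Nat.le_succ n))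
      have g0 : ∀ l ∈ poles D45 n, bnd D45 n l p ≤ (f.2.2.2.2.1 : ℤ) ∧
          bndR D45 n l p ≤ (f.2.2.2.2.2 : ℤ) :=
        fun l hl => hok n p l (by omega) hp hpn (by omega) d1' d2' hl
      have g1 : ∀ l ∈ poles D45 (n + 1), bnd D45 (n + 1) l p ≤ (f.2.2.2.2.1 : ℤ) ∧
          bndR D45 (n + 1) l p ≤ (f.2.2.2.2.2 : ℤ) :=
        fun l hl => hok (n + 1) p l (by omega) hp hpn1 hp1 d4 d3 hl
      -- value of the table
      have hval : f.2.2.2.2.1 + f.2.2.2.2.2 ≤ tabVal (tabL T c) n p := by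
        have hmem2 : toQ 0 (wE f) ∈ tabL T c := by
          unfold tabL
          exact List.mem_append_left _ (List.mem_map_of_mem hmem)
        have hnp : n < p := by omega
        have hmod : n % p = n := Nat.mod_eq_of_lt hnp
        have hdiv : n / p = 0 := Nat.div_eq_of_lt hnp
        obtain ⟨q1, q2⟩ := toQ_cond (e := wE f) hg.1 hg.2.1 hdiv (by rw [hmod]; exact d1)
          (by rw [hmod]; exact d2)
        exact tabVal_ge hmem2 q1 q2
      have hle : f.2.2.2.2.2 ≤ f.2.2.2.2.1 :=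
        Nat.le_of_ble_eq_true (List.all_eq_true.1 TE_le f hf)
      exact ⟨f.2.2.2.2.1, f.2.2.2.2.2, hle, hval, g0, g1⟩
    · exfalso
      apply hcross
      refine ⟨(1, 846), ?_, by show n * 846 < 1 * p; omega, by show 1 * p ≤ (n + 1) * 846; omega⟩
      unfold bdL
      exact List.mem_cons_self
  · -- periodic range
    have hdm := Nat.div_add_mod n p
    have hmlt : n % p < p := Nat.mod_lt _ hp0
    have hN : n / p < c + 1 := by
      rw [Nat.div_lt_iff_lt_mul hp0]
      omega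
    have hq1 : n % p + 1 < p := by
      by_contra hcon
      apply hpn1
      have e1 : n % p + 1 = p := by omega
      have e2 : n + 1 = p * (n / p + 1) := by
        rw [Nat.mul_add, mul_one]
        omega
      rw [e2]
      exact Nat.dvd_mul_right _ _
    have hmod1 : (n + 1) % p = n % p + 1 := by
      have e2 : n + 1 = (n % p + 1) + p * (n / p) := by omega
      rw [e2, Nat.add_mul_mod_self_left, Nat.mod_eq_of_lt hq1]
    -- the cell
    obtain ⟨e, he, hmem, d1, d2⟩ : ∃ e ∈ full T, toQ (n / p) (wP e) ∈ tabL T c ∧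
        e.1 * p ≤ (n % p) * e.2.1 ∧ (n % p) * e.2.2.2.1 < e.2.2.1 * p := by
      by_cases hN0 : n / p = 0
      · have hnp : n % p = n := by
          rw [hN0, mul_zero, zero_add] at hdm
          exact hdm
        obtain ⟨e, he, d1, d2⟩ := cover T 1 63 1 1 hch (n % p) p (by rw [hnp]; omega) (by omega)
        refine ⟨e, List.mem_cons_of_mem _ he, ?_, d1, d2⟩
        rw [hN0]
        unfold tabL
        exact List.mem_append_right _ (List.mem_append_left _
          (List.mem_map_of_mem (List.mem_map_of_mem he)))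
      · have hch' : chain 0 1 (full T) 1 1 = true := by
          unfold full chain
          rw [hch]
          rfl
        obtain ⟨e, he, d1, d2⟩ := cover (full T) 0 1 1 1 hch' (n % p) p (by omega) (by omega)
        refine ⟨e, he, ?_, d1, d2⟩
        unfold tabL
        refine List.mem_append_right _ (List.mem_append_right _ ?_)
        rw [List.mem_flatMap]
        refine ⟨n / p - 1, List.mem_range.2 (Nat.sub_one_lt_of_le (Nat.pos_of_ne_zero hN0)
          (Nat.lt_succ_iff.1 hN)), ?_⟩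
        rw [Nat.sub_add_cancel (Nat.one_le_iff_ne_zero.2 hN0)]
        exact List.mem_map_of_mem (List.mem_map_of_mem he)
    have hokf : okP e = true := by
      rcases List.mem_cons.1 he with rfl | he'
      · decide
      · exact hT e he'
    have hgf : geo e = true := by
      rcases List.mem_cons.1 he with rfl | he'
      · decide
      · exact hgeo e he'
    have hg := geo_iff hgf
    have d3 : (n % p + 1) * e.2.2.2.1 < e.2.2.1 * p := by
      by_contra hcon
      rw [not_lt] at hcon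
      apply hcross
      refine ⟨((n / p) * e.2.2.2.1 + e.2.2.1, e.2.2.2.1), ?_, ?_, ?_⟩
      · unfold bdL
        rw [List.mem_cons, List.mem_append, List.mem_flatMap]
        exact Or.inr (Or.inr ⟨n / p, List.mem_range.2 hN, List.mem_map.2 ⟨e, he, rfl⟩⟩)
      · show n * e.2.2.2.1 < ((n / p) * e.2.2.2.1 + e.2.2.1) * p
        calc n * e.2.2.2.1 = (n / p) * e.2.2.2.1 * p + (n % p) * e.2.2.2.1 := by
              conv_lhs => rw [← hdm]
              ring
          _ < (n / p) * e.2.2.2.1 * p + e.2.2.1 * p := by omega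
          _ = _ := by ring
      · show ((n / p) * e.2.2.2.1 + e.2.2.1) * p ≤ (n + 1) * e.2.2.2.1
        calc ((n / p) * e.2.2.2.1 + e.2.2.1) * p = (n / p) * e.2.2.2.1 * p + e.2.2.1 * p := by ring
          _ ≤ (n / p) * e.2.2.2.1 * p + (n % p + 1) * e.2.2.2.1 := by omega
          _ = (p * (n / p) + n % p + 1) * e.2.2.2.1 := by ring
          _ = _ := by rw [hdm]
    have d4 : e.1 * p ≤ (n % p + 1) * e.2.1 := d1.trans (Nat.mul_le_mul_right _ (Nat.le_succ _))
    have hval : e.2.2.2.2 + (e.2.2.2.2 - 3) ≤ tabVal (tabL T c) n p := by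
      obtain ⟨q1, q2⟩ := toQ_cond (e := wP e) hg.1 hg.2.1 rfl d1 d2
      exact tabVal_ge hmem q1 q2
    refine ⟨e.2.2.2.2, e.2.2.2.2 - 3, Nat.sub_le _ _, hval, fun l hl => ?_, fun l hl => ?_⟩
    · have h1 := ordV_le_cell hokf hp hpn h126 d1 d2 hl
      have h2 := bnd_le_ordV n l p
      have h3 := bndR_le_ordV n l p
      constructor <;> omega
    · have h1 := ordV_le_cell hokf (n := n + 1) hp hpn1 h126 (by rw [hmod1]; exact d4)
        (by rw [hmod1]; exact d3) hl
      have h2 := bnd_le_ordV (n + 1) l p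
      have h3 := bndR_le_ordV (n + 1) l p
      constructor <;> omega

end Pool.Agent.OddZetaL
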