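import Pool.Agent.OddZetaL.TabData
import Pool.Agent.OddZetaL.Table

/-! Kernel check of one chunk of the periodic table.  Seat: helper8. -/

namespace Pool.Agent.OddZetaL

open Pool.Agent.OddZetaG.Tab

set_option maxRecDepth 100000 in
theorem P2_ok : P2.all okP = true := by decide +kernel

set_option maxRecDepth 100000 in
theorem P2_geo : P2.all geo = true := by decide +kernel

set_option maxRecDepth 100000 in
theorem P2_pos : P2.all (fun e => Nat.blt 0 e.1) = true := by decide +kernel

set_option maxRecDepth 100000 in
theorem P2_chain : chain 4 19 P2 13 42 = true := by decide +kernel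

set_option maxRecDepth 100000 in
theorem P2_sum0 : Nat.ble (sumUb 0 (P2.map wP)) 72549019335 = true := by decide +kernel

set_option maxRecDepth 100000 in
theorem P2_sum1 : Nat.ble (sumUb 1 (P2.map wP)) 2982582714 = true := by decide +kernel

set_option maxRecDepth 100000 in
theorem P2_sum2 : Nat.ble (sumUb 2 (P2.map wP)) 926109795 = true := by decide +kernel

set_option maxRecDepth 100000 in
theorem P2_sum3 : Nat.ble (sumUb 3 (P2.map wP)) 444986711 = true := by decide +kernel

set_option maxRecDepth 100000 in
theorem P2_sum4 : Nat.ble (sumUb 4 (P2.map wP)) 260577527 = true := by decide +kernel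

end Pool.Agent.OddZetaL
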