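import Pool.Agent.OddZetaL.TabData
import Pool.Agent.OddZetaL.Table

/-! Kernel check of one chunk of the periodic table.  Seat: helper8. -/

namespace Pool.Agent.OddZetaL

open Pool.Agent.OddZetaG.Tab

set_option maxRecDepth 100000 in
theorem P3_ok : P3.all okP = true := by decide +kernel

set_option maxRecDepth 100000 in
theorem P3_geo : P3.all geo = true := by decide +kernel

set_option maxRecDepth 100000 in
theorem P3_pos : P3.all (fun e => Nat.blt 0 e.1) = true := by decide +kernel

set_option maxRecDepth 100000 in
theorem P3_chain : chain 13 42 P3 20 49 = true := by decide +kernel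

set_option maxRecDepth 100000 in
theorem P3_sum0 : Nat.ble (sumUb 0 (P3.map wP)) 37790827999 = true := by decide +kernel

set_option maxRecDepth 100000 in
theorem P3_sum1 : Nat.ble (sumUb 1 (P3.map wP)) 2586691915 = true := by decide +kernel

set_option maxRecDepth 100000 in
theorem P3_sum2 : Nat.ble (sumUb 2 (P3.map wP)) 857523366 = true := by decide +kernel

set_option maxRecDepth 100000 in
theorem P3_sum3 : Nat.ble (sumUb 3 (P3.map wP)) 422818635 = true := by decide +kernel

set_option maxRecDepth 100000 in
theorem P3_sum4 : Nat.ble (sumUb 4 (P3.map wP)) 251046886 = true := by decide +kernel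

end Pool.Agent.OddZetaL
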