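import Pool.Agent.OddZetaL.TabData
import Pool.Agent.OddZetaL.Table

/-! Kernel check of one chunk of the periodic table.  Seat: helper8. -/

namespace Pool.Agent.OddZetaL

open Pool.Agent.OddZetaG.Tab

set_option maxRecDepth 100000 in
theorem P4_ok : P4.all okP = true := by decide +kernel

set_option maxRecDepth 100000 in
theorem P4_geo : P4.all geo = true := by decide +kernel

set_option maxRecDepth 100000 in
theorem P4_pos : P4.all (fun e => Nat.blt 0 e.1) = true := by decide +kernel

set_option maxRecDepth 100000 in
theorem P4_chain : chain 20 49 P4 63 124 = true := by decide +kernel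

set_option maxRecDepth 100000 in
theorem P4_sum0 : Nat.ble (sumUb 0 (P4.map wP)) 23646564775 = true := by decide +kernel

set_option maxRecDepth 100000 in
theorem P4_sum1 : Nat.ble (sumUb 1 (P4.map wP)) 2319221256 = true := by decide +kernel

set_option maxRecDepth 100000 in
theorem P4_sum2 : Nat.ble (sumUb 2 (P4.map wP)) 816145948 = true := by decide +kernel

set_option maxRecDepth 100000 in
theorem P4_sum3 : Nat.ble (sumUb 3 (P4.map wP)) 412452491 = true := by decide +kernel

set_option maxRecDepth 100000 in
theorem P4_sum4 : Nat.ble (sumUb 4 (P4.map wP)) 248208916 = true := by decide +kernel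

end Pool.Agent.OddZetaL
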