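import Pool.Agent.OddZetaL.TabData
import Pool.Agent.OddZetaL.Table

/-! Kernel check of one chunk of the periodic table.  Seat: helper8. -/

namespace Pool.Agent.OddZetaL

open Pool.Agent.OddZetaG.Tab

set_option maxRecDepth 100000 in
theorem P5_ok : P5.all okP = true := by decide +kernel

set_option maxRecDepth 100000 in
theorem P5_geo : P5.all geo = true := by decide +kernel

set_option maxRecDepth 100000 in
theorem P5_pos : P5.all (fun e => Nat.blt 0 e.1) = true := by decide +kernel

set_option maxRecDepth 100000 in
theorem P5_chain : chain 63 124 P5 43 71 = true := by decide +kernel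

set_option maxRecDepth 100000 in
theorem P5_sum0 : Nat.ble (sumUb 0 (P5.map wP)) 15221811647 = true := by decide +kernel

set_option maxRecDepth 100000 in
theorem P5_sum1 : Nat.ble (sumUb 1 (P5.map wP)) 1933488766 = true := by decide +kernel

set_option maxRecDepth 100000 in
theorem P5_sum2 : Nat.ble (sumUb 2 (P5.map wP)) 716356652 = true := by decide +kernel

set_option maxRecDepth 100000 in
theorem P5_sum3 : Nat.ble (sumUb 3 (P5.map wP)) 370109536 = true := by decide +kernel

set_option maxRecDepth 100000 in
theorem P5_sum4 : Nat.ble (sumUb 4 (P5.map wP)) 225480425 = true := by decide +kernel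

end Pool.Agent.OddZetaL
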