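import Pool.Agent.OddZetaL.TabC0
import Pool.Agent.OddZetaL.TabC1
import Pool.Agent.OddZetaL.TabC2
import Pool.Agent.OddZetaL.TabC3
import Pool.Agent.OddZetaL.TabC4
import Pool.Agent.OddZetaL.TabC5
import Pool.Agent.OddZetaL.TabC6
import Pool.Agent.OddZetaL.TabC7
import Pool.Agent.OddZetaL.TabC8
import Pool.Agent.OddZetaL.TabC9
import Pool.Agent.OddZetaL.Cross

/-!
Assembly of the chunks, the bound of the denominators.  Seat: helper8.
-/

open Finset

namespace Pool.Agent.OddZetaL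

open Pool.Agent.OddZetaG Pool.Agent.OddZetaG.Tab
open Pool.Agent.OddZeta (tabVal tabInt sum_primes_le)

/-- the cells from `1 / 63` to `1` -/
def T45 : List (ℕ × ℕ × ℕ × ℕ × ℕ) := P0 ++ (P1 ++ (P2 ++ (P3 ++ (P4 ++ (P5 ++ (P6 ++ (P7 ++ (P8 ++ (P9)))))))))

theorem chain_append : ∀ (l : List (ℕ × ℕ × ℕ × ℕ × ℕ)) (l' : List (ℕ × ℕ × ℕ × ℕ × ℕ))
    (s1 s2 t1 t2 r1 r2 : ℕ), chain s1 s2 l t1 t2 = true → chain t1 t2 l' r1 r2 = true →
    chain s1 s2 (l ++ l') r1 r2 = true := by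
  intro l
  induction l with
  | nil =>
    intro l' s1 s2 t1 t2 r1 r2 h h'
    unfold chain at h
    rw [Bool.and_eq_true] at h
    rw [Nat.eq_of_beq_eq_true h.1, Nat.eq_of_beq_eq_true h.2]
    exact h'
  | cons e l ih =>
    intro l' s1 s2 t1 t2 r1 r2 h h'
    unfold chain at h
    rw [Bool.and_eq_true, Bool.and_eq_true] at h
    rw [List.cons_append]
    unfold chain
    rw [Bool.and_eq_true, Bool.and_eq_true]
    exact ⟨h.1, h.2.1, ih l' _ _ _ _ _ _ h.2.2 h'⟩

theorem sumUb_append (N : ℕ) (l l' : List (ℕ × ℕ × ℕ × ℕ × ℕ)) :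
    sumUb N (l ++ l') = sumUb N l + sumUb N l' := by
  induction l with
  | nil => simp [sumUb]
  | cons e l ih =>
    have h1 : sumUb N (e :: l ++ l') = ub N e + sumUb N (l ++ l') := rfl
    have h2 : sumUb N (e :: l) = ub N e + sumUb N l := rfl
    rw [h1, h2, ih, add_assoc]

theorem all_T45 {q : ℕ × ℕ × ℕ × ℕ × ℕ → Bool} (h0 : P0.all q = true) (h1 : P1.all q = true) (h2 : P2.all q = true) (h3 : P3.all q = true) (h4 : P4.all q = true) (h5 : P5.all q = true) (h6 : P6.all q = true) (h7 : P7.all q = true) (h8 : P8.all q = true) (h9 : P9.all q = true) :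
    ∀ e ∈ T45, q e = true := by
  have h : T45.all q = true := by
    unfold T45
    simp only [List.all_append, h0, h1, h2, h3, h4, h5, h6, h7, h8, h9, Bool.and_self]
  exact fun e he => List.all_eq_true.1 h e he

theorem T45_ok : ∀ e ∈ T45, okP e = true :=
  all_T45 P0_ok P1_ok P2_ok P3_ok P4_ok P5_ok P6_ok P7_ok P8_ok P9_ok

theorem T45_geo : ∀ e ∈ T45, geo e = true :=
  all_T45 P0_geo P1_geo P2_geo P3_geo P4_geo P5_geo P6_geo P7_geo P8_geo P9_geo

theorem T45_pos : ∀ e ∈ T45, Nat.blt 0 e.1 = true :=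
  all_T45 P0_pos P1_pos P2_pos P3_pos P4_pos P5_pos P6_pos P7_pos P8_pos P9_pos

theorem T45_chain : chain 1 63 T45 1 1 = true := by
  unfold T45
  refine chain_append _ _ _ _ _ _ _ _ P0_chain ?_
  refine chain_append _ _ _ _ _ _ _ _ P1_chain ?_
  refine chain_append _ _ _ _ _ _ _ _ P2_chain ?_
  refine chain_append _ _ _ _ _ _ _ _ P3_chain ?_
  refine chain_append _ _ _ _ _ _ _ _ P4_chain ?_
  refine chain_append _ _ _ _ _ _ _ _ P5_chain ?_
  refine chain_append _ _ _ _ _ _ _ _ P6_chain ?_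
  refine chain_append _ _ _ _ _ _ _ _ P7_chain ?_
  refine chain_append _ _ _ _ _ _ _ _ P8_chain ?_
  exact P9_chain

theorem T45_sum0 : sumUb 0 (T45.map wP) ≤ 3127543999142 := by
  unfold T45
  simp only [List.map_append, sumUb_append]
  have h0 := Nat.le_of_ble_eq_true P0_sum0
  have h1 := Nat.le_of_ble_eq_true P1_sum0
  have h2 := Nat.le_of_ble_eq_true P2_sum0
  have h3 := Nat.le_of_ble_eq_true P3_sum0
  have h4 := Nat.le_of_ble_eq_true P4_sum0
  have h5 := Nat.le_of_ble_eq_true P5_sum0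
  have h6 := Nat.le_of_ble_eq_true P6_sum0
  have h7 := Nat.le_of_ble_eq_true P7_sum0
  have h8 := Nat.le_of_ble_eq_true P8_sum0
  have h9 := Nat.le_of_ble_eq_true P9_sum0
  omega

theorem T45_sum1 : sumUb 1 (T45.map wP) ≤ 23548897094 := by
  unfold T45
  simp only [List.map_append, sumUb_append]
  have h0 := Nat.le_of_ble_eq_true P0_sum1
  have h1 := Nat.le_of_ble_eq_true P1_sum1
  have h2 := Nat.le_of_ble_eq_true P2_sum1
  have h3 := Nat.le_of_ble_eq_true P3_sum1
  have h4 := Nat.le_of_ble_eq_true P4_sum1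
  have h5 := Nat.le_of_ble_eq_true P5_sum1
  have h6 := Nat.le_of_ble_eq_true P6_sum1
  have h7 := Nat.le_of_ble_eq_true P7_sum1
  have h8 := Nat.le_of_ble_eq_true P8_sum1
  have h9 := Nat.le_of_ble_eq_true P9_sum1
  omega

theorem T45_sum2 : sumUb 2 (T45.map wP) ≤ 7920708523 := by
  unfold T45
  simp only [List.map_append, sumUb_append]
  have h0 := Nat.le_of_ble_eq_true P0_sum2
  have h1 := Nat.le_of_ble_eq_true P1_sum2
  have h2 := Nat.le_of_ble_eq_true P2_sum2
  have h3 := Nat.le_of_ble_eq_true P3_sum2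
  have h4 := Nat.le_of_ble_eq_true P4_sum2
  have h5 := Nat.le_of_ble_eq_true P5_sum2
  have h6 := Nat.le_of_ble_eq_true P6_sum2
  have h7 := Nat.le_of_ble_eq_true P7_sum2
  have h8 := Nat.le_of_ble_eq_true P8_sum2
  have h9 := Nat.le_of_ble_eq_true P9_sum2
  omega

theorem T45_sum3 : sumUb 3 (T45.map wP) ≤ 3973529291 := by
  unfold T45
  simp only [List.map_append, sumUb_append]
  have h0 := Nat.le_of_ble_eq_true P0_sum3
  have h1 := Nat.le_of_ble_eq_true P1_sum3
  have h2 := Nat.le_of_ble_eq_true P2_sum3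
  have h3 := Nat.le_of_ble_eq_true P3_sum3
  have h4 := Nat.le_of_ble_eq_true P4_sum3
  have h5 := Nat.le_of_ble_eq_true P5_sum3
  have h6 := Nat.le_of_ble_eq_true P6_sum3
  have h7 := Nat.le_of_ble_eq_true P7_sum3
  have h8 := Nat.le_of_ble_eq_true P8_sum3
  have h9 := Nat.le_of_ble_eq_true P9_sum3
  omega

theorem T45_sum4 : sumUb 4 (T45.map wP) ≤ 2388340383 := by
  unfold T45
  simp only [List.map_append, sumUb_append]
  have h0 := Nat.le_of_ble_eq_true P0_sum4
  have h1 := Nat.le_of_ble_eq_true P1_sum4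
  have h2 := Nat.le_of_ble_eq_true P2_sum4
  have h3 := Nat.le_of_ble_eq_true P3_sum4
  have h4 := Nat.le_of_ble_eq_true P4_sum4
  have h5 := Nat.le_of_ble_eq_true P5_sum4
  have h6 := Nat.le_of_ble_eq_true P6_sum4
  have h7 := Nat.le_of_ble_eq_true P7_sum4
  have h8 := Nat.le_of_ble_eq_true P8_sum4
  have h9 := Nat.le_of_ble_eq_true P9_sum4
  omega

end Pool.Agent.OddZetaL
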